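import Mathlib
import Pool.Agent.Helper78.SM.Orbit
import Pool.Agent.Helper78.SM.Fin

/-! Project RX: definitions.  `W` is a probability space (usually `T2 × Z`); all functions are
complex valued, bounded and measurable. -/

set_option autoImplicit false
open MeasureTheory Real Set
open scoped ComplexConjugate

namespace Pool.Agent.Helper95.RX

export Pool.Agent.Helper53.SM (T2)
export Pool.Agent.Helper78.SM (snn csn snn_coe csn_coe std std_isStd mk2 mp_mk2 Sw L phi)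

attribute [local instance] Pool.Agent.Helper53.SM.instProbU Pool.Agent.Helper53.SM.instProbT2

/-! ### norms -/

/-- bounded measurable function -/
def BM {W : Type} [MeasurableSpace W] (g : W → ℂ) : Prop :=
  Measurable g ∧ ∃ C : ℝ, ∀ w, ‖g w‖ ≤ C

/-- the `L²` norm -/
noncomputable def N2 {W : Type} [MeasurableSpace W] (μ : Measure W) (g : W → ℂ) : ℝ :=
  Real.sqrt (∫ w, ‖g w‖ ^ 2 ∂μ)

/-- the inner product -/
noncomputable def IP {W : Type} [MeasurableSpace W] (μ : Measure W) (g h : W → ℂ) : ℂ :=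
  ∫ w, g w * conj (h w) ∂μ

/-! ### the maps of the torus -/

/-- the kicked standard map `S_a ∘ T_{(c,0)}` -/
noncomputable def kf (a c : ℝ) (p : T2) : T2 := std a (p.1 + (c : UnitAddCircle), p.2)

/-- horizontal shear `(X, Y) ↦ (X + D sin (2π(Y + κ)), Y)` -/
noncomputable def hm (D : ℝ) (κ : UnitAddCircle) (p : T2) : T2 :=
  (p.1 + ((D * snn (p.2 + κ) : ℝ) : UnitAddCircle), p.2)

/-- vertical shear `(X, Y) ↦ (X, Y + D sin (2π(X + κ)))` -/
noncomputable def vm (D : ℝ) (κ : UnitAddCircle) (p : T2) : T2 :=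
  (p.1, p.2 + ((D * snn (p.1 + κ) : ℝ) : UnitAddCircle))

/-- horizontal translation -/
def ht (τ : UnitAddCircle) (p : T2) : T2 := (p.1 + τ, p.2)

/-- vertical translation -/
def vt (τ : UnitAddCircle) (p : T2) : T2 := (p.1, p.2 + τ)

/-! ### near invariance -/

/-- `g ∘ (φ × θ)` is within `e` of `g'` in `L²(T2 × Z)` for the given maps -/
def rl {Z : Type} [MeasurableSpace Z] (μ : Measure Z) (g g' : T2 × Z → ℂ) (φ : T2 → T2)
    (θ : Z → Z) (e : ℝ) : Prop :=
  N2 ((volume : Measure T2).prod μ) (fun w => g (φ w.1, θ w.2) - g' w) ≤ e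

/-- `g` is nearly invariant under `φ × θ` for some automorphism `θ` of `Z` -/
def nr {Z : Type} [MeasurableSpace Z] (μ : Measure Z) (g : T2 × Z → ℂ) (φ : T2 → T2) (e : ℝ) :
    Prop :=
  ∃ θ : Z ≃ᵐ Z, MeasurePreserving θ μ μ ∧ rl μ g g φ θ e

/-! ### trigonometric polynomials in the first factor -/

/-- `∑_{(k,l) ∈ S} c_{k,l}(z) e(kX + lY)` -/
noncomputable def tp {Z : Type} (S : Finset (ℤ × ℤ)) (c : ℤ × ℤ → Z → ℂ) (w : T2 × Z) : ℂ :=
  ∑ ξ ∈ S, c ξ w.2 * (fourier ξ.1 w.1.1 * fourier ξ.2 w.1.2)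

/-- the square of the norm of `tp S c` -/
noncomputable def ns {Z : Type} [MeasurableSpace Z] (μ : Measure Z) (S : Finset (ℤ × ℤ))
    (c : ℤ × ℤ → Z → ℂ) : ℝ := ∑ ξ ∈ S, ∫ z, ‖c ξ z‖ ^ 2 ∂μ

/-! ### averaging operators -/

/-- one step -/
noncomputable def Qop {W : Type} (F : ℝ → W → W) (ν : Measure ℝ) (g : W → ℂ) (w : W) : ℂ :=
  ∫ c, g (F c w) ∂ν

/-- `n` steps: first `F 0`, last `F (n-1)` -/
noncomputable def Qn {W : Type} : ℕ → (ℕ → ℝ → W → W) → (ℕ → Measure ℝ) → (W → ℂ) → (W → ℂ)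
  | 0, _, _, g => g
  | n + 1, F, ν, g => Qop (F 0) (ν 0) (Qn n (fun i => F (i + 1)) (fun i => ν (i + 1)) g)

/-- composition of `n` maps: first `F 0 (ω 0)`, last `F (n-1) (ω (n-1))` -/
def cmp {W : Type} (F : ℕ → ℝ → W → W) (ω : ℕ → ℝ) : ℕ → W → W
  | 0, w => w
  | n + 1, w => F n (ω n) (cmp F ω n w)

/-- a random system of automorphisms of `Z` -/
structure Sys (Z : Type) [MeasurableSpace Z] (μ : Measure Z) where
  h : ℕ → ℝ → Z ≃ᵐ Z
  mp : ∀ i c, MeasurePreserving (h i c) μ μ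
  meas : ∀ i, Measurable (fun q : ℝ × Z => h i q.1 q.2)

/-- shift of a system -/
def Sys.shift {Z : Type} [MeasurableSpace Z] {μ : Measure Z} (H : Sys Z μ) (k : ℕ) : Sys Z μ where
  h := fun i => H.h (i + k)
  mp := fun i c => H.mp (i + k) c
  meas := fun i => H.meas (i + k)

/-- the pair map at step `i` -/
noncomputable def pm {Z : Type} [MeasurableSpace Z] {μ : Measure Z} (a : ℕ → ℝ) (H : Sys Z μ)
    (i : ℕ) (c : ℝ) (w : T2 × Z) : T2 × Z := (kf (a i) c w.1, H.h i c w.2)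

/-- the law of the kick at each step is spread -/
def Spread (s q : ℝ) (ν : Measure ℝ) : Prop :=
  q ≤ (ν.prod ν).real {t : ℝ × ℝ | s ≤ |Real.sin (2 * π * (t.1 - t.2))|}

/-- the gap -/
noncomputable def eta (A s q : ℝ) : ℝ := q * s ^ 22 * A ^ 3 / 10 ^ 15

end Pool.Agent.Helper95.RX
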