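import Mathlib
import Pool.Agent.Helper95.RX.Defs

/-! RX-BM: bounded measurable functions. -/

set_option autoImplicit false
open MeasureTheory Real Set Filter Topology
open scoped ComplexConjugate ENNReal

namespace Pool.Agent.Helper95.RX

variable {W : Type} [MeasurableSpace W] {μ : Measure W} [IsProbabilityMeasure μ] {g h : W → ℂ}

lemma BM.add (hg : BM g) (hh : BM h) : BM (fun w => g w + h w) := by
  obtain ⟨h1, C, hC⟩ := hg
  obtain ⟨h2, C', hC'⟩ := hh
  exact ⟨h1.add h2, C + C', fun w => (norm_add_le _ _).trans (add_le_add (hC w) (hC' w))⟩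

lemma BM.sub (hg : BM g) (hh : BM h) : BM (fun w => g w - h w) := by
  obtain ⟨h1, C, hC⟩ := hg
  obtain ⟨h2, C', hC'⟩ := hh
  exact ⟨h1.sub h2, C + C', fun w => (norm_sub_le _ _).trans (add_le_add (hC w) (hC' w))⟩

lemma BM.mul (hg : BM g) (hh : BM h) : BM (fun w => g w * h w) := by
  obtain ⟨h1, C, hC⟩ := hg
  obtain ⟨h2, C', hC'⟩ := hh
  refine ⟨h1.mul h2, C * C', fun w => ?_⟩
  rw [norm_mul]
  exact mul_le_mul (hC w) (hC' w) (norm_nonneg _) ((norm_nonneg _).trans (hC w))

lemma BM.const (r : ℂ) : BM (fun _ : W => r) :=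
  ⟨measurable_const, ‖r‖, fun _ => le_refl _⟩

lemma BM.smul (r : ℂ) (hg : BM g) : BM (fun w => r * g w) := (BM.const r).mul hg

lemma BM.conj (hg : BM g) : BM (fun w => (starRingEnd ℂ) (g w)) := by
  obtain ⟨h1, C, hC⟩ := hg
  refine ⟨Complex.continuous_conj.measurable.comp h1, C, fun w => ?_⟩
  rw [RCLike.norm_conj]
  exact hC w

lemma BM.sum {ι : Type} (s : Finset ι) {u : ι → W → ℂ} (hu : ∀ i ∈ s, BM (u i)) :
    BM (fun w => ∑ i ∈ s, u i w) := by
  classical
  induction s using Finset.induction_on with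
  | empty => simpa using BM.const (W := W) 0
  | insert a s ha ih =>
    have h1 := hu a (Finset.mem_insert_self a s)
    have h2 := ih (fun i hi => hu i (Finset.mem_insert_of_mem hi))
    simp only [Finset.sum_insert ha]
    exact h1.add h2

lemma BM.comp {V : Type} [MeasurableSpace V] {φ : V → W} (hφ : Measurable φ) (hg : BM g) :
    BM (fun v => g (φ v)) := by
  obtain ⟨h1, C, hC⟩ := hg
  exact ⟨h1.comp hφ, C, fun v => hC _⟩

lemma BM.integrable (hg : BM g) : Integrable g μ := by
  obtain ⟨h1, C, hC⟩ := hg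
  exact Integrable.of_bound h1.aestronglyMeasurable C (Filter.Eventually.of_forall hC)

lemma BM.integrable_sq (hg : BM g) : Integrable (fun w => ‖g w‖ ^ 2) μ := by
  obtain ⟨h1, C, hC⟩ := hg
  refine Integrable.of_bound (h1.norm.pow_const 2).aestronglyMeasurable (C ^ 2)
    (Filter.Eventually.of_forall fun w => ?_)
  rw [Real.norm_eq_abs, abs_of_nonneg (sq_nonneg _)]
  exact pow_le_pow_left₀ (norm_nonneg _) (hC w) 2

end Pool.Agent.Helper95.RX
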