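import Mathlib
import Pool.Agent.Helper95.RX.BMf

/-! RX-NRM: elementary facts on the `L²` norm `N2` (by transport to `Lp ℂ 2 μ`, or directly). -/

set_option autoImplicit false
open MeasureTheory Real Set Filter Topology
open scoped ComplexConjugate ENNReal

namespace Pool.Agent.Helper95.RX

variable {W : Type} [MeasurableSpace W] {μ : Measure W} [IsProbabilityMeasure μ] {g h : W → ℂ}

omit [IsProbabilityMeasure μ] in
lemma N2_nonneg (g : W → ℂ) : 0 ≤ N2 μ g := Real.sqrt_nonneg _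

omit [IsProbabilityMeasure μ] in
lemma N2_sq (g : W → ℂ) : N2 μ g ^ 2 = ∫ w, ‖g w‖ ^ 2 ∂μ :=
  Real.sq_sqrt (integral_nonneg fun w => sq_nonneg _)

lemma BM.memLp (hg : BM g) : MemLp g 2 μ := by
  obtain ⟨h1, C, hC⟩ := hg
  exact MemLp.of_bound h1.aestronglyMeasurable C (Filter.Eventually.of_forall hC)

lemma N2_eq (hg : BM g) : N2 μ g = (eLpNorm g 2 μ).toReal := by
  have h := hg.memLp (μ := μ)
  have h2 := h.eLpNorm_eq_integral_rpow_norm (by norm_num) (by norm_num)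
  rw [h2]
  rw [ENNReal.toReal_ofReal (by positivity)]
  unfold N2
  rw [Real.sqrt_eq_rpow]
  norm_num

lemma N2_add_le (hg : BM g) (hh : BM h) : N2 μ (fun w => g w + h w) ≤ N2 μ g + N2 μ h := by
  rw [N2_eq (hg.add hh), N2_eq hg, N2_eq hh]
  have h1 := eLpNorm_add_le (μ := μ) (p := 2) (hg.memLp (μ := μ)).aestronglyMeasurable
    (hh.memLp (μ := μ)).aestronglyMeasurable (by norm_num)
  rw [← ENNReal.toReal_add (hg.memLp (μ := μ)).eLpNorm_ne_top (hh.memLp (μ := μ)).eLpNorm_ne_top]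
  apply ENNReal.toReal_mono _ h1
  exact ENNReal.add_ne_top.2 ⟨(hg.memLp (μ := μ)).eLpNorm_ne_top, (hh.memLp (μ := μ)).eLpNorm_ne_top⟩

omit [IsProbabilityMeasure μ] in
lemma N2_smul (r : ℂ) (g : W → ℂ) : N2 μ (fun w => r * g w) = ‖r‖ * N2 μ g := by
  unfold N2
  have : ∀ w, ‖r * g w‖ ^ 2 = ‖r‖ ^ 2 * ‖g w‖ ^ 2 := fun w => by rw [norm_mul, mul_pow]
  simp_rw [this]
  rw [integral_const_mul, Real.sqrt_mul (sq_nonneg _), Real.sqrt_sq (norm_nonneg _)]

lemma N2_sub_le (hg : BM g) (hh : BM h) : N2 μ (fun w => g w - h w) ≤ N2 μ g + N2 μ h := by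
  have h1 := N2_add_le (μ := μ) hg (hh.smul (-1))
  rw [N2_smul] at h1
  simp only [norm_neg, norm_one, one_mul, neg_mul] at h1
  simpa [sub_eq_add_neg] using h1

omit [IsProbabilityMeasure μ] in
lemma N2_sub_comm (g h : W → ℂ) : N2 μ (fun w => g w - h w) = N2 μ (fun w => h w - g w) := by
  unfold N2
  simp_rw [norm_sub_rev]

lemma N2_tri {f : W → ℂ} (hf : BM f) (hg : BM g) (hh : BM h) :
    N2 μ (fun w => f w - h w) ≤ N2 μ (fun w => f w - g w) + N2 μ (fun w => g w - h w) := by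
  have h1 := N2_add_le (μ := μ) (hf.sub hg) (hg.sub hh)
  simpa using h1

lemma N2_mul_le (hg : BM g) {χ : W → ℂ} (hχ : BM χ) {C : ℝ} (hC : ∀ w, ‖χ w‖ ≤ C) :
    N2 μ (fun w => χ w * g w) ≤ C * N2 μ g := by
  have hne : Nonempty W := by
    by_contra hcon
    rw [not_nonempty_iff] at hcon
    have := measure_univ (μ := μ)
    rw [Set.univ_eq_empty_iff.2 hcon, measure_empty] at this
    exact zero_ne_one this
  obtain ⟨w0⟩ := hne
  have hC0 : 0 ≤ C := (norm_nonneg _).trans (hC w0)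
  unfold N2
  have h1 : C * Real.sqrt (∫ w, ‖g w‖ ^ 2 ∂μ) = Real.sqrt (∫ w, C ^ 2 * ‖g w‖ ^ 2 ∂μ) := by
    rw [integral_const_mul, Real.sqrt_mul (sq_nonneg _), Real.sqrt_sq hC0]
  rw [h1]
  apply Real.sqrt_le_sqrt
  apply integral_mono (hχ.mul hg).integrable_sq (hg.integrable_sq.const_mul _)
  intro w
  show ‖χ w * g w‖ ^ 2 ≤ C ^ 2 * ‖g w‖ ^ 2
  rw [norm_mul, mul_pow]
  gcongr
  exact hC w

lemma N2_comp {V : Type} [MeasurableSpace V] {ρ : Measure V} {φ : V → W}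
    (hφ : MeasurePreserving φ ρ μ) (hg : Measurable g) : N2 ρ (fun v => g (φ v)) = N2 μ g := by
  unfold N2
  congr 1
  have h1 : ∫ w, ‖g w‖ ^ 2 ∂μ = ∫ w, ‖g w‖ ^ 2 ∂(Measure.map φ ρ) := by rw [hφ.map_eq]
  rw [h1, integral_map hφ.measurable.aemeasurable (hg.norm.pow_const 2).aestronglyMeasurable]

/-- real `L²`: Cauchy–Schwarz for integrals of products of nonnegative square roots -/
lemma int_mul_le_sqrt {f k : W → ℝ} (hf : Measurable f) (hk : Measurable k)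
    (hf0 : ∀ w, 0 ≤ f w) (hk0 : ∀ w, 0 ≤ k w) (hf1 : ∃ C, ∀ w, f w ≤ C) (hk1 : ∃ C, ∀ w, k w ≤ C) :
    ∫ w, Real.sqrt (f w) * Real.sqrt (k w) ∂μ ≤
      Real.sqrt (∫ w, f w ∂μ) * Real.sqrt (∫ w, k w ∂μ) := by
  obtain ⟨C, hC⟩ := hf1
  obtain ⟨C', hC'⟩ := hk1
  have m1 : MemLp (fun w => Real.sqrt (f w)) (ENNReal.ofReal 2) μ := by
    refine MemLp.of_bound hf.sqrt.aestronglyMeasurable (Real.sqrt C)
      (Filter.Eventually.of_forall fun w => ?_)
    rw [Real.norm_eq_abs, abs_of_nonneg (Real.sqrt_nonneg _)]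
    exact Real.sqrt_le_sqrt (hC w)
  have m2 : MemLp (fun w => Real.sqrt (k w)) (ENNReal.ofReal 2) μ := by
    refine MemLp.of_bound hk.sqrt.aestronglyMeasurable (Real.sqrt C')
      (Filter.Eventually.of_forall fun w => ?_)
    rw [Real.norm_eq_abs, abs_of_nonneg (Real.sqrt_nonneg _)]
    exact Real.sqrt_le_sqrt (hC' w)
  have h1 := integral_mul_le_Lp_mul_Lq_of_nonneg (μ := μ) (p := 2) (q := 2)
    (Real.HolderConjugate.two_two) (Filter.Eventually.of_forall fun w => Real.sqrt_nonneg (f w))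
    (Filter.Eventually.of_forall fun w => Real.sqrt_nonneg (k w)) m1 m2
  have e1 : ∀ w, Real.sqrt (f w) ^ (2:ℝ) = f w := fun w => by
    rw [Real.rpow_two, Real.sq_sqrt (hf0 w)]
  have e2 : ∀ w, Real.sqrt (k w) ^ (2:ℝ) = k w := fun w => by
    rw [Real.rpow_two, Real.sq_sqrt (hk0 w)]
  simp only [e1, e2] at h1
  rw [Real.sqrt_eq_rpow, Real.sqrt_eq_rpow]
  exact h1

end Pool.Agent.Helper95.RX
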