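import Mathlib
import Pool.Agent.Helper95.RX.Nrm

/-! RX-IP: elementary facts on the inner product `IP`. -/

set_option autoImplicit false
open MeasureTheory Real Set Filter Topology
open scoped ComplexConjugate ENNReal

namespace Pool.Agent.Helper95.RX

variable {W : Type} [MeasurableSpace W] {μ : Measure W} [IsProbabilityMeasure μ] {g h : W → ℂ}

omit [IsProbabilityMeasure μ] in
lemma IP_comp {V : Type} [MeasurableSpace V] {ρ : Measure V} {φ : V → W}
    (hφ : MeasurePreserving φ ρ μ) (hg : Measurable g) (hh : Measurable h) :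
    IP ρ (fun v => g (φ v)) (fun v => h (φ v)) = IP μ g h := by
  unfold IP
  have h1 : ∫ w, g w * (starRingEnd ℂ) (h w) ∂μ =
      ∫ w, g w * (starRingEnd ℂ) (h w) ∂(Measure.map φ ρ) := by rw [hφ.map_eq]
  have hm : Measurable (fun w => g w * (starRingEnd ℂ) (h w)) :=
    hg.mul (Complex.continuous_conj.measurable.comp hh)
  rw [h1, integral_map hφ.measurable.aemeasurable hm.aestronglyMeasurable]

lemma IP_le (hg : BM g) (hh : BM h) : ‖IP μ g h‖ ≤ N2 μ g * N2 μ h := by
  unfold IP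
  refine (norm_integral_le_integral_norm _).trans ?_
  obtain ⟨g1, C, hC⟩ := hg
  obtain ⟨h1, C', hC'⟩ := hh
  have key := int_mul_le_sqrt (μ := μ) (f := fun w => ‖g w‖ ^ 2) (k := fun w => ‖h w‖ ^ 2)
    (g1.norm.pow_const 2) (h1.norm.pow_const 2) (fun w => sq_nonneg _) (fun w => sq_nonneg _)
    ⟨C ^ 2, fun w => pow_le_pow_left₀ (norm_nonneg _) (hC w) 2⟩
    ⟨C' ^ 2, fun w => pow_le_pow_left₀ (norm_nonneg _) (hC' w) 2⟩
  simp only [Real.sqrt_sq (norm_nonneg _)] at key
  have e : ∀ w, ‖g w * (starRingEnd ℂ) (h w)‖ = ‖g w‖ * ‖h w‖ := fun w => by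
    rw [norm_mul, RCLike.norm_conj]
  simp_rw [e]
  exact key

omit [IsProbabilityMeasure μ] in
lemma IP_self (g : W → ℂ) : IP μ g g = ((N2 μ g ^ 2 : ℝ) : ℂ) := by
  rw [N2_sq, ← integral_complex_ofReal]
  unfold IP
  apply integral_congr_ae
  filter_upwards with w
  rw [Complex.mul_conj, Complex.normSq_eq_norm_sq]

lemma IP_sub_left {f : W → ℂ} (hf : BM f) (hg : BM g) (hh : BM h) :
    IP μ (fun w => f w - g w) h = IP μ f h - IP μ g h := by
  unfold IP
  rw [← integral_sub (hf.mul hh.conj).integrable (hg.mul hh.conj).integrable]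
  apply integral_congr_ae
  filter_upwards with w
  ring

lemma IP_add_right {f : W → ℂ} (hf : BM f) (hg : BM g) (hh : BM h) :
    IP μ f (fun w => g w + h w) = IP μ f g + IP μ f h := by
  unfold IP
  rw [← integral_add (hf.mul hg.conj).integrable (hf.mul hh.conj).integrable]
  apply integral_congr_ae
  filter_upwards with w
  rw [map_add]
  ring

omit [IsProbabilityMeasure μ] in
lemma IP_smul_right (r : ℂ) (g h : W → ℂ) :
    IP μ g (fun w => r * h w) = (starRingEnd ℂ) r * IP μ g h := by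
  unfold IP
  rw [← integral_const_mul]
  apply integral_congr_ae
  filter_upwards with w
  rw [map_mul]
  ring

lemma IP_sum_right {ι : Type} (s : Finset ι) {u : ι → W → ℂ} (hg : BM g)
    (hu : ∀ i ∈ s, BM (u i)) : IP μ g (fun w => ∑ i ∈ s, u i w) = ∑ i ∈ s, IP μ g (u i) := by
  classical
  induction s using Finset.induction_on with
  | empty => simp [IP]
  | insert a s ha ih =>
    have h1 := hu a (Finset.mem_insert_self a s)
    have h2 := BM.sum s (fun i hi => hu i (Finset.mem_insert_of_mem hi))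
    have h3 := ih (fun i hi => hu i (Finset.mem_insert_of_mem hi))
    simp only [Finset.sum_insert ha]
    rw [IP_add_right hg h1 h2, h3]

omit [IsProbabilityMeasure μ] in
lemma IP_conj (g h : W → ℂ) : IP μ h g = (starRingEnd ℂ) (IP μ g h) := by
  unfold IP
  rw [← integral_conj]
  apply integral_congr_ae
  filter_upwards with w
  rw [map_mul, Complex.conj_conj]
  ring

/-- norm of a sum -/
lemma N2_sum_sq {ι : Type} (s : Finset ι) {u : ι → W → ℂ} (hu : ∀ i ∈ s, BM (u i)) :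
    N2 μ (fun w => ∑ i ∈ s, u i w) ^ 2 ≤ ∑ i ∈ s, ∑ j ∈ s, ‖IP μ (u i) (u j)‖ := by
  have hb := BM.sum s hu
  have h1 := IP_self (μ := μ) (fun w => ∑ i ∈ s, u i w)
  have h2 : N2 μ (fun w => ∑ i ∈ s, u i w) ^ 2 =
      ‖IP μ (fun w => ∑ i ∈ s, u i w) (fun w => ∑ i ∈ s, u i w)‖ := by
    rw [h1, Complex.norm_real, Real.norm_eq_abs, abs_of_nonneg (sq_nonneg _)]
  rw [h2, IP_sum_right s hb hu]
  have h3 : ∀ j ∈ s, ‖IP μ (fun w => ∑ i ∈ s, u i w) (u j)‖ ≤ ∑ i ∈ s, ‖IP μ (u i) (u j)‖ := by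
    intro j hj
    rw [IP_conj, RCLike.norm_conj, IP_sum_right s (hu j hj) hu]
    refine (norm_sum_le _ _).trans ?_
    apply Finset.sum_le_sum
    intro i hi
    rw [IP_conj, RCLike.norm_conj]
  calc ‖∑ j ∈ s, IP μ (fun w => ∑ i ∈ s, u i w) (u j)‖ ≤
        ∑ j ∈ s, ‖IP μ (fun w => ∑ i ∈ s, u i w) (u j)‖ := norm_sum_le _ _
    _ ≤ ∑ j ∈ s, ∑ i ∈ s, ‖IP μ (u i) (u j)‖ := Finset.sum_le_sum h3
    _ = _ := Finset.sum_comm

end Pool.Agent.Helper95.RX
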