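import Mathlib
import Pool.Agent.Helper95.RX.Ip

/-! RX-VAR: averaging operators: boundedness, the variance identity. -/

set_option autoImplicit false
open MeasureTheory Real Set Filter Topology
open scoped ComplexConjugate ENNReal

namespace Pool.Agent.Helper95.RX

variable {W : Type} [MeasurableSpace W] {μ : Measure W} [IsProbabilityMeasure μ]
  {F : ℝ → W → W} {ν : Measure ℝ} [IsProbabilityMeasure ν]

lemma BM_Qop (hF : Measurable (fun q : ℝ × W => F q.1 q.2)) {g : W → ℂ} (hg : BM g) :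
    BM (Qop F ν g) := by
  obtain ⟨h1, C, hC⟩ := hg
  refine ⟨?_, C, fun w => ?_⟩
  · have h2 : StronglyMeasurable (fun q : ℝ × W => g (F q.1 q.2)) :=
      (h1.comp hF).stronglyMeasurable
    exact (h2.integral_prod_left' (μ := ν)).measurable
  · unfold Qop
    have h3 := norm_integral_le_of_norm_le_const (μ := ν) (f := fun c => g (F c w)) (C := C)
      (Filter.Eventually.of_forall fun c => hC _)
    simpa using h3

omit [IsProbabilityMeasure μ] in
/-- explicit bound -/
lemma Qop_le {g : W → ℂ} {C : ℝ} (hC : ∀ w, ‖g w‖ ≤ C) (w : W) : ‖Qop F ν g w‖ ≤ C := by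
  unfold Qop
  have h3 := norm_integral_le_of_norm_le_const (μ := ν) (f := fun c => g (F c w)) (C := C)
    (Filter.Eventually.of_forall fun c => hC _)
  simpa using h3

omit [IsProbabilityMeasure μ] [IsProbabilityMeasure ν] in
lemma Qop_smul (r : ℂ) (g : W → ℂ) (w : W) : Qop F ν (fun w => r * g w) w = r * Qop F ν g w := by
  unfold Qop
  rw [integral_const_mul]

omit [IsProbabilityMeasure μ] in
private lemma int3 {f g h : W → ℝ} (hf : Integrable f μ) (hg : Integrable g μ)
    (hh : Integrable h μ) :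
    ∫ w, (f w - g w + h w) ∂μ = ∫ w, f w ∂μ - ∫ w, g w ∂μ + ∫ w, h w ∂μ := by
  have h1 := integral_add (hf.sub hg) hh
  have h2 := integral_sub hf hg
  simp only [Pi.sub_apply] at h1
  rw [h1, h2]

/-- the variance identity (Fubini; for each `w` the variance of `c ↦ g (F c w)`) -/
lemma var_id (hF : Measurable (fun q : ℝ × W => F q.1 q.2))
    (hFm : ∀ c, MeasurePreserving (F c) μ μ) {g : W → ℂ} (hg : BM g) :
    ∫ c, N2 μ (fun w => g (F c w) - Qop F ν g w) ^ 2 ∂ν = N2 μ g ^ 2 - N2 μ (Qop F ν g) ^ 2 := by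
  have hQ : BM (Qop F ν g) := BM_Qop hF hg
  have hFc : ∀ c, BM (fun w => g (F c w)) := fun c => BM.comp (hFm c).measurable hg
  have hG : BM (fun q : ℝ × W => g (F q.1 q.2)) := BM.comp hF hg
  have hH : BM (fun q : ℝ × W => g (F q.1 q.2) * (starRingEnd ℂ) (Qop F ν g q.2)) :=
    hG.mul (BM.comp (φ := fun q : ℝ × W => q.2)
      (g := fun w => (starRingEnd ℂ) (Qop F ν g w)) measurable_snd hQ.conj)
  have e1 : ∀ c, N2 μ (fun w => g (F c w) - Qop F ν g w) ^ 2 =
      N2 μ g ^ 2 - 2 * (IP μ (fun w => g (F c w)) (Qop F ν g)).re + N2 μ (Qop F ν g) ^ 2 := by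
    intro c
    have e2 : N2 μ g ^ 2 = N2 μ (fun w => g (F c w)) ^ 2 := by rw [N2_comp (hFm c) hg.1]
    rw [e2, N2_sq, N2_sq, N2_sq]
    have e3 : ∀ w, ‖g (F c w) - Qop F ν g w‖ ^ 2 = ‖g (F c w)‖ ^ 2 -
        2 * (g (F c w) * (starRingEnd ℂ) (Qop F ν g w)).re + ‖Qop F ν g w‖ ^ 2 := by
      intro w
      rw [← Complex.normSq_eq_norm_sq, ← Complex.normSq_eq_norm_sq, ← Complex.normSq_eq_norm_sq,
        Complex.normSq_sub]
      ring
    simp_rw [e3]
    have i1 := (hFc c).integrable_sq (μ := μ)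
    have i2 : Integrable (fun w => 2 * (g (F c w) * (starRingEnd ℂ) (Qop F ν g w)).re) μ :=
      (((hFc c).mul hQ.conj).integrable (μ := μ)).re.const_mul 2
    have i3 := hQ.integrable_sq (μ := μ)
    rw [int3 i1 i2 i3, integral_const_mul]
    unfold IP
    have e4 := integral_re (𝕜 := ℂ) (((hFc c).mul hQ.conj).integrable (μ := μ))
    simp only [RCLike.re_to_complex] at e4
    rw [e4]
  simp_rw [e1]
  have hIPm : Integrable (fun c => IP μ (fun w => g (F c w)) (Qop F ν g)) ν := by
    have h1 : Integrable (fun q : ℝ × W => g (F q.1 q.2) * (starRingEnd ℂ) (Qop F ν g q.2))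
      (ν.prod μ) := hH.integrable
    exact h1.integral_prod_left
  have e5 : ∫ c, IP μ (fun w => g (F c w)) (Qop F ν g) ∂ν = ((N2 μ (Qop F ν g) ^ 2 : ℝ) : ℂ) := by
    unfold IP
    rw [integral_integral_swap]
    · rw [← IP_self]
      unfold IP
      apply integral_congr_ae
      filter_upwards with w
      rw [integral_mul_const]
      rfl
    · exact hH.integrable
  have i4 : Integrable (fun c => 2 * (IP μ (fun w => g (F c w)) (Qop F ν g)).re) ν :=
    hIPm.re.const_mul 2
  rw [int3 (integrable_const _) i4 (integrable_const _), integral_const_mul]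
  have e6 := integral_re (𝕜 := ℂ) hIPm
  simp only [RCLike.re_to_complex] at e6
  rw [e6, e5]
  simp only [integral_const, probReal_univ, smul_eq_mul, one_mul, Complex.ofReal_re]
  ring

lemma N2_Qop_le (hF : Measurable (fun q : ℝ × W => F q.1 q.2))
    (hFm : ∀ c, MeasurePreserving (F c) μ μ) {g : W → ℂ} (hg : BM g) :
    N2 μ (Qop F ν g) ≤ N2 μ g := by
  have h1 := var_id (μ := μ) (ν := ν) hF hFm hg
  have h2 : 0 ≤ ∫ c, N2 μ (fun w => g (F c w) - Qop F ν g w) ^ 2 ∂ν :=
    integral_nonneg fun c => sq_nonneg _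
  have h3 : N2 μ (Qop F ν g) ^ 2 ≤ N2 μ g ^ 2 := by linarith
  exact (pow_le_pow_iff_left₀ (N2_nonneg _) (N2_nonneg _) (by norm_num)).1 h3

end Pool.Agent.Helper95.RX
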