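import Mathlib
import Pool.Agent.Helper95.RX.Var

/-! RX-SEL: the selection of two kicks. -/

set_option autoImplicit false
open MeasureTheory Real Set Filter Topology
open scoped ComplexConjugate ENNReal

namespace Pool.Agent.Helper95.RX

variable {W : Type} [MeasurableSpace W] {μ : Measure W} [IsProbabilityMeasure μ]
  {F : ℝ → W → W} {ν : Measure ℝ} [IsProbabilityMeasure ν]

/-- two good kicks which are apart: Markov inequality and a union bound -/
lemma select (hF : Measurable (fun q : ℝ × W => F q.1 q.2))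
    (hFm : ∀ c, MeasurePreserving (F c) μ μ) {g : W → ℂ} (hg : BM g) {s q e η : ℝ}
    (he : 0 < e) (hsp : Spread s q ν) (hη : N2 μ g ^ 2 - N2 μ (Qop F ν g) ^ 2 ≤ η)
    (hq : 2 * η < q * e ^ 2) :
    ∃ c c' : ℝ, s ≤ |Real.sin (2 * π * (c' - c))| ∧
      N2 μ (fun w => g (F c w) - Qop F ν g w) ≤ e ∧
      N2 μ (fun w => g (F c' w) - Qop F ν g w) ≤ e := by
  have hQ : BM (Qop F ν g) := BM_Qop hF hg
  obtain ⟨C, hC⟩ := hg.2
  obtain ⟨C', hC'⟩ := hQ.2
  set f : ℝ → ℝ := fun c => N2 μ (fun w => g (F c w) - Qop F ν g w) ^ 2 with hf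
  have hfe : ∀ c, f c = ∫ w, ‖g (F c w) - Qop F ν g w‖ ^ 2 ∂μ := fun c =>
    Real.sq_sqrt (integral_nonneg fun w => by positivity)
  have hG : Measurable (fun p : ℝ × W => ‖g (F p.1 p.2) - Qop F ν g p.2‖ ^ 2) :=
    (((hg.1.comp hF).sub (hQ.1.comp measurable_snd)).norm).pow_const 2
  have hfm : Measurable f := by
    have h1 : StronglyMeasurable (fun c => ∫ w, ‖g (F c w) - Qop F ν g w‖ ^ 2 ∂μ) :=
      StronglyMeasurable.integral_prod_right' (f := fun p : ℝ × W =>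
        ‖g (F p.1 p.2) - Qop F ν g p.2‖ ^ 2) hG.stronglyMeasurable
    have h2 : f = fun c => ∫ w, ‖g (F c w) - Qop F ν g w‖ ^ 2 ∂μ := funext hfe
    rw [h2]
    exact h1.measurable
  have hf0 : ∀ c, 0 ≤ f c := fun c => sq_nonneg _
  have hfb : ∀ c, f c ≤ (C + C') ^ 2 := by
    intro c
    rw [hfe]
    have h1 : ∀ w, ‖g (F c w) - Qop F ν g w‖ ^ 2 ≤ (C + C') ^ 2 := fun w =>
      pow_le_pow_left₀ (norm_nonneg _) ((norm_sub_le _ _).trans (add_le_add (hC _) (hC' _))) 2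
    calc ∫ w, ‖g (F c w) - Qop F ν g w‖ ^ 2 ∂μ ≤ ∫ _w, (C + C') ^ 2 ∂μ := by
          apply integral_mono_of_nonneg (ae_of_all _ fun w => by positivity) (integrable_const _)
            (ae_of_all _ h1)
      _ = (C + C') ^ 2 := by simp
  have hfi : Integrable f ν := by
    refine Integrable.of_bound hfm.aestronglyMeasurable ((C + C') ^ 2) (ae_of_all _ fun c => ?_)
    rw [Real.norm_of_nonneg (hf0 c)]
    exact hfb c
  have hint : ∫ c, f c ∂ν ≤ η := (var_id hF hFm hg).le.trans hη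
  set B : Set ℝ := {c | e ^ 2 ≤ f c} with hB
  have hBm : MeasurableSet B := measurableSet_le measurable_const hfm
  have he2 : 0 < e ^ 2 := by positivity
  have hmarkov : e ^ 2 * ν.real B ≤ ∫ c, f c ∂ν :=
    mul_meas_ge_le_integral_of_nonneg (ae_of_all _ hf0) hfi (e ^ 2)
  have hνB : ν.real B ≤ η / e ^ 2 := by
    rw [le_div_iff₀ he2]
    linarith
  set S : Set (ℝ × ℝ) := {t : ℝ × ℝ | s ≤ |Real.sin (2 * π * (t.1 - t.2))|} with hS
  have hun : (ν.prod ν).real (B ×ˢ univ ∪ univ ×ˢ B) ≤ 2 * (η / e ^ 2) := by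
    refine (measureReal_union_le _ _).trans ?_
    rw [measureReal_prod_prod, measureReal_prod_prod]
    simp only [probReal_univ, mul_one, one_mul]
    linarith
  have hlt : (ν.prod ν).real (B ×ˢ univ ∪ univ ×ˢ B) < (ν.prod ν).real S := by
    refine lt_of_le_of_lt hun (lt_of_lt_of_le ?_ hsp)
    rw [← mul_div_assoc, div_lt_iff₀ he2]
    exact hq
  obtain ⟨t, htS, ht⟩ : ∃ t ∈ S, t ∉ B ×ˢ univ ∪ univ ×ˢ B := by
    by_contra hcon
    push Not at hcon
    exact absurd (measureReal_mono (μ := ν.prod ν) (fun t ht => hcon t ht)) (not_le.2 hlt)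
  have hB1 : t.1 ∉ B := fun h => ht (Or.inl ⟨h, mem_univ _⟩)
  have hB2 : t.2 ∉ B := fun h => ht (Or.inr ⟨mem_univ _, h⟩)
  have hN : ∀ c, c ∉ B → N2 μ (fun w => g (F c w) - Qop F ν g w) ≤ e := by
    intro c hc
    have h1 : f c < e ^ 2 := not_le.1 hc
    exact (lt_of_pow_lt_pow_left₀ 2 he.le h1).le
  exact ⟨t.2, t.1, htS, hN _ hB2, hN _ hB1⟩

end Pool.Agent.Helper95.RX
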