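import Mathlib
import Pool.Agent.Helper95.RX.Ip

/-! RX-TP: trigonometric polynomials in the first factor. -/

set_option autoImplicit false
open MeasureTheory Real Set Filter Topology
open scoped ComplexConjugate ENNReal

namespace Pool.Agent.Helper95.RX

attribute [local instance] Pool.Agent.Helper53.SM.instProbU Pool.Agent.Helper53.SM.instProbT2

variable {Z : Type} [MeasurableSpace Z] {μ : Measure Z} [IsProbabilityMeasure μ]

private lemma BM_four56 (ξ : ℤ × ℤ) :
    BM (fun w : T2 × Z => fourier ξ.1 w.1.1 * fourier ξ.2 w.1.2) := by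
  refine ⟨?_, 1, ?_⟩
  · have h1 : Continuous (fun x : UnitAddCircle => (fourier ξ.1 x : ℂ)) := (fourier ξ.1).continuous
    have h2 : Continuous (fun x : UnitAddCircle => (fourier ξ.2 x : ℂ)) := (fourier ξ.2).continuous
    exact (h1.measurable.comp (measurable_fst.comp measurable_fst)).mul
      (h2.measurable.comp (measurable_snd.comp measurable_fst))
  · intro w
    rw [norm_mul, fourier_apply, fourier_apply, Circle.norm_coe, Circle.norm_coe, one_mul]

private lemma BM_term56 {ξ : ℤ × ℤ} {c : ℤ × ℤ → Z → ℂ} (hc : BM (c ξ)) :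
    BM (fun w : T2 × Z => c ξ w.2 * (fourier ξ.1 w.1.1 * fourier ξ.2 w.1.2)) :=
  (hc.comp (V := T2 × Z) (φ := fun w => w.2) measurable_snd).mul (BM_four56 ξ)

lemma BM_tp (S : Finset (ℤ × ℤ)) {c : ℤ × ℤ → Z → ℂ} (hc : ∀ ξ ∈ S, BM (c ξ)) : BM (tp S c) := by
  have h := BM.sum S (u := fun ξ => fun w : T2 × Z =>
    c ξ w.2 * (fourier ξ.1 w.1.1 * fourier ξ.2 w.1.2)) (fun ξ hξ => BM_term56 (hc ξ hξ))
  exact h

lemma ns_nonneg (S : Finset (ℤ × ℤ)) (c : ℤ × ℤ → Z → ℂ) : 0 ≤ ns μ S c := by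
  unfold ns
  exact Finset.sum_nonneg fun ξ _ => integral_nonneg fun z => sq_nonneg _

private lemma int_four56 (n : ℤ) :
    ∫ x : UnitAddCircle, (fourier n x : ℂ) = if n = 0 then 1 else 0 := by
  have h1 : (volume : Measure UnitAddCircle) = AddCircle.haarAddCircle := by
    rw [AddCircle.volume_eq_smul_haarAddCircle]
    simp
  have h2 := congrFun (fourierCoeff_fourier (T := 1) n) 0
  unfold fourierCoeff at h2
  simp only [neg_zero, fourier_zero, one_smul] at h2
  rw [h1, h2]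
  by_cases hn : n = 0
  · subst hn
    simp
  · rw [if_neg hn, Pi.single_eq_of_ne (Ne.symm hn)]

private lemma ip_term56 {ξ η : ℤ × ℤ} (c : ℤ × ℤ → Z → ℂ) :
    IP ((volume : Measure T2).prod μ)
      (fun w : T2 × Z => c ξ w.2 * (fourier ξ.1 w.1.1 * fourier ξ.2 w.1.2))
      (fun w : T2 × Z => c η w.2 * (fourier η.1 w.1.1 * fourier η.2 w.1.2)) =
      if ξ = η then ((∫ z, ‖c ξ z‖ ^ 2 ∂μ : ℝ) : ℂ) else 0 := by
  unfold IP
  have h1 : ∀ w : T2 × Z, c ξ w.2 * (fourier ξ.1 w.1.1 * fourier ξ.2 w.1.2) *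
      conj (c η w.2 * (fourier η.1 w.1.1 * fourier η.2 w.1.2)) =
      (fourier (ξ.1 - η.1) w.1.1 * fourier (ξ.2 - η.2) w.1.2) * (c ξ w.2 * conj (c η w.2)) := by
    intro w
    rw [sub_eq_add_neg, sub_eq_add_neg, fourier_add, fourier_add, fourier_neg, fourier_neg,
      map_mul, map_mul]
    ring
  simp_rw [h1]
  rw [integral_prod_mul (fun p : T2 => (fourier (ξ.1 - η.1) p.1 * fourier (ξ.2 - η.2) p.2 : ℂ))
    (fun z : Z => c ξ z * conj (c η z))]
  have h2 : ∫ p : T2, (fourier (ξ.1 - η.1) p.1 * fourier (ξ.2 - η.2) p.2 : ℂ) =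
      (∫ x : UnitAddCircle, (fourier (ξ.1 - η.1) x : ℂ)) *
        ∫ x : UnitAddCircle, (fourier (ξ.2 - η.2) x : ℂ) :=
    integral_prod_mul (fun x : UnitAddCircle => (fourier (ξ.1 - η.1) x : ℂ))
      (fun x : UnitAddCircle => (fourier (ξ.2 - η.2) x : ℂ))
  rw [h2, int_four56, int_four56]
  by_cases h : ξ = η
  · subst h
    simp only [sub_self, if_true, one_mul]
    rw [← integral_complex_ofReal]
    congr 1
    funext z
    rw [Complex.mul_conj, Complex.normSq_eq_norm_sq]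
  · rw [if_neg h]
    have h3 : ξ.1 - η.1 ≠ 0 ∨ ξ.2 - η.2 ≠ 0 := by
      by_contra hcon
      push Not at hcon
      exact h (Prod.ext (sub_eq_zero.1 hcon.1) (sub_eq_zero.1 hcon.2))
    rcases h3 with h3 | h3
    · rw [if_neg h3]; simp
    · rw [if_neg h3]; simp

/-- orthonormality of the characters of `T2` -/
lemma N2_tp (S : Finset (ℤ × ℤ)) {c : ℤ × ℤ → Z → ℂ} (hc : ∀ ξ ∈ S, BM (c ξ)) :
    N2 ((volume : Measure T2).prod μ) (tp S c) ^ 2 = ns μ S c := by
  have hB : BM (tp S c) := BM_tp S hc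
  have h1 := IP_self (μ := (volume : Measure T2).prod μ) (tp S c)
  have h2 : IP ((volume : Measure T2).prod μ) (tp S c) (tp S c) = ((ns μ S c : ℝ) : ℂ) := by
    have h3 := IP_sum_right (μ := (volume : Measure T2).prod μ) S (g := tp S c)
      (u := fun ξ => fun w : T2 × Z => c ξ w.2 * (fourier ξ.1 w.1.1 * fourier ξ.2 w.1.2)) hB
      (fun ξ hξ => BM_term56 (hc ξ hξ))
    have h4 : (fun w : T2 × Z => ∑ ξ ∈ S, c ξ w.2 * (fourier ξ.1 w.1.1 * fourier ξ.2 w.1.2)) =
      tp S c := rfl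
    rw [h4] at h3
    rw [h3]
    have h5 : ∀ η ∈ S, IP ((volume : Measure T2).prod μ) (tp S c)
        (fun w : T2 × Z => c η w.2 * (fourier η.1 w.1.1 * fourier η.2 w.1.2)) =
        ((∫ z, ‖c η z‖ ^ 2 ∂μ : ℝ) : ℂ) := by
      intro η hη
      rw [IP_conj]
      have h6 := IP_sum_right (μ := (volume : Measure T2).prod μ) S
        (g := fun w : T2 × Z => c η w.2 * (fourier η.1 w.1.1 * fourier η.2 w.1.2))
        (u := fun ξ => fun w : T2 × Z => c ξ w.2 * (fourier ξ.1 w.1.1 * fourier ξ.2 w.1.2))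
        (BM_term56 (hc η hη)) (fun ξ hξ => BM_term56 (hc ξ hξ))
      rw [h4] at h6
      rw [h6]
      simp_rw [ip_term56]
      rw [Finset.sum_ite_eq]
      rw [if_pos hη, Complex.conj_ofReal]
    rw [Finset.sum_congr rfl h5]
    unfold ns
    push_cast
    rfl
  rw [h2] at h1
  exact_mod_cast h1.symm

end Pool.Agent.Helper95.RX
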