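import Mathlib
import Pool.Agent.Helper95.RX.Tp

/-! RX-CF: Fourier coefficients in the first factor. -/

set_option autoImplicit false
open MeasureTheory Real Set Filter Topology
open scoped ComplexConjugate ENNReal

namespace Pool.Agent.Helper95.RX

attribute [local instance] Pool.Agent.Helper53.SM.instProbU Pool.Agent.Helper53.SM.instProbT2

variable {Z : Type} [MeasurableSpace Z] {μ : Measure Z} [IsProbabilityMeasure μ]

/-- Fourier coefficients in the first factor -/
noncomputable def cf {Z : Type} (g : T2 × Z → ℂ) (ξ : ℤ × ℤ) (z : Z) : ℂ :=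
  ∫ p : T2, g (p, z) * (starRingEnd ℂ) (fourier ξ.1 p.1 * fourier ξ.2 p.2)

/-- the characters are bounded and measurable -/
lemma BM_char (ξ : ℤ × ℤ) : BM (fun p : T2 => (fourier ξ.1 p.1 : ℂ) * fourier ξ.2 p.2) := by
  refine ⟨(((fourier ξ.1).continuous.comp continuous_fst).mul
    ((fourier ξ.2).continuous.comp continuous_snd)).measurable, 1, fun p => ?_⟩
  rw [norm_mul, fourier_apply, fourier_apply, Circle.norm_coe, Circle.norm_coe, one_mul]

omit [IsProbabilityMeasure μ] in
lemma BM_cf {g : T2 × Z → ℂ} (hg : BM g) (ξ : ℤ × ℤ) : BM (cf g ξ) := by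
  have h2 := (BM_char ξ).conj
  have h3 : BM (fun w : T2 × Z => g w * (starRingEnd ℂ) (fourier ξ.1 w.1.1 * fourier ξ.2 w.1.2)) :=
    hg.mul (BM.comp (g := fun p : T2 => (starRingEnd ℂ) (fourier ξ.1 p.1 * fourier ξ.2 p.2))
      measurable_fst h2)
  obtain ⟨m, C, hC⟩ := h3
  refine ⟨?_, C, fun z => ?_⟩
  · have h4 : StronglyMeasurable (fun z : Z => ∫ p : T2,
        g (p, z) * (starRingEnd ℂ) (fourier ξ.1 p.1 * fourier ξ.2 p.2)) := by
      apply StronglyMeasurable.integral_prod_left' (f := fun w : T2 × Z =>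
        g w * (starRingEnd ℂ) (fourier ξ.1 w.1.1 * fourier ξ.2 w.1.2))
      exact m.stronglyMeasurable
    exact h4.measurable
  · unfold cf
    refine (norm_integral_le_of_norm_le_const (Filter.Eventually.of_forall fun p => hC (p, z))).trans ?_
    simp

lemma IP_cf {g : T2 × Z → ℂ} (hg : BM g) (S : Finset (ℤ × ℤ)) :
    IP ((volume : Measure T2).prod μ) g (tp S (cf g)) = ((ns μ S (cf g) : ℝ) : ℂ) := by
  have hu : ∀ ξ ∈ S, BM (fun w : T2 × Z => cf g ξ w.2 * (fourier ξ.1 w.1.1 * fourier ξ.2 w.1.2)) :=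
    fun ξ _ => (BM.comp measurable_snd (BM_cf hg ξ)).mul
      (BM.comp (g := fun p : T2 => (fourier ξ.1 p.1 : ℂ) * fourier ξ.2 p.2) measurable_fst (BM_char ξ))
  have h1 : IP ((volume : Measure T2).prod μ) g (tp S (cf g)) =
      ∑ ξ ∈ S, IP ((volume : Measure T2).prod μ) g
        (fun w : T2 × Z => cf g ξ w.2 * (fourier ξ.1 w.1.1 * fourier ξ.2 w.1.2)) :=
    IP_sum_right S hg hu
  rw [h1]
  unfold ns
  rw [Complex.ofReal_sum]
  apply Finset.sum_congr rfl
  intro ξ hξ
  unfold IP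
  have hi := (hg.mul (hu ξ hξ).conj).integrable (μ := (volume : Measure T2).prod μ)
  rw [integral_prod_symm _ hi, ← integral_complex_ofReal]
  apply integral_congr_ae
  filter_upwards with z
  have e : ∀ p : T2, g (p, z) * (starRingEnd ℂ) (cf g ξ z * (fourier ξ.1 p.1 * fourier ξ.2 p.2)) =
      (g (p, z) * (starRingEnd ℂ) (fourier ξ.1 p.1 * fourier ξ.2 p.2)) * (starRingEnd ℂ) (cf g ξ z) := by
    intro p
    rw [map_mul]
    ring
  simp_rw [e]
  rw [integral_mul_const]
  show cf g ξ z * (starRingEnd ℂ) (cf g ξ z) = _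
  rw [Complex.mul_conj, Complex.normSq_eq_norm_sq]

end Pool.Agent.Helper95.RX
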