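import Mathlib
import Pool.Agent.Helper95.RX.Defs

/-! RX-PARS: Parseval on the torus. -/

set_option autoImplicit false
open MeasureTheory Real Set Filter Topology
open scoped ComplexConjugate ENNReal

namespace Pool.Agent.Helper95.RX

attribute [local instance] Pool.Agent.Helper53.SM.instProbU Pool.Agent.Helper53.SM.instProbT2

private lemma hvol53 : (volume : Measure UnitAddCircle) = AddCircle.haarAddCircle := by
  have h := AddCircle.volume_eq_smul_haarAddCircle (T := (1 : ℝ))
  rw [ENNReal.ofReal_one, one_smul] at h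
  exact h

private lemma pars53 {F : UnitAddTorus (Fin 2) → ℂ} (hF : Measurable F) {C : ℝ} (hC : ∀ t, ‖F t‖ ≤ C) :
    HasSum (fun n : Fin 2 → ℤ => ‖∫ t, UnitAddTorus.mFourier (-n) t • F t ∂(Measure.pi fun _ : Fin 2 => (AddCircle.haarAddCircle : Measure UnitAddCircle))‖ ^ 2)
      (∫ t, ‖F t‖ ^ 2 ∂(Measure.pi fun _ : Fin 2 => (AddCircle.haarAddCircle : Measure UnitAddCircle))) := by
  have hF2 : MemLp F 2 (Measure.pi fun _ : Fin 2 => (AddCircle.haarAddCircle : Measure UnitAddCircle)) :=
    MemLp.of_bound hF.aestronglyMeasurable C (ae_of_all _ hC)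
  have h := UnitAddTorus.hasSum_sq_mFourierCoeff (hF2.toLp F)
  have hae := hF2.coeFn_toLp
  have e1 : (∫ t, ‖F t‖ ^ 2 ∂(Measure.pi fun _ : Fin 2 => (AddCircle.haarAddCircle : Measure UnitAddCircle))) =
      ∫ t, ‖(hF2.toLp F) t‖ ^ 2 ∂(Measure.pi fun _ : Fin 2 => (AddCircle.haarAddCircle : Measure UnitAddCircle)) := by
    refine integral_congr_ae ?_
    filter_upwards [hae] with t ht
    rw [ht]
  rw [e1]
  refine h.congr_fun fun n => ?_
  have e2 : UnitAddTorus.mFourierCoeff (hF2.toLp F) n =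
      ∫ t, UnitAddTorus.mFourier (-n) t • F t ∂(Measure.pi fun _ : Fin 2 => (AddCircle.haarAddCircle : Measure UnitAddCircle)) := by
    refine integral_congr_ae ?_
    filter_upwards [hae] with t ht
    rw [ht]
  rw [e2]

/-- Parseval on the torus, for bounded measurable functions (from
`UnitAddTorus.hasSum_sq_mFourierCoeff` with `Fin 2`, and `MeasurableEquiv.finTwoArrow`) -/
lemma parseval_T2 {f : T2 → ℂ} (hf : BM f) :
    HasSum (fun ξ : ℤ × ℤ => ‖∫ p : T2, f p * (starRingEnd ℂ) (fourier ξ.1 p.1 * fourier ξ.2 p.2)‖ ^ 2)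
      (∫ p : T2, ‖f p‖ ^ 2) := by
  obtain ⟨hm, C, hC⟩ := hf
  have hmp := measurePreserving_finTwoArrow (AddCircle.haarAddCircle : Measure UnitAddCircle)
  have hvol2 : (volume : Measure T2) = (AddCircle.haarAddCircle : Measure UnitAddCircle).prod AddCircle.haarAddCircle := by
    show (volume : Measure UnitAddCircle).prod volume = _
    rw [hvol53]
  have h := pars53 (F := fun t : UnitAddTorus (Fin 2) => f (MeasurableEquiv.finTwoArrow t))
    (hm.comp MeasurableEquiv.finTwoArrow.measurable) (C := C) (fun t => hC _)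
  rw [← (finTwoArrowEquiv ℤ).hasSum_iff, hvol2, ← hmp.integral_comp']
  refine h.congr_fun fun n => ?_
  show ‖∫ p : T2, f p * (starRingEnd ℂ) (fourier (n 0) p.1 * fourier (n 1) p.2) ∂((AddCircle.haarAddCircle : Measure UnitAddCircle).prod AddCircle.haarAddCircle)‖ ^ 2 = _
  rw [← hmp.integral_comp']
  congr 3
  funext t
  rw [UnitAddTorus.mFourier_neg]
  show f (MeasurableEquiv.finTwoArrow t) * (starRingEnd ℂ) (fourier (n 0) (t 0) * fourier (n 1) (t 1)) =
    (starRingEnd ℂ) (∏ i : Fin 2, fourier (n i) (t i)) * f (MeasurableEquiv.finTwoArrow t)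
  rw [Fin.prod_univ_two, mul_comm]

end Pool.Agent.Helper95.RX
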