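import Mathlib
import Pool.Agent.Helper95.RX.Coef
import Pool.Agent.Helper95.RX.Pars

/-! RX-COMB: Parseval with a parameter, combination of the two cones. -/

set_option autoImplicit false
open MeasureTheory Real Set Filter Topology
open scoped ComplexConjugate ENNReal

namespace Pool.Agent.Helper95.RX

attribute [local instance] Pool.Agent.Helper53.SM.instProbU Pool.Agent.Helper53.SM.instProbT2

variable {Z : Type} [MeasurableSpace Z] {μ : Measure Z} [IsProbabilityMeasure μ]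

/-- Parseval with a parameter, as an upper bound (monotone convergence) -/
lemma parseval_le {g : T2 × Z → ℂ} (hg : BM g) {B : ℝ}
    (hB : ∀ S : Finset (ℤ × ℤ), ns μ S (cf g) ≤ B) :
    N2 ((volume : Measure T2).prod μ) g ^ 2 ≤ B := by
  have hint : Integrable (fun w => ‖g w‖ ^ 2) ((volume : Measure T2).prod μ) := hg.integrable_sq
  have hN : N2 ((volume : Measure T2).prod μ) g ^ 2 = ∫ z, (∫ p : T2, ‖g (p, z)‖ ^ 2) ∂μ := by
    unfold N2
    rw [Real.sq_sqrt (integral_nonneg fun w => by positivity), integral_prod_symm _ hint]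
  have hlim : ∀ z, HasSum (fun ξ : ℤ × ℤ => ‖cf g ξ z‖ ^ 2) (∫ p : T2, ‖g (p, z)‖ ^ 2) := by
    intro z
    have hz : BM (fun p : T2 => g (p, z)) := hg.comp (measurable_id.prodMk measurable_const)
    exact parseval_T2 hz
  have hint2 : Integrable (fun z => ∫ p : T2, ‖g (p, z)‖ ^ 2) μ := hint.integral_prod_right
  have hsum : HasSum (fun ξ : ℤ × ℤ => ∫ z, ‖cf g ξ z‖ ^ 2 ∂μ)
      (∫ z, (∫ p : T2, ‖g (p, z)‖ ^ 2) ∂μ) := by
    refine hasSum_integral_of_dominated_convergence (fun ξ z => ‖cf g ξ z‖ ^ 2) ?_ ?_ ?_ ?_ ?_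
    · intro ξ
      exact ((BM_cf hg ξ).1.norm.pow_const 2).aestronglyMeasurable
    · intro ξ
      refine Filter.Eventually.of_forall fun z => ?_
      rw [Real.norm_of_nonneg (by positivity)]
    · exact Filter.Eventually.of_forall fun z => (hlim z).summable
    · refine hint2.congr (Filter.Eventually.of_forall fun z => ?_)
      exact (hlim z).tsum_eq.symm
    · exact Filter.Eventually.of_forall fun z => hlim z
  rw [hN]
  exact hasSum_le_of_sum_le hsum hB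

private lemma h24_root {n R : ℝ} (hn : 0 ≤ n) (h : n ≤ R * Real.sqrt n) : n ≤ R ^ 2 := by
  rcases hn.eq_or_lt with h0 | h0
  · rw [← h0]
    positivity
  · have hs : 0 < Real.sqrt n := Real.sqrt_pos.2 h0
    have h1 : Real.sqrt n * Real.sqrt n = n := Real.mul_self_sqrt hn
    have h2 : Real.sqrt n ≤ R := by
      have h3 : Real.sqrt n * Real.sqrt n ≤ R * Real.sqrt n := by rw [h1]; exact h
      exact le_of_mul_le_mul_right h3 hs
    nlinarith

private lemma h24_part {g : T2 × Z → ℂ} (hg : BM g) {R : ℝ} {S : Finset (ℤ × ℤ)}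
    (h : ‖IP ((volume : Measure T2).prod μ) g (tp S (cf g))‖ ≤ R * Real.sqrt (ns μ S (cf g))) :
    ns μ S (cf g) ≤ R ^ 2 := by
  have hn : 0 ≤ ns μ S (cf g) := ns_nonneg S (cf g)
  rw [IP_cf hg, Complex.norm_real, Real.norm_of_nonneg hn] at h
  exact h24_root hn h

/-- the two cones `{k ≠ 0, |l| ≤ |k|}` and `{|k| < |l|}` cover the nonzero frequencies; the
coefficient at `(0,0)` vanishes. With `w = tp (S ∩ cone) (cf g)`: `ns = |⟨g, w⟩| ≤ R √ns`. -/
lemma comb {g : T2 × Z → ℂ} (hg : BM g) (hmean : ∀ z, ∫ p : T2, g (p, z) = 0) {R : ℝ} (hR : 0 ≤ R)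
    (h1 : ∀ (S : Finset (ℤ × ℤ)) (c : ℤ × ℤ → Z → ℂ), (∀ ξ ∈ S, ξ.1 ≠ 0 ∧ |ξ.2| ≤ |ξ.1|) →
      (∀ ξ, BM (c ξ)) →
      ‖IP ((volume : Measure T2).prod μ) g (tp S c)‖ ≤ R * Real.sqrt (ns μ S c))
    (h2 : ∀ (S : Finset (ℤ × ℤ)) (c : ℤ × ℤ → Z → ℂ), (∀ ξ ∈ S, ξ.2 ≠ 0 ∧ |ξ.1| ≤ |ξ.2|) →
      (∀ ξ, BM (c ξ)) →
      ‖IP ((volume : Measure T2).prod μ) g (tp S c)‖ ≤ R * Real.sqrt (ns μ S c)) :
    N2 ((volume : Measure T2).prod μ) g ^ 2 ≤ 2 * R ^ 2 := by
  refine parseval_le hg fun S => ?_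
  have hc : ∀ ξ, BM (cf g ξ) := fun ξ => BM_cf hg ξ
  set S1 := S.filter (fun ξ : ℤ × ℤ => ξ.1 ≠ 0 ∧ |ξ.2| ≤ |ξ.1|) with hS1
  set S2 := S.filter (fun ξ : ℤ × ℤ => ¬(ξ.1 ≠ 0 ∧ |ξ.2| ≤ |ξ.1|)) with hS2
  set S3 := S2.filter (fun ξ : ℤ × ℤ => ξ.2 ≠ 0 ∧ |ξ.1| ≤ |ξ.2|) with hS3
  set S4 := S2.filter (fun ξ : ℤ × ℤ => ¬(ξ.2 ≠ 0 ∧ |ξ.1| ≤ |ξ.2|)) with hS4
  have e1 : ns μ S (cf g) = ns μ S1 (cf g) + ns μ S2 (cf g) := by
    unfold ns
    exact (Finset.sum_filter_add_sum_filter_not S _ _).symm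
  have e2 : ns μ S2 (cf g) = ns μ S3 (cf g) + ns μ S4 (cf g) := by
    unfold ns
    exact (Finset.sum_filter_add_sum_filter_not S2 _ _).symm
  have e3 : ns μ S4 (cf g) = 0 := by
    unfold ns
    refine Finset.sum_eq_zero fun ξ hξ => ?_
    rw [hS4, Finset.mem_filter, hS2, Finset.mem_filter] at hξ
    obtain ⟨⟨_, h3⟩, h4⟩ := hξ
    have hz : ξ = (0, 0) := by
      have h5 : ξ.1 = 0 := by
        by_contra h6
        have h7 : |ξ.1| < |ξ.2| := by
          by_contra h8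
          exact h3 ⟨h6, not_lt.1 h8⟩
        have h9 : ξ.2 ≠ 0 := by
          intro h10
          rw [h10, abs_zero] at h7
          have := abs_nonneg ξ.1
          omega
        exact h4 ⟨h9, h7.le⟩
      have h6 : ξ.2 = 0 := by
        by_contra h7
        apply h4
        refine ⟨h7, ?_⟩
        rw [h5, abs_zero]
        exact abs_nonneg _
      exact Prod.ext h5 h6
    have h5 : ∀ z, cf g ξ z = 0 := by
      intro z
      rw [hz]
      unfold cf
      simp only [fourier_zero, mul_one, map_one]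
      exact hmean z
    simp [h5]
  have b1 : ns μ S1 (cf g) ≤ R ^ 2 := h24_part hg (h1 S1 (cf g)
    (fun ξ hξ => (Finset.mem_filter.1 hξ).2) hc)
  have b3 : ns μ S3 (cf g) ≤ R ^ 2 := h24_part hg (h2 S3 (cf g)
    (fun ξ hξ => (Finset.mem_filter.1 hξ).2) hc)
  linarith

end Pool.Agent.Helper95.RX
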