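import Mathlib
import Pool.Agent.Helper95.RX.Nrm

/-! RX-NEAR: calculus of near invariance.  All from `N2_tri` and `N2_comp` (the maps
`w ↦ (φ w.1, θ w.2)` preserve `volume.prod μ`, `MeasurePreserving.prod`). -/

set_option autoImplicit false
open MeasureTheory Real Set Filter Topology
open scoped ComplexConjugate ENNReal

namespace Pool.Agent.Helper95.RX

attribute [local instance] Pool.Agent.Helper53.SM.instProbU Pool.Agent.Helper53.SM.instProbT2

variable {Z : Type} [MeasurableSpace Z] {μ : Measure Z} [IsProbabilityMeasure μ]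
  {g g' : T2 × Z → ℂ} {φ ψ : T2 → T2}

/-- composition: `g ∘ (φ × θ) ≈ g'`, `g' ∘ (ψ × θ') ≈ g''` give `g ∘ (φψ × θθ') ≈ g''` -/
lemma rl_comp {g'' : T2 × Z → ℂ} (hg : BM g) (hg' : BM g') (hg'' : BM g'')
    (hφ : Measurable φ) (hψ : MeasurePreserving ψ volume volume) {θ θ' : Z → Z}
    (hθ : Measurable θ) (hθ' : MeasurePreserving θ' μ μ) {e e' : ℝ}
    (h1 : rl μ g g' φ θ e) (h2 : rl μ g' g'' ψ θ' e') :
    rl μ g g'' (fun p => φ (ψ p)) (fun z => θ (θ' z)) (e + e') := by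
  have hψθ : MeasurePreserving (fun w : T2 × Z => (ψ w.1, θ' w.2))
      ((volume : Measure T2).prod μ) ((volume : Measure T2).prod μ) := hψ.prod hθ'
  have hφθ : Measurable (fun w : T2 × Z => (φ w.1, θ w.2)) :=
    (hφ.comp measurable_fst).prodMk (hθ.comp measurable_snd)
  have b1 : BM (fun w : T2 × Z => g (φ w.1, θ w.2)) := BM.comp hφθ hg
  have b2 : BM (fun w : T2 × Z => g (φ (ψ w.1), θ (θ' w.2))) :=
    BM.comp (φ := fun w : T2 × Z => (ψ w.1, θ' w.2)) hψθ.measurable b1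
  have b3 : BM (fun w : T2 × Z => g' (ψ w.1, θ' w.2)) := BM.comp hψθ.measurable hg'
  have h3 := N2_tri (μ := (volume : Measure T2).prod μ) b2 b3 hg''
  have h4 := N2_comp (g := fun w : T2 × Z => g (φ w.1, θ w.2) - g' w) hψθ (b1.sub hg').1
  have h5 : N2 ((volume : Measure T2).prod μ)
      (fun w : T2 × Z => g (φ (ψ w.1), θ (θ' w.2)) - g' (ψ w.1, θ' w.2)) ≤ e := by
    have h6 : N2 ((volume : Measure T2).prod μ)
      (fun w : T2 × Z => g (φ (ψ w.1), θ (θ' w.2)) - g' (ψ w.1, θ' w.2)) =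
      N2 ((volume : Measure T2).prod μ) (fun w : T2 × Z => g (φ w.1, θ w.2) - g' w) := h4
    rw [h6]
    exact h1
  exact h3.trans (add_le_add h5 h2)

/-- inverse: if `φ'`, `θ'` are right inverses of `φ`, `θ` then `g ∘ (φ × θ) ≈ g'` gives
`g' ∘ (φ' × θ') ≈ g` -/
lemma rl_symm (hg : BM g) (hg' : BM g') {φ' : T2 → T2} (hφ : Measurable φ)
    (hφ' : MeasurePreserving φ' volume volume)
    {θ θ' : Z → Z} (hθ : Measurable θ) (hθ' : MeasurePreserving θ' μ μ) (h3 : ∀ p, φ (φ' p) = p)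
    (h4 : ∀ z, θ (θ' z) = z) {e : ℝ} (h1 : rl μ g g' φ θ e) : rl μ g' g φ' θ' e := by
  have hφθ' : MeasurePreserving (fun w : T2 × Z => (φ' w.1, θ' w.2))
      ((volume : Measure T2).prod μ) ((volume : Measure T2).prod μ) := hφ'.prod hθ'
  have hφθ : Measurable (fun w : T2 × Z => (φ w.1, θ w.2)) :=
    (hφ.comp measurable_fst).prodMk (hθ.comp measurable_snd)
  have b1 : BM (fun w : T2 × Z => g (φ w.1, θ w.2)) := BM.comp hφθ hg
  have h7 := N2_comp (g := fun w : T2 × Z => g (φ w.1, θ w.2) - g' w) hφθ' (b1.sub hg').1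
  have h5 : N2 ((volume : Measure T2).prod μ)
      (fun w : T2 × Z => g (φ (φ' w.1), θ (θ' w.2)) - g' (φ' w.1, θ' w.2)) =
      N2 ((volume : Measure T2).prod μ) (fun w : T2 × Z => g (φ w.1, θ w.2) - g' w) := h7
  rw [show (fun w : T2 × Z => g (φ (φ' w.1), θ (θ' w.2)) - g' (φ' w.1, θ' w.2)) =
      fun w : T2 × Z => g w - g' (φ' w.1, θ' w.2) from
      funext fun w => by rw [h3 w.1, h4 w.2]] at h5
  unfold rl
  rw [N2_sub_comm]
  have h6 : N2 ((volume : Measure T2).prod μ)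
      (fun w : T2 × Z => g w - g' (φ' w.1, θ' w.2)) =
      N2 ((volume : Measure T2).prod μ) (fun w : T2 × Z => g (φ w.1, θ w.2) - g' w) := h5
  rw [h6]
  exact h1

omit [IsProbabilityMeasure μ] in
lemma rl_mono {θ : Z → Z} {e e' : ℝ} (h : rl μ g g' φ θ e) (hle : e ≤ e') :
    rl μ g g' φ θ e' := h.trans hle

omit [IsProbabilityMeasure μ] in
lemma nr_mono {e e' : ℝ} (h : nr μ g φ e) (hle : e ≤ e') : nr μ g φ e' := by
  obtain ⟨θ, h1, h2⟩ := h
  exact ⟨θ, h1, h2.trans hle⟩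

omit [IsProbabilityMeasure μ] in
lemma nr_congr {φ' : T2 → T2} {e : ℝ} (h : nr μ g φ e) (hφ : ∀ p, φ' p = φ p) :
    nr μ g φ' e := by
  have : φ' = φ := funext hφ
  rw [this]
  exact h

lemma nr_comp (hg : BM g) (hφ : MeasurePreserving φ volume volume)
    (hψ : MeasurePreserving ψ volume volume) {e e' : ℝ}
    (h1 : nr μ g φ e) (h2 : nr μ g ψ e') : nr μ g (fun p => φ (ψ p)) (e + e') := by
  obtain ⟨θ, hθ, h3⟩ := h1
  obtain ⟨θ', hθ', h4⟩ := h2
  exact ⟨θ'.trans θ, hθ.comp hθ', rl_comp hg hg hg hφ.measurable hψ θ.measurable hθ' h3 h4⟩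

lemma nr_symm (hg : BM g) {φ' : T2 → T2} (hφ : MeasurePreserving φ volume volume)
    (hφ' : MeasurePreserving φ' volume volume)
    (h3 : ∀ p, φ (φ' p) = p) {e : ℝ} (h1 : nr μ g φ e) : nr μ g φ' e := by
  obtain ⟨θ, hθ, h4⟩ := h1
  exact ⟨θ.symm, hθ.symm, rl_symm hg hg hφ.measurable hφ' θ.measurable hθ.symm h3
    (fun z => θ.apply_symm_apply z) h4⟩

/-- conjugation: `g' ∘ (φ × θ) ≈ g` and `g'` nearly invariant under `ψ` make `g` nearly invariant
under `φ⁻¹ ψ φ` -/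
lemma nr_conj (hg : BM g) (hg' : BM g') {φ' : T2 → T2}
    (hφ : MeasurePreserving φ volume volume) (hφ' : MeasurePreserving φ' volume volume)
    (hψ : MeasurePreserving ψ volume volume)
    (h3 : ∀ p, φ (φ' p) = p) (θ : Z ≃ᵐ Z) (hθ : MeasurePreserving θ μ μ)
    {e e' : ℝ} (h1 : rl μ g' g φ θ e) (h2 : nr μ g' ψ e') :
    nr μ g (fun p => φ' (ψ (φ p))) (e' + 2 * e) := by
  obtain ⟨θ₂, hθ₂, h4⟩ := h2
  have h5 : rl μ g g' φ' θ.symm e := rl_symm hg' hg hφ.measurable hφ' θ.measurable hθ.symm h3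
    (fun z => θ.apply_symm_apply z) h1
  have h6 := rl_comp hg hg' hg' hφ'.measurable hψ θ.symm.measurable hθ₂ h5 h4
  have h7 := rl_comp hg hg' hg (hφ'.measurable.comp hψ.measurable) hφ
    (θ.symm.measurable.comp hθ₂.measurable) hθ h6 h1
  refine ⟨(θ.trans θ₂).trans θ.symm, (hθ.symm.comp hθ₂).comp hθ, rl_mono h7 (by linarith)⟩

/-- two automorphisms with the same source: `g' ∘ F ≈ g ≈ g' ∘ F'` gives `g` nearly invariant
under `F⁻¹ F'` -/
lemma nr_source (hg : BM g) (hg' : BM g') {φ' : T2 → T2}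
    (hφ : MeasurePreserving φ volume volume)
    (hφ' : MeasurePreserving φ' volume volume) (hψ : MeasurePreserving ψ volume volume)
    (h3 : ∀ p, φ (φ' p) = p) (θ θ' : Z ≃ᵐ Z)
    (hθ : MeasurePreserving θ μ μ) (hθ' : MeasurePreserving θ' μ μ) {e : ℝ}
    (h1 : rl μ g' g φ θ e) (h2 : rl μ g' g ψ θ' e) :
    nr μ g (fun p => φ' (ψ p)) (2 * e) := by
  have h5 : rl μ g g' φ' θ.symm e := rl_symm hg' hg hφ.measurable hφ' θ.measurable hθ.symm h3
    (fun z => θ.apply_symm_apply z) h1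
  have h6 := rl_comp hg hg' hg hφ'.measurable hψ θ.symm.measurable hθ' h5 h2
  exact ⟨θ'.trans θ.symm, hθ.symm.comp hθ', rl_mono h6 (by linarith)⟩

/-- two automorphisms with the same target: `g' ∘ F ≈ g ≈ g' ∘ F'` gives `g'` nearly invariant
under `F' F⁻¹` -/
lemma nr_target (hg : BM g) (hg' : BM g') {φ' : T2 → T2}
    (hφ : MeasurePreserving φ volume volume)
    (hφ' : MeasurePreserving φ' volume volume) (hψ : MeasurePreserving ψ volume volume)
    (h3 : ∀ p, φ (φ' p) = p) (θ θ' : Z ≃ᵐ Z)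
    (hθ : MeasurePreserving θ μ μ) (hθ' : MeasurePreserving θ' μ μ) {e : ℝ}
    (h1 : rl μ g' g φ θ e) (h2 : rl μ g' g ψ θ' e) :
    nr μ g' (fun p => ψ (φ' p)) (2 * e) := by
  have h5 : rl μ g g' φ' θ.symm e := rl_symm hg' hg hφ.measurable hφ' θ.measurable hθ.symm h3
    (fun z => θ.apply_symm_apply z) h1
  have h6 := rl_comp hg' hg hg' hψ.measurable hφ' θ'.measurable hθ.symm h2 h5
  exact ⟨θ.symm.trans θ', hθ'.comp hθ.symm, rl_mono h6 (by linarith)⟩

/-- iterates -/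
lemma rl_iter (hg : BM g) (hφ : MeasurePreserving φ volume volume) {θ : Z → Z}
    (hθ : MeasurePreserving θ μ μ) {e : ℝ} (h1 : rl μ g g φ θ e) (m : ℕ) :
    rl μ g g (φ^[m]) (θ^[m]) (m * e) := by
  induction m with
  | zero =>
    unfold rl N2
    simp
  | succ m ih =>
    have h2 := rl_comp hg hg hg (hφ.iterate m).measurable hφ (hθ.iterate m).measurable hθ ih h1
    rw [Function.iterate_succ, Function.iterate_succ]
    refine rl_mono h2 ?_
    push_cast
    linarith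

end Pool.Agent.Helper95.RX
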