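import Mathlib
import Pool.Agent.Helper95.RX.Nrm

/-! RX-CE: the oscillatory integral, one integration by parts on `[0,1]`. -/

set_option autoImplicit false
open MeasureTheory Real Set Filter Topology
open scoped ComplexConjugate ENNReal

namespace Pool.Agent.Helper95.RX

/-- a trigonometric polynomial on the line -/
noncomputable def cpol (Ls : Finset ℤ) (α : ℤ → ℂ) (y : ℝ) : ℂ :=
  ∑ l ∈ Ls, α l * Complex.exp (2 * π * Complex.I * (l * y : ℝ))

lemma cexp_deriv (l : ℤ) (y : ℝ) :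
    HasDerivAt (fun y : ℝ => Complex.exp (2 * π * Complex.I * ((l * y : ℝ) : ℂ)))
      (2 * π * Complex.I * l * Complex.exp (2 * π * Complex.I * ((l * y : ℝ) : ℂ))) y := by
  have h1 : HasDerivAt (fun y : ℝ => ((l * y : ℝ) : ℂ)) (((l : ℝ) : ℂ)) y := by
    have h2 : HasDerivAt (fun y : ℝ => (l : ℝ) * y) (l : ℝ) y := by
      simpa using (hasDerivAt_id y).const_mul (l : ℝ)
    exact h2.ofReal_comp
  have h3 := (h1.const_mul (2 * π * Complex.I)).cexp
  convert h3 using 1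
  push_cast
  ring

lemma cpol_deriv (Ls : Finset ℤ) (α : ℤ → ℂ) (y : ℝ) :
    HasDerivAt (cpol Ls α) (cpol Ls (fun l => 2 * π * Complex.I * l * α l) y) y := by
  have h1 : HasDerivAt (fun y => ∑ l ∈ Ls, α l * Complex.exp (2 * π * Complex.I * (l * y : ℝ)))
      (∑ l ∈ Ls, α l * (2 * π * Complex.I * l * Complex.exp (2 * π * Complex.I * ((l * y : ℝ) : ℂ)))) y := by
    have h2 := HasDerivAt.fun_sum (u := Ls) (A := fun l (y : ℝ) =>
      α l * Complex.exp (2 * π * Complex.I * ((l * y : ℝ) : ℂ)))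
      (A' := fun l => α l * (2 * π * Complex.I * l * Complex.exp (2 * π * Complex.I * ((l * y : ℝ) : ℂ))))
      (x := y) (fun l _ => (cexp_deriv l y).const_mul (α l))
    exact h2
  have h3 : cpol Ls (fun l => 2 * π * Complex.I * l * α l) y =
      ∑ l ∈ Ls, α l * (2 * π * Complex.I * l * Complex.exp (2 * π * Complex.I * ((l * y : ℝ) : ℂ))) := by
    unfold cpol
    refine Finset.sum_congr rfl fun l _ => ?_
    ring
  rw [h3]
  exact h1

lemma cpol_cont (Ls : Finset ℤ) (α : ℤ → ℂ) : Continuous (cpol Ls α) :=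
  continuous_iff_continuousAt.2 fun y => (cpol_deriv Ls α y).continuousAt

lemma norm_cexp (x : ℝ) : ‖Complex.exp (2 * π * Complex.I * (x : ℂ))‖ = 1 := by
  have : (2 * π * Complex.I * (x : ℂ)) = ((2 * π * x : ℝ) : ℂ) * Complex.I := by push_cast; ring
  rw [this, Complex.norm_exp_ofReal_mul_I]

lemma cpol_norm_le (Ls : Finset ℤ) (α : ℤ → ℂ) (y : ℝ) : ‖cpol Ls α y‖ ≤ ∑ l ∈ Ls, ‖α l‖ := by
  unfold cpol
  refine (norm_sum_le _ _).trans (Finset.sum_le_sum fun l _ => ?_)
  rw [norm_mul, norm_cexp, mul_one]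

lemma cexp_int (n : ℤ) : ∫ y in (0:ℝ)..1, Complex.exp (2 * π * Complex.I * ((n * y : ℝ) : ℂ)) =
    if n = 0 then 1 else 0 := by
  split_ifs with h
  · subst h
    simp
  · have h1 : (fun y : ℝ => Complex.exp (2 * π * Complex.I * ((n * y : ℝ) : ℂ))) =
        fun y : ℝ => Complex.exp ((2 * π * Complex.I * n) * (y : ℂ)) := by
      funext y
      congr 1
      push_cast
      ring
    have hc : (2 * π * Complex.I * n : ℂ) ≠ 0 := by
      have hn : (n : ℂ) ≠ 0 := by exact_mod_cast h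
      have hp : (π : ℂ) ≠ 0 := by exact_mod_cast Real.pi_ne_zero
      simp [hn, hp, Complex.I_ne_zero]
    rw [h1, integral_exp_mul_complex hc]
    have h2 : Complex.exp (2 * π * Complex.I * n * ((1 : ℝ) : ℂ)) = 1 := by
      rw [Complex.ofReal_one, mul_one, mul_comm]
      exact Complex.exp_int_mul_two_pi_mul_I n
    rw [h2]
    simp

lemma cpol_sq (Ls : Finset ℤ) (α : ℤ → ℂ) :
    ∫ y in (0:ℝ)..1, ‖cpol Ls α y‖ ^ 2 = ∑ l ∈ Ls, ‖α l‖ ^ 2 := by
  have h1 : ∀ y : ℝ, ((‖cpol Ls α y‖ ^ 2 : ℝ) : ℂ) = ∑ l ∈ Ls, ∑ l' ∈ Ls,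
      (α l * conj (α l')) * Complex.exp (2 * π * Complex.I * (((l - l' : ℤ) * y : ℝ) : ℂ)) := by
    intro y
    push_cast
    rw [← Complex.mul_conj']
    unfold cpol
    rw [map_sum, Finset.sum_mul_sum]
    refine Finset.sum_congr rfl fun l _ => Finset.sum_congr rfl fun l' _ => ?_
    have h2 : conj (Complex.exp (2 * π * Complex.I * ((l' * y : ℝ) : ℂ))) =
        Complex.exp (-(2 * π * Complex.I * ((l' * y : ℝ) : ℂ))) := by
      rw [← Complex.exp_conj]
      congr 1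
      simp only [map_mul, Complex.conj_I, Complex.conj_ofReal, map_ofNat]
      ring
    rw [map_mul, h2, mul_mul_mul_comm, ← Complex.exp_add]
    congr 2
    push_cast
    ring
  have h3 : ((∫ y in (0:ℝ)..1, ‖cpol Ls α y‖ ^ 2 : ℝ) : ℂ) = ((∑ l ∈ Ls, ‖α l‖ ^ 2 : ℝ) : ℂ) := by
    rw [← intervalIntegral.integral_ofReal]
    simp only [h1]
    have hi : ∀ l l' : ℤ, IntervalIntegrable (fun y : ℝ => (α l * conj (α l')) *
        Complex.exp (2 * π * Complex.I * (((l - l' : ℤ) * y : ℝ) : ℂ))) volume 0 1 := by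
      intro l l'
      refine Continuous.intervalIntegrable ?_ _ _
      fun_prop
    rw [intervalIntegral.integral_finsetSum fun l _ =>
      (Continuous.intervalIntegrable (by fun_prop) _ _), Complex.ofReal_sum]
    refine Finset.sum_congr rfl fun l hl => ?_
    rw [intervalIntegral.integral_finsetSum fun l' _ =>
      (Continuous.intervalIntegrable (by fun_prop) _ _)]
    have h4 : ∀ l' ∈ Ls, (∫ y in (0:ℝ)..1, (α l * conj (α l')) *
        Complex.exp (2 * π * Complex.I * (((l - l' : ℤ) * y : ℝ) : ℂ))) =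
        if l' = l then (α l * conj (α l')) else 0 := by
      intro l' _
      rw [intervalIntegral.integral_const_mul, cexp_int]
      by_cases h5 : l' = l
      · simp [h5]
      · have : ¬ l - l' = 0 := fun h6 => h5 (by omega)
        simp [h5, this]
    rw [Finset.sum_congr rfl h4, Finset.sum_ite_eq' Ls l, if_pos hl, Complex.mul_conj',
      Complex.ofReal_pow]
  exact_mod_cast h3

/-- Cauchy-Schwarz on `[0,1]` with a bounded factor -/
lemma cpol_cs (Ls Ms : Finset ℤ) (α β : ℤ → ℂ) {w : ℝ → ℂ} (hw : Continuous w) {B : ℝ}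
    (hB : ∀ y, ‖w y‖ ≤ B) :
    ‖∫ y in (0:ℝ)..1, w y * cpol Ls α y * conj (cpol Ms β y)‖ ≤
      B * (Real.sqrt (∑ l ∈ Ls, ‖α l‖ ^ 2) * Real.sqrt (∑ l ∈ Ms, ‖β l‖ ^ 2)) := by
  have hB0 : 0 ≤ B := (norm_nonneg _).trans (hB 0)
  have hpm : IsProbabilityMeasure (volume.restrict (Ioc (0:ℝ) 1)) := ⟨by simp⟩
  have hcs := int_mul_le_sqrt (μ := volume.restrict (Ioc (0:ℝ) 1))
    (f := fun y => ‖cpol Ls α y‖ ^ 2) (k := fun y => ‖cpol Ms β y‖ ^ 2)
    ((cpol_cont Ls α).norm.pow 2).measurable ((cpol_cont Ms β).norm.pow 2).measurable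
    (fun _ => by positivity) (fun _ => by positivity)
    ⟨_, fun y => pow_le_pow_left₀ (norm_nonneg _) (cpol_norm_le Ls α y) 2⟩
    ⟨_, fun y => pow_le_pow_left₀ (norm_nonneg _) (cpol_norm_le Ms β y) 2⟩
  simp only [Real.sqrt_sq (norm_nonneg _)] at hcs
  rw [← intervalIntegral.integral_of_le zero_le_one, ← intervalIntegral.integral_of_le zero_le_one,
    ← intervalIntegral.integral_of_le zero_le_one, cpol_sq, cpol_sq] at hcs
  refine (intervalIntegral.norm_integral_le_integral_norm zero_le_one).trans ?_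
  refine le_trans ?_ (mul_le_mul_of_nonneg_left hcs hB0)
  rw [← intervalIntegral.integral_const_mul]
  refine intervalIntegral.integral_mono_on zero_le_one ?_ ?_ fun y _ => ?_
  · refine Continuous.intervalIntegrable ?_ _ _
    exact ((hw.mul (cpol_cont Ls α)).mul (Complex.continuous_conj.comp (cpol_cont Ms β))).norm
  · refine Continuous.intervalIntegrable ?_ _ _
    exact ((cpol_cont Ls α).norm.mul (cpol_cont Ms β).norm).const_mul _
  · rw [norm_mul, norm_mul, RCLike.norm_conj, mul_assoc]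
    exact mul_le_mul_of_nonneg_right (hB y) (by positivity)

lemma cpol_der_sq (Ls : Finset ℤ) {K : ℝ} (hL : ∀ l ∈ Ls, |(l : ℝ)| ≤ K) (α : ℤ → ℂ) :
    Real.sqrt (∑ l ∈ Ls, ‖(2 * π * Complex.I * l * α l : ℂ)‖ ^ 2) ≤
      2 * π * K * Real.sqrt (∑ l ∈ Ls, ‖α l‖ ^ 2) := by
  by_cases hne : Ls.Nonempty
  · obtain ⟨l0, hl0⟩ := hne
    have hK : 0 ≤ K := (abs_nonneg _).trans (hL l0 hl0)
    have hp := Real.pi_pos
    rw [← Real.sqrt_sq (show 0 ≤ 2 * π * K by positivity), ← Real.sqrt_mul (by positivity)]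
    refine Real.sqrt_le_sqrt ?_
    rw [Finset.mul_sum]
    refine Finset.sum_le_sum fun l hl => ?_
    rw [← mul_pow]
    refine pow_le_pow_left₀ (norm_nonneg _) ?_ 2
    rw [norm_mul, norm_mul, norm_mul, norm_mul, Complex.norm_I, Complex.norm_real,
      Real.norm_of_nonneg hp.le, Complex.norm_ofNat, mul_one]
    refine mul_le_mul_of_nonneg_right ?_ (norm_nonneg _)
    refine mul_le_mul_of_nonneg_left ?_ (by positivity)
    have : ‖(l : ℂ)‖ = |(l : ℝ)| := by
      rw [← Complex.ofReal_intCast, Complex.norm_real, Real.norm_eq_abs]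
    rw [this]
    exact hL l hl
  · rw [Finset.not_nonempty_iff_eq_empty] at hne
    subst hne
    simp

/-- real variable version: `u`, `v` trigonometric polynomials of degree at most `2|k|`.
Proof: `F(y) = exp(2πi m k D sin(2πy+θ)) cos(2πy+θ) u(y) conj(v(y))` is periodic, so `∫ F' = 0`;
this expresses `4π² i m k D ∫ cos² e u v̄` by three terms, each bounded by Cauchy–Schwarz and
`‖u'‖₂ ≤ 4π|k| ‖u‖₂` (orthonormality of the exponentials on `[0,1]`). The total is at most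
`(2π + 8π|k|)/(4π² m |k| |D|) ≤ 5/(2π |D| m)`. -/
lemma ce_real {D θ : ℝ} (hD : D ≠ 0) {m : ℕ} (hm : 1 ≤ m) {k : ℤ} (hk : k ≠ 0)
    (Ls : Finset ℤ) (hL : ∀ l ∈ Ls, |l| ≤ 2 * |k|) (α β : ℤ → ℂ) :
    ‖∫ y in (0:ℝ)..1, ((Real.cos (2 * π * y + θ) ^ 2 : ℝ) : ℂ) *
        Complex.exp (2 * π * Complex.I * (k * (m * (D * Real.sin (2 * π * y + θ))) : ℝ)) *
        (∑ l ∈ Ls, α l * Complex.exp (2 * π * Complex.I * (l * y : ℝ))) *
        (starRingEnd ℂ) (∑ l ∈ Ls, β l * Complex.exp (2 * π * Complex.I * (l * y : ℝ)))‖ ≤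
      5 / (2 * π * |D| * m) * (Real.sqrt (∑ l ∈ Ls, ‖α l‖ ^ 2) * Real.sqrt (∑ l ∈ Ls, ‖β l‖ ^ 2)) := by
  have hp := Real.pi_pos
  set E : ℝ → ℂ := fun y =>
    Complex.exp (2 * π * Complex.I * ((k * (m * (D * Real.sin (2 * π * y + θ))) : ℝ) : ℂ)) with hE
  set u := cpol Ls α with hu
  set v := cpol Ls β with hv
  set u' := cpol Ls (fun l => 2 * π * Complex.I * l * α l) with hu'
  set v' := cpol Ls (fun l => 2 * π * Complex.I * l * β l) with hv'
  have hm0 : (0 : ℝ) < m := by exact_mod_cast hm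
  have hkR : (1 : ℝ) ≤ |(k : ℝ)| := by
    have : (1 : ℤ) ≤ |k| := Int.one_le_abs hk
    exact_mod_cast this
  have hDa : 0 < |D| := abs_pos.2 hD
  have hEn : ∀ y, ‖E y‖ = 1 := fun y => norm_cexp _
  have hlin : ∀ y : ℝ, HasDerivAt (fun y : ℝ => 2 * π * y + θ) (2 * π) y := fun y => by
    simpa using ((hasDerivAt_id y).const_mul (2 * π)).add_const θ
  have hsin : ∀ y : ℝ, HasDerivAt (fun y : ℝ => Real.sin (2 * π * y + θ))
      (Real.cos (2 * π * y + θ) * (2 * π)) y := fun y => (hlin y).sin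
  have hcos : ∀ y : ℝ, HasDerivAt (fun y : ℝ => ((Real.cos (2 * π * y + θ) : ℝ) : ℂ))
      (((-Real.sin (2 * π * y + θ) * (2 * π) : ℝ)) : ℂ) y := fun y => ((hlin y).cos).ofReal_comp
  have hEd : ∀ y, HasDerivAt E (4 * π ^ 2 * Complex.I * k * m * D *
      ((Real.cos (2 * π * y + θ) : ℝ) : ℂ) * E y) y := by
    intro y
    have h1 : HasDerivAt (fun y : ℝ => ((k * (m * (D * Real.sin (2 * π * y + θ))) : ℝ) : ℂ))
        ((k * (m * (D * (Real.cos (2 * π * y + θ) * (2 * π)))) : ℝ) : ℂ) y :=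
      ((((hsin y).const_mul D).const_mul (m : ℝ)).const_mul (k : ℝ)).ofReal_comp
    have h2 := (h1.const_mul (2 * π * Complex.I)).cexp
    refine h2.congr_deriv ?_
    have hEy : E y =
      Complex.exp (2 * π * Complex.I * ((k * (m * (D * Real.sin (2 * π * y + θ))) : ℝ) : ℂ)) := rfl
    rw [hEy]
    push_cast
    ring
  have hEc : Continuous E := continuous_iff_continuousAt.2 fun y => (hEd y).continuousAt
  have huc : Continuous u := cpol_cont _ _
  have hvc : Continuous v := cpol_cont _ _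
  have huc' : Continuous u' := cpol_cont _ _
  have hvc' : Continuous v' := cpol_cont _ _
  have hvd : ∀ y, HasDerivAt (fun y => conj (v y)) (conj (v' y)) y := fun y => by
    have h1 := cpol_deriv Ls β y
    have h2 := (Complex.conjCLE.toContinuousLinearMap).hasFDerivAt.comp_hasDerivAt y h1
    exact h2
  -- the derivative of the periodic function
  set J0 : ℝ → ℂ := fun y => ((Real.cos (2 * π * y + θ) ^ 2 : ℝ) : ℂ) * E y * u y * conj (v y) with hJ0
  set J1 : ℝ → ℂ := fun y => (E y * ((-Real.sin (2 * π * y + θ) * (2 * π) : ℝ) : ℂ)) * u y *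
    conj (v y) with hJ1
  set J2 : ℝ → ℂ := fun y => (E y * ((Real.cos (2 * π * y + θ) : ℝ) : ℂ)) * u' y * conj (v y) with hJ2
  set J3 : ℝ → ℂ := fun y => (E y * ((Real.cos (2 * π * y + θ) : ℝ) : ℂ)) * u y * conj (v' y) with hJ3
  have hF : ∀ y, HasDerivAt (fun y => E y * ((Real.cos (2 * π * y + θ) : ℝ) : ℂ) * u y * conj (v y))
      (4 * π ^ 2 * Complex.I * k * m * D * J0 y + (J1 y + J2 y + J3 y)) y := by
    intro y
    have h1 := (((hEd y).fun_mul (hcos y)).fun_mul (cpol_deriv Ls α y)).fun_mul (hvd y)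
    refine h1.congr_deriv ?_
    simp only [hJ0, hJ1, hJ2, hJ3, hu, hu']
    push_cast
    ring
  have hc1 : Continuous fun y : ℝ => ((Real.cos (2 * π * y + θ) : ℝ) : ℂ) := by fun_prop
  have hc2 : Continuous fun y : ℝ => ((-Real.sin (2 * π * y + θ) * (2 * π) : ℝ) : ℂ) := by fun_prop
  have hc3 : Continuous fun y : ℝ => ((Real.cos (2 * π * y + θ) ^ 2 : ℝ) : ℂ) := by fun_prop
  have hcv : Continuous fun y => conj (v y) := Complex.continuous_conj.comp hvc
  have hcv' : Continuous fun y => conj (v' y) := Complex.continuous_conj.comp hvc'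
  have c0 : Continuous J0 := ((hc3.mul hEc).mul huc).mul hcv
  have c1 : Continuous J1 := ((hEc.mul hc2).mul huc).mul hcv
  have c2 : Continuous J2 := ((hEc.mul hc1).mul huc').mul hcv
  have c3 : Continuous J3 := ((hEc.mul hc1).mul huc).mul hcv'
  have i0 : IntervalIntegrable (fun y => 4 * π ^ 2 * Complex.I * k * m * D * J0 y) volume 0 1 :=
    Continuous.intervalIntegrable (continuous_const.mul c0) _ _
  have i1 : IntervalIntegrable J1 volume 0 1 := c1.intervalIntegrable _ _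
  have i2 : IntervalIntegrable J2 volume 0 1 := c2.intervalIntegrable _ _
  have i3 : IntervalIntegrable J3 volume 0 1 := c3.intervalIntegrable _ _
  have i12 : IntervalIntegrable (fun y => J1 y + J2 y) volume 0 1 := i1.add i2
  have i123 : IntervalIntegrable (fun y => J1 y + J2 y + J3 y) volume 0 1 := i12.add i3
  have hFT := intervalIntegral.integral_eq_sub_of_hasDerivAt (a := 0) (b := 1) (fun y _ => hF y)
    (i0.add i123)
  have hper1 : ∀ l : ℤ, Complex.exp (2 * π * Complex.I * ((l * (1:ℝ) : ℝ) : ℂ)) =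
      Complex.exp (2 * π * Complex.I * ((l * (0:ℝ) : ℝ) : ℂ)) := by
    intro l
    have : (2 * π * Complex.I * ((l * (1:ℝ) : ℝ) : ℂ)) = l * (2 * π * Complex.I) := by
      push_cast; ring
    rw [this, Complex.exp_int_mul_two_pi_mul_I]
    simp
  have hup : u 1 = u 0 := by
    rw [hu]; unfold cpol
    exact Finset.sum_congr rfl fun l _ => by rw [hper1]
  have hvp : v 1 = v 0 := by
    rw [hv]; unfold cpol
    exact Finset.sum_congr rfl fun l _ => by rw [hper1]
  have hsp : Real.sin (2 * π * 1 + θ) = Real.sin (2 * π * 0 + θ) := by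
    rw [mul_one, mul_zero, zero_add, add_comm, Real.sin_add_two_pi]
  have hcp : Real.cos (2 * π * 1 + θ) = Real.cos (2 * π * 0 + θ) := by
    rw [mul_one, mul_zero, zero_add, add_comm, Real.cos_add_two_pi]
  have hEp : E 1 = E 0 := by rw [hE]; simp only [hsp]
  have hFz : E 1 * ((Real.cos (2 * π * 1 + θ) : ℝ) : ℂ) * u 1 * conj (v 1) -
      E 0 * ((Real.cos (2 * π * 0 + θ) : ℝ) : ℂ) * u 0 * conj (v 0) = 0 := by
    rw [hEp, hcp, hup, hvp, sub_self]
  have hFT2 := hFT.trans hFz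
  rw [intervalIntegral.integral_add i0 i123, intervalIntegral.integral_add i12 i3,
    intervalIntegral.integral_add i1 i2, intervalIntegral.integral_const_mul] at hFT2
  set A := Real.sqrt (∑ l ∈ Ls, ‖α l‖ ^ 2) with hA
  set B := Real.sqrt (∑ l ∈ Ls, ‖β l‖ ^ 2) with hB
  have hA0 : 0 ≤ A := Real.sqrt_nonneg _
  have hB0 : 0 ≤ B := Real.sqrt_nonneg _
  have hLr : ∀ l ∈ Ls, |(l : ℝ)| ≤ 2 * |(k : ℝ)| := fun l hl => by
    have := hL l hl
    exact_mod_cast this
  have hb1 := cpol_cs Ls Ls α β (w := fun y => E y * ((-Real.sin (2 * π * y + θ) * (2 * π) : ℝ) : ℂ))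
    (hEc.mul hc2) (B := 2 * π) (fun y => by
      rw [norm_mul, hEn, one_mul, Complex.norm_real, norm_mul, norm_neg, Real.norm_eq_abs,
        Real.norm_of_nonneg (show 0 ≤ 2 * π by positivity)]
      exact mul_le_of_le_one_left (by positivity) (Real.abs_sin_le_one _))
  have hw1 : ∀ y, ‖E y * ((Real.cos (2 * π * y + θ) : ℝ) : ℂ)‖ ≤ 1 := fun y => by
    rw [norm_mul, hEn, one_mul, Complex.norm_real, Real.norm_eq_abs]
    exact Real.abs_cos_le_one _
  have hb2 := cpol_cs Ls Ls (fun l => 2 * π * Complex.I * l * α l) β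
    (w := fun y => E y * ((Real.cos (2 * π * y + θ) : ℝ) : ℂ)) (hEc.mul hc1) hw1
  have hb3 := cpol_cs Ls Ls α (fun l => 2 * π * Complex.I * l * β l)
    (w := fun y => E y * ((Real.cos (2 * π * y + θ) : ℝ) : ℂ)) (hEc.mul hc1) hw1
  have hd2 := cpol_der_sq Ls hLr α
  have hd3 := cpol_der_sq Ls hLr β
  have hb2' : ‖∫ y in (0:ℝ)..1, J2 y‖ ≤ 2 * π * (2 * |(k : ℝ)|) * A * B := by
    refine hb2.trans ?_
    rw [one_mul]
    exact mul_le_mul_of_nonneg_right hd2 hB0
  have hb3' : ‖∫ y in (0:ℝ)..1, J3 y‖ ≤ A * (2 * π * (2 * |(k : ℝ)|) * B) := by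
    refine hb3.trans ?_
    rw [one_mul]
    exact mul_le_mul_of_nonneg_left hd3 hA0
  have hmain : ‖(4 * π ^ 2 * Complex.I * k * m * D : ℂ)‖ *
      ‖∫ y in (0:ℝ)..1, ((Real.cos (2 * π * y + θ) ^ 2 : ℝ) : ℂ) * E y * u y * conj (v y)‖ ≤
      2 * π * (A * B) + 2 * π * (2 * |(k : ℝ)|) * A * B + A * (2 * π * (2 * |(k : ℝ)|) * B) := by
    rw [← norm_mul, eq_neg_of_add_eq_zero_left hFT2, norm_neg]
    exact (norm_add₃_le).trans (add_le_add (add_le_add hb1 hb2') hb3')
  have hcn : ‖(4 * π ^ 2 * Complex.I * k * m * D : ℂ)‖ = 4 * π ^ 2 * |(k : ℝ)| * m * |D| := by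
    simp only [norm_mul, norm_pow, Complex.norm_I, mul_one, Complex.norm_real, Real.norm_eq_abs,
      Complex.norm_natCast, Complex.norm_ofNat, abs_of_pos hp]
    have : ‖(k : ℂ)‖ = |(k : ℝ)| := by
      rw [← Complex.ofReal_intCast, Complex.norm_real, Real.norm_eq_abs]
    rw [this]
  rw [hcn] at hmain
  have hgoal : ‖∫ y in (0:ℝ)..1, ((Real.cos (2 * π * y + θ) ^ 2 : ℝ) : ℂ) * E y * u y * conj (v y)‖ ≤
      5 / (2 * π * |D| * m) * (A * B) := by
    have hAB : 0 ≤ A * B := mul_nonneg hA0 hB0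
    have hcpos : 0 < 4 * π ^ 2 * |(k : ℝ)| * m * |D| := by positivity
    rw [mul_comm] at hmain
    rw [← le_div_iff₀ hcpos] at hmain
    refine hmain.trans ?_
    rw [div_le_iff₀ hcpos]
    have e1 : 5 / (2 * π * |D| * m) * (A * B) * (4 * π ^ 2 * |(k : ℝ)| * m * |D|) =
        10 * π * |(k : ℝ)| * (A * B) := by
      field_simp
      ring
    rw [e1]
    have h5 : 2 * π * (A * B) ≤ 2 * π * |(k : ℝ)| * (A * B) := by
      refine mul_le_mul_of_nonneg_right ?_ hAB
      nlinarith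
    nlinarith
  exact hgoal

end Pool.Agent.Helper95.RX
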