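import Mathlib
import Pool.Agent.Helper95.RX.CEa

/-! RX-CEC: the oscillatory integral on the circle (`UnitAddCircle.intervalIntegral_preimage`-like
lemmas, see `Helper53.SM.Torus.integral_T2`). -/

set_option autoImplicit false
open MeasureTheory Real Set Filter Topology
open scoped ComplexConjugate ENNReal

namespace Pool.Agent.Helper95.RX

attribute [local instance] Pool.Agent.Helper53.SM.instProbU Pool.Agent.Helper53.SM.instProbT2

lemma fourier_real (k : ℤ) (x : ℝ) : fourier k (x : UnitAddCircle) =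
    Complex.exp (2 * π * Complex.I * ((k * x : ℝ) : ℂ)) := by
  rw [fourier_coe_apply]
  congr 1
  push_cast
  ring

/-- circle version -/
lemma ce_circle {D : ℝ} (hD : D ≠ 0) (κ : UnitAddCircle) {m : ℕ} (hm : 1 ≤ m) {k : ℤ}
    (hk : k ≠ 0) (Ls : Finset ℤ) (hL : ∀ l ∈ Ls, |l| ≤ 2 * |k|) (α β : ℤ → ℂ) :
    ‖∫ y : UnitAddCircle, ((csn (y + κ) ^ 2 : ℝ) : ℂ) *
        fourier k (((m * (D * snn (y + κ)) : ℝ) : UnitAddCircle)) *
        (∑ l ∈ Ls, α l * fourier l y) * (starRingEnd ℂ) (∑ l ∈ Ls, β l * fourier l y)‖ ≤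
      5 / (2 * π * |D| * m) * (Real.sqrt (∑ l ∈ Ls, ‖α l‖ ^ 2) * Real.sqrt (∑ l ∈ Ls, ‖β l‖ ^ 2)) := by
  induction κ using QuotientAddGroup.induction_on with
  | H x0 =>
    have h := ce_real (θ := 2 * π * x0) hD hm hk Ls hL α β
    refine le_trans (le_of_eq ?_) h
    congr 1
    rw [← UnitAddCircle.intervalIntegral_preimage 0, zero_add]
    refine intervalIntegral.integral_congr fun y _ => ?_
    have e1 : csn ((y : UnitAddCircle) + ((x0 : ℝ) : UnitAddCircle)) =
        Real.cos (2 * π * y + 2 * π * x0) := by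
      rw [← AddCircle.coe_add, csn_coe, mul_add]
    have e2 : snn ((y : UnitAddCircle) + ((x0 : ℝ) : UnitAddCircle)) =
        Real.sin (2 * π * y + 2 * π * x0) := by
      rw [← AddCircle.coe_add, snn_coe, mul_add]
    erw [e1, e2]
    simp only [fourier_real]

end Pool.Agent.Helper95.RX
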