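import Mathlib
import Pool.Agent.Helper95.RX.Defs

/-! RX-KA: the kicked maps and their inverses, measure preservation (`IsStd.measurePreserving`,
`MeasurePreserving.skew_product`, see `Helper53.SM.Torus`). -/

set_option autoImplicit false
open MeasureTheory Real Set Filter Topology
open scoped ComplexConjugate ENNReal

namespace Pool.Agent.Helper95.RX

attribute [local instance] Pool.Agent.Helper53.SM.instProbU Pool.Agent.Helper53.SM.instProbT2

/-- `2θ + a sin 2πθ` on the circle -/
noncomputable def bb (a : ℝ) (θ : UnitAddCircle) : UnitAddCircle :=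
  θ + θ + ((a * snn θ : ℝ) : UnitAddCircle)

/-- inverse of the kicked map -/
noncomputable def kfi (a c : ℝ) (q : T2) : T2 := (q.2 - (c : UnitAddCircle), bb a q.2 - q.1)

private lemma continuous_snn_h12 : Continuous snn := by
  unfold Pool.Agent.Helper78.SM.snn
  have h : Continuous (fun z : Circle => (z : ℂ)) := by fun_prop
  exact Complex.continuous_im.comp (h.comp AddCircle.continuous_toCircle)

private lemma continuous_coe_h12 : Continuous ((↑) : ℝ → UnitAddCircle) :=
  AddCircle.continuous_mk' 1

lemma kf_eq (a c : ℝ) (p : T2) :
    kf a c p = (bb a (p.1 + (c : UnitAddCircle)) - p.2, p.1 + (c : UnitAddCircle)) := by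
  unfold kf Pool.Agent.Helper78.SM.std bb
  refine Prod.ext ?_ rfl
  simp only
  abel

lemma kf_kfi (a c : ℝ) (q : T2) : kf a c (kfi a c q) = q := by
  rw [kf_eq]
  unfold kfi
  simp only [sub_add_cancel, sub_sub_cancel, Prod.mk.eta]

lemma kfi_kf (a c : ℝ) (p : T2) : kfi a c (kf a c p) = p := by
  rw [kf_eq]
  unfold kfi
  simp only [add_sub_cancel_right, sub_sub_cancel, Prod.mk.eta]

lemma continuous_bb (a : ℝ) : Continuous (bb a) := by
  unfold bb
  exact (continuous_id.add continuous_id).add
    (continuous_coe_h12.comp (continuous_const.mul continuous_snn_h12))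

/-- jointly continuous in the kick and the point -/
lemma continuous_kf (a : ℝ) : Continuous (fun q : ℝ × T2 => kf a q.1 q.2) := by
  simp only [kf_eq]
  have h1 : Continuous (fun q : ℝ × T2 => q.2.1 + (q.1 : UnitAddCircle)) :=
    (continuous_fst.comp continuous_snd).add (continuous_coe_h12.comp continuous_fst)
  exact (((continuous_bb a).comp h1).sub (continuous_snd.comp continuous_snd)).prodMk h1

lemma continuous_kfi (a : ℝ) : Continuous (fun q : ℝ × T2 => kfi a q.1 q.2) := by
  unfold kfi
  have h1 : Continuous (fun q : ℝ × T2 => q.2.2 - (q.1 : UnitAddCircle)) :=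
    (continuous_snd.comp continuous_snd).sub (continuous_coe_h12.comp continuous_fst)
  exact h1.prodMk (((continuous_bb a).comp (continuous_snd.comp continuous_snd)).sub
    (continuous_fst.comp continuous_snd))

/-- the kicked map as a measurable equivalence -/
noncomputable def kE (a c : ℝ) : T2 ≃ᵐ T2 where
  toFun := kf a c
  invFun := kfi a c
  left_inv := kfi_kf a c
  right_inv := kf_kfi a c
  measurable_toFun := ((continuous_kf a).comp (continuous_const.prodMk continuous_id)).measurable
  measurable_invFun := ((continuous_kfi a).comp (continuous_const.prodMk continuous_id)).measurable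

lemma mp_kf (a c : ℝ) : MeasurePreserving (kf a c) (volume : Measure T2) volume := by
  have h1 : MeasurePreserving (fun p : T2 => (p.1 + (c : UnitAddCircle), p.2))
      (volume : Measure T2) volume :=
    (measurePreserving_add_right (volume : Measure UnitAddCircle) (c : UnitAddCircle)).prod
      (MeasurePreserving.id (volume : Measure UnitAddCircle))
  exact (std_isStd a).measurePreserving.comp h1

lemma mp_kfi (a c : ℝ) : MeasurePreserving (kfi a c) (volume : Measure T2) volume := by
  have h1 : MeasurePreserving (kE a c) (volume : Measure T2) volume := mp_kf a c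
  exact h1.symm (kE a c)

private lemma mp_vm_aux_h12 (D : ℝ) (κ : UnitAddCircle) :
    MeasurePreserving (vm D κ) (volume : Measure T2) volume := by
  have hc : Continuous (fun p : T2 => p.2 + ((D * snn (p.1 + κ) : ℝ) : UnitAddCircle)) :=
    continuous_snd.add (continuous_coe_h12.comp (continuous_const.mul
      (continuous_snn_h12.comp (continuous_fst.add continuous_const))))
  refine MeasurePreserving.skew_product (f := id)
    (g := fun x y => y + ((D * snn (x + κ) : ℝ) : UnitAddCircle)) (MeasurePreserving.id _) ?_ ?_
  · exact hc.measurable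
  · filter_upwards with x
    exact (measurePreserving_add_right (volume : Measure UnitAddCircle) _).map_eq

lemma mp_hm (D : ℝ) (κ : UnitAddCircle) : MeasurePreserving (hm D κ) (volume : Measure T2) volume := by
  have h2 : MeasurePreserving (Prod.swap : T2 → T2) volume volume :=
    Measure.measurePreserving_swap
  exact (h2.comp (mp_vm_aux_h12 D κ)).comp h2

lemma mp_vm (D : ℝ) (κ : UnitAddCircle) : MeasurePreserving (vm D κ) (volume : Measure T2) volume :=
  mp_vm_aux_h12 D κ

lemma mp_ht (τ : UnitAddCircle) : MeasurePreserving (ht τ) (volume : Measure T2) volume :=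
  (measurePreserving_add_right (volume : Measure UnitAddCircle) τ).prod
    (MeasurePreserving.id (volume : Measure UnitAddCircle))

lemma mp_vt (τ : UnitAddCircle) : MeasurePreserving (vt τ) (volume : Measure T2) volume :=
  (MeasurePreserving.id (volume : Measure UnitAddCircle)).prod
    (measurePreserving_add_right (volume : Measure UnitAddCircle) τ)

lemma hm_iter (D : ℝ) (κ : UnitAddCircle) (m : ℕ) (p : T2) :
    (hm D κ)^[m] p = (p.1 + ((m * (D * snn (p.2 + κ)) : ℝ) : UnitAddCircle), p.2) := by
  induction m with
  | zero => simp
  | succ m ih =>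
    rw [Function.iterate_succ_apply', ih]
    unfold hm
    simp only
    rw [add_assoc, ← AddCircle.coe_add]
    congr 3
    push_cast
    ring

end Pool.Agent.Helper95.RX
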