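import Mathlib
import Pool.Agent.Helper95.RX.CEb
import Pool.Agent.Helper95.RX.Tp
import Pool.Agent.Helper95.RX.KickA

/-! RX-CORR: the correlation estimate on `T2 × Z`. -/

set_option autoImplicit false
open MeasureTheory Real Set Filter Topology
open scoped ComplexConjugate ENNReal

namespace Pool.Agent.Helper95.RX

attribute [local instance] Pool.Agent.Helper53.SM.instProbU Pool.Agent.Helper53.SM.instProbT2

variable {Z : Type} [MeasurableSpace Z] {μ : Measure Z} [IsProbabilityMeasure μ]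

lemma circ_int (n : ℤ) : ∫ x : UnitAddCircle, fourier n x = if n = 0 then (1 : ℂ) else 0 := by
  rw [← UnitAddCircle.intervalIntegral_preimage 0, zero_add]
  simp only [fourier_real]
  exact cexp_int n

lemma circ_ortho (k k' : ℤ) : ∫ x : UnitAddCircle, fourier k x * conj (fourier k' x) =
    if k = k' then (1 : ℂ) else 0 := by
  have h : ∀ x : UnitAddCircle, fourier k x * conj (fourier k' x) = fourier (k - k') x := by
    intro x
    rw [← fourier_neg, ← fourier_add, sub_eq_add_neg]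
  simp only [h, circ_int, sub_eq_zero]

lemma circ_sum (K : Finset ℤ) (a b : ℤ → ℂ) :
    ∫ x : UnitAddCircle, (∑ k ∈ K, a k * fourier k x) * conj (∑ k ∈ K, b k * fourier k x) =
      ∑ k ∈ K, a k * conj (b k) := by
  have h1 : ∀ x : UnitAddCircle, (∑ k ∈ K, a k * fourier k x) * conj (∑ k ∈ K, b k * fourier k x) =
      ∑ k ∈ K, ∑ k' ∈ K, (a k * conj (b k')) * (fourier k x * conj (fourier k' x)) := by
    intro x
    rw [map_sum, Finset.sum_mul_sum]
    refine Finset.sum_congr rfl fun k _ => Finset.sum_congr rfl fun k' _ => ?_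
    rw [map_mul]
    ring
  simp only [h1]
  have hi : ∀ k k' : ℤ, Integrable fun x : UnitAddCircle =>
      (a k * conj (b k')) * (fourier k x * conj (fourier k' x)) := by
    intro k k'
    refine Continuous.integrable_of_hasCompactSupport ?_ (HasCompactSupport.of_compactSpace _)
    exact continuous_const.mul ((fourier k).continuous.mul
      (Complex.continuous_conj.comp (fourier k').continuous))
  rw [integral_finsetSum _ fun k _ => integrable_finsetSum _ fun k' _ => hi k k']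
  refine Finset.sum_congr rfl fun k hk => ?_
  rw [integral_finsetSum _ fun k' _ => hi k k']
  have h2 : ∀ k' ∈ K, (∫ x : UnitAddCircle, (a k * conj (b k')) * (fourier k x * conj (fourier k' x))) =
      if k = k' then a k * conj (b k') else 0 := by
    intro k' _
    rw [integral_const_mul, circ_ortho]
    split_ifs <;> simp
  rw [Finset.sum_congr rfl h2, Finset.sum_ite_eq K k, if_pos hk]

lemma fourier_shift (n : ℤ) (x y : UnitAddCircle) :
    fourier n (x + y) = (fourier n x * fourier n y : ℂ) := by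
  rw [fourier_apply, fourier_apply, fourier_apply, smul_add, AddCircle.toCircle_add, Circle.coe_mul]

/-- the fibre of `S` over `k` -/
def fibL (S : Finset (ℤ × ℤ)) (k : ℤ) : Finset ℤ := (S.image Prod.snd).filter fun l => (k, l) ∈ S

lemma mem_fibL {S : Finset (ℤ × ℤ)} {k l : ℤ} : l ∈ fibL S k ↔ (k, l) ∈ S := by
  unfold fibL
  rw [Finset.mem_filter, Finset.mem_image]
  exact ⟨fun h => h.2, fun h => ⟨⟨_, h, rfl⟩, h⟩⟩

lemma sum_fib {M : Type} [AddCommMonoid M] (S : Finset (ℤ × ℤ)) (f : ℤ × ℤ → M) :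
    ∑ ξ ∈ S, f ξ = ∑ k ∈ S.image Prod.fst, ∑ l ∈ fibL S k, f (k, l) := by
  rw [Finset.sum_sigma']
  symm
  refine Finset.sum_bij' (fun q _ => (q.1, q.2)) (fun ξ _ => ⟨ξ.1, ξ.2⟩) ?_ ?_ ?_ ?_ ?_
  · intro q hq
    exact mem_fibL.1 (Finset.mem_sigma.1 hq).2
  · intro ξ hξ
    exact Finset.mem_sigma.2 ⟨Finset.mem_image_of_mem _ hξ, mem_fibL.2 hξ⟩
  · intro q _; rfl
  · intro ξ _; rfl
  · intro q _; rfl

lemma csn_abs_le (x : UnitAddCircle) : |csn x| ≤ 1 := by
  induction x using QuotientAddGroup.induction_on with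
  | H x =>
    have := csn_coe x
    erw [this]
    exact Real.abs_cos_le_one _

lemma continuous_csn' : Continuous csn := by
  unfold csn
  exact Complex.continuous_re.comp (continuous_subtype_val.comp AddCircle.continuous_toCircle)

lemma continuous_snn' : Continuous snn := by
  unfold snn
  exact Complex.continuous_im.comp (continuous_subtype_val.comp AddCircle.continuous_toCircle)

lemma BM_of_cont {V : Type} [TopologicalSpace V] [CompactSpace V] [MeasurableSpace V] [BorelSpace V]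
    {f : V → ℂ} (hf : Continuous f) : BM f := by
  refine ⟨hf.measurable, ?_⟩
  obtain ⟨C, hC⟩ := isCompact_univ.exists_bound_of_continuousOn hf.continuousOn
  exact ⟨C, fun w => hC w (mem_univ _)⟩

/-- the correlation estimate: `hm_iter`, integrate over `X` first (only equal first frequencies
survive), then `ce_circle` in `Y` for each `z` and each first frequency `k`, then
`∫ √(f ∘ θ) √f ≤ ∫ f` (`int_mul_le_sqrt`) -/
lemma corr {D : ℝ} (hD : D ≠ 0) (κ : UnitAddCircle) {θ : Z → Z} (hθ : MeasurePreserving θ μ μ)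
    (S : Finset (ℤ × ℤ)) (hS : ∀ ξ ∈ S, ξ.1 ≠ 0 ∧ |ξ.2| ≤ 2 * |ξ.1|)
    {c : ℤ × ℤ → Z → ℂ} (hc : ∀ ξ ∈ S, BM (c ξ)) {m : ℕ} (hm1 : 1 ≤ m) :
    ‖IP ((volume : Measure T2).prod μ)
        (fun w => ((csn (w.1.2 + κ) ^ 2 : ℝ) : ℂ) * tp S c ((hm D κ)^[m] w.1, θ w.2))
        (tp S c)‖ ≤ 5 / (2 * π * |D| * m) * ns μ S c := by
  set K := S.image Prod.fst with hK
  set sY : UnitAddCircle → UnitAddCircle := fun Y => ((m * (D * snn (Y + κ)) : ℝ) : UnitAddCircle)
    with hsY
  set U : ℤ → UnitAddCircle → Z → ℂ := fun k Y z => ∑ l ∈ fibL S k, c (k, l) z * fourier l Y with hU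
  have hsYc : Continuous sY := by
    have h1 : Continuous fun Y => (m * (D * snn (Y + κ)) : ℝ) :=
      continuous_const.mul (continuous_const.mul (continuous_snn'.comp (continuous_id.add continuous_const)))
    exact (AddCircle.continuous_mk' 1).comp h1
  have hcc : Continuous fun Y : UnitAddCircle => ((csn (Y + κ) ^ 2 : ℝ) : ℂ) :=
    Complex.continuous_ofReal.comp ((continuous_csn'.comp (continuous_id.add continuous_const)).pow 2)
  have htp1 : ∀ (X Y : UnitAddCircle) (z : Z), tp S c ((X, Y), z) =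
      ∑ k ∈ K, U k Y z * fourier k X := by
    intro X Y z
    unfold tp
    rw [sum_fib]
    refine Finset.sum_congr rfl fun k _ => ?_
    rw [hU, Finset.sum_mul]
    refine Finset.sum_congr rfl fun l _ => ?_
    simp only
    ring
  have htp2 : ∀ (X Y : UnitAddCircle) (z : Z), tp S c ((hm D κ)^[m] (X, Y), z) =
      ∑ k ∈ K, (fourier k (sY Y) * U k Y z) * fourier k X := by
    intro X Y z
    rw [hm_iter, htp1]
    refine Finset.sum_congr rfl fun k _ => ?_
    rw [fourier_shift]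
    simp only [hsY]
    ring
  have hBtp := BM_tp S hc
  have hmeas : Measurable fun w : T2 × Z => ((hm D κ)^[m] w.1, θ w.2) :=
    (((mp_hm D κ).measurable.iterate m).comp measurable_fst).prodMk (hθ.measurable.comp measurable_snd)
  have hBc : BM fun w : T2 × Z => ((csn (w.1.2 + κ) ^ 2 : ℝ) : ℂ) :=
    BM.comp (φ := fun w : T2 × Z => w.1.2) (g := fun Y => ((csn (Y + κ) ^ 2 : ℝ) : ℂ))
      (measurable_snd.comp measurable_fst) (BM_of_cont hcc)
  have hBF : BM fun w : T2 × Z => (((csn (w.1.2 + κ) ^ 2 : ℝ) : ℂ) * tp S c ((hm D κ)^[m] w.1, θ w.2)) *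
      conj (tp S c w) := (hBc.mul (hBtp.comp hmeas)).mul hBtp.conj
  unfold IP
  rw [integral_prod_symm _ hBF.integrable]
  -- the inner integral
  have hin : ∀ z : Z, (∫ p : T2, (((csn (p.2 + κ) ^ 2 : ℝ) : ℂ) * tp S c ((hm D κ)^[m] p, θ z)) *
      conj (tp S c (p, z))) = ∑ k ∈ K, ∫ Y : UnitAddCircle, ((csn (Y + κ) ^ 2 : ℝ) : ℂ) *
        fourier k (sY Y) * (∑ l ∈ fibL S k, c (k, l) (θ z) * fourier l Y) *
        conj (∑ l ∈ fibL S k, c (k, l) z * fourier l Y) := by
    intro z
    have hB1 : BM fun p : T2 => (((csn (p.2 + κ) ^ 2 : ℝ) : ℂ) * tp S c ((hm D κ)^[m] p, θ z)) *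
        conj (tp S c (p, z)) := hBF.comp (measurable_id.prodMk measurable_const)
    have h1 := integral_prod_symm (μ := (volume : Measure UnitAddCircle))
      (ν := (volume : Measure UnitAddCircle)) _ (hB1.integrable (μ := (volume : Measure T2)))
    have h1' : (∫ p : T2, (((csn (p.2 + κ) ^ 2 : ℝ) : ℂ) * tp S c ((hm D κ)^[m] p, θ z)) *
      conj (tp S c (p, z))) = ∫ Y : UnitAddCircle, ∫ X : UnitAddCircle,
        (((csn (Y + κ) ^ 2 : ℝ) : ℂ) * tp S c ((hm D κ)^[m] (X, Y), θ z)) *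
      conj (tp S c ((X, Y), z)) := h1
    rw [h1']
    have h2 : ∀ Y : UnitAddCircle, (∫ X : UnitAddCircle,
        (((csn (Y + κ) ^ 2 : ℝ) : ℂ) * tp S c ((hm D κ)^[m] (X, Y), θ z)) *
        conj (tp S c ((X, Y), z))) = ∑ k ∈ K, ((csn (Y + κ) ^ 2 : ℝ) : ℂ) *
        fourier k (sY Y) * U k Y (θ z) * conj (U k Y z) := by
      intro Y
      simp only [htp2]
      simp only [htp1, mul_assoc]
      rw [integral_const_mul]
      have h3 := circ_sum K (fun k => fourier k (sY Y) * U k Y (θ z)) (fun k => U k Y z)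
      simp only [mul_assoc] at h3
      rw [h3, Finset.mul_sum]
    simp only [h2]
    rw [integral_finsetSum]
    intro k _
    refine BM.integrable (μ := (volume : Measure UnitAddCircle)) (BM_of_cont ?_)
    have hUc : ∀ z, Continuous fun Y => U k Y z := fun z =>
      continuous_finsetSum _ fun l _ => continuous_const.mul (fourier l).continuous
    exact ((hcc.mul ((fourier k).continuous.comp hsYc)).mul (hUc _)).mul
      (Complex.continuous_conj.comp (hUc _))
  set A : ℤ → Z → ℝ := fun k z => ∑ l ∈ fibL S k, ‖c (k, l) z‖ ^ 2 with hA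
  have hAm : ∀ k, Measurable (A k) := fun k =>
    Finset.measurable_sum _ fun l hl => ((hc _ (mem_fibL.1 hl)).1.norm.pow_const 2)
  have hA0 : ∀ k z, 0 ≤ A k z := fun k z => Finset.sum_nonneg fun l _ => by positivity
  have hAb : ∀ k, ∃ C, ∀ z, A k z ≤ C := by
    intro k
    have h1 : ∀ l ∈ fibL S k, ∃ C : ℝ, ∀ z, ‖c (k, l) z‖ ≤ C := fun l hl => (hc _ (mem_fibL.1 hl)).2
    choose! C hC using h1
    exact ⟨∑ l ∈ fibL S k, C l ^ 2, fun z => Finset.sum_le_sum fun l hl =>
      pow_le_pow_left₀ (norm_nonneg _) (hC l hl z) 2⟩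
  have hbd : ∀ z, ‖∑ k ∈ K, ∫ Y : UnitAddCircle, ((csn (Y + κ) ^ 2 : ℝ) : ℂ) *
        fourier k (sY Y) * (∑ l ∈ fibL S k, c (k, l) (θ z) * fourier l Y) *
        conj (∑ l ∈ fibL S k, c (k, l) z * fourier l Y)‖ ≤
      ∑ k ∈ K, 5 / (2 * π * |D| * m) * (Real.sqrt (A k (θ z)) * Real.sqrt (A k z)) := by
    intro z
    refine (norm_sum_le _ _).trans (Finset.sum_le_sum fun k hk => ?_)
    obtain ⟨ξ, hξ, hξk⟩ := Finset.mem_image.1 hk
    have hk0 : k ≠ 0 := hξk ▸ (hS ξ hξ).1
    exact ce_circle hD κ hm1 hk0 (fibL S k) (fun l hl => (hS _ (mem_fibL.1 hl)).2)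
      (fun l => c (k, l) (θ z)) (fun l => c (k, l) z)
  have hsi : ∀ k, Integrable (fun z => Real.sqrt (A k (θ z)) * Real.sqrt (A k z)) μ := by
    intro k
    obtain ⟨C, hC⟩ := hAb k
    refine Integrable.of_bound (((hAm k).comp hθ.measurable).sqrt.mul (hAm k).sqrt).aestronglyMeasurable
      (Real.sqrt C * Real.sqrt C) (Eventually.of_forall fun z => ?_)
    rw [Real.norm_of_nonneg (by positivity)]
    exact mul_le_mul (Real.sqrt_le_sqrt (hC _)) (Real.sqrt_le_sqrt (hC _)) (Real.sqrt_nonneg _)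
      (Real.sqrt_nonneg _)
  have hfin : ‖∫ z, (∫ p : T2, (((csn (p.2 + κ) ^ 2 : ℝ) : ℂ) * tp S c ((hm D κ)^[m] p, θ z)) *
      conj (tp S c (p, z))) ∂μ‖ ≤
      ∫ z, ∑ k ∈ K, 5 / (2 * π * |D| * m) * (Real.sqrt (A k (θ z)) * Real.sqrt (A k z)) ∂μ := by
    refine norm_integral_le_of_norm_le
      (integrable_finsetSum _ fun k _ => (hsi k).const_mul _) (Eventually.of_forall fun z => ?_)
    rw [hin z]
    exact hbd z
  refine hfin.trans ?_
  rw [integral_finsetSum _ fun k _ => (hsi k).const_mul _]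
  unfold ns
  rw [sum_fib, Finset.mul_sum]
  refine Finset.sum_le_sum fun k _ => ?_
  rw [integral_const_mul]
  refine mul_le_mul_of_nonneg_left ?_ (by positivity)
  obtain ⟨C, hC⟩ := hAb k
  have hcs := int_mul_le_sqrt (μ := μ) (f := fun z => A k (θ z)) (k := A k)
    ((hAm k).comp hθ.measurable) (hAm k) (fun z => hA0 k _) (hA0 k) ⟨C, fun z => hC _⟩ ⟨C, hC⟩
  refine hcs.trans (le_of_eq ?_)
  have h5 : ∫ z, A k (θ z) ∂μ = ∫ z, A k z ∂μ := by
    have := hθ.map_eq
    conv_rhs => rw [← this]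
    rw [integral_map hθ.measurable.aemeasurable (hAm k).aestronglyMeasurable]
  rw [h5, Real.mul_self_sqrt (integral_nonneg fun z => hA0 k z), hA]
  exact integral_finsetSum _ fun l hl => (hc _ (mem_fibL.1 hl)).integrable_sq

end Pool.Agent.Helper95.RX
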