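import Mathlib
import Pool.Agent.Helper95.RX.Corr

/-! RX-SUM: almost orthogonality. -/

set_option autoImplicit false
open MeasureTheory Real Set Filter Topology
open scoped ComplexConjugate ENNReal

namespace Pool.Agent.Helper95.RX

attribute [local instance] Pool.Agent.Helper53.SM.instProbU Pool.Agent.Helper53.SM.instProbT2

variable {Z : Type} [MeasurableSpace Z] {μ : Measure Z} [IsProbabilityMeasure μ]

/-- the harmonic sum -/
lemma sum_inv_le (n J : ℕ) (hn : n ≤ J) :
    ∑ m ∈ Finset.range n, (1 : ℝ) / (m + 1) ≤ 1 + Real.log J := by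
  have h1 : ∑ m ∈ Finset.range n, (1 : ℝ) / (m + 1) ≤ ∑ m ∈ Finset.range J, (1 : ℝ) / (m + 1) := by
    apply Finset.sum_le_sum_of_subset_of_nonneg
    · exact Finset.range_mono hn
    · intro i _ _
      positivity
  refine h1.trans ?_
  have h2 := harmonic_le_one_add_log J
  have h3 : ((harmonic J : ℚ) : ℝ) = ∑ m ∈ Finset.range J, (1 : ℝ) / (m + 1) := by
    rw [harmonic]
    push_cast
    refine Finset.sum_congr rfl fun m _ => ?_
    rw [one_div]
  rw [← h3]
  exact h2

/-- the sum over the distances to `i` -/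
lemma sum_dist_le {i J : ℕ} (hi : i < J) :
    ∑ j ∈ Finset.range J, (if i = j then (0 : ℝ) else 1 / |(i : ℝ) - j|) ≤
      2 * (1 + Real.log J) := by
  rw [← Finset.sum_range_add_sum_Ico _ hi.le, Finset.sum_eq_sum_Ico_succ_bot hi, if_pos rfl,
    zero_add, Finset.sum_Ico_eq_sum_range, ← Finset.sum_range_reflect]
  have h1 : ∑ j ∈ Finset.range i, (if i = i - 1 - j then (0 : ℝ) else
      1 / |(i : ℝ) - ((i - 1 - j : ℕ) : ℝ)|) = ∑ m ∈ Finset.range i, (1 : ℝ) / (m + 1) := by
    refine Finset.sum_congr rfl fun j hj => ?_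
    rw [Finset.mem_range] at hj
    rw [if_neg (by omega)]
    congr 1
    have h2 : ((i - 1 - j : ℕ) : ℝ) = (i : ℝ) - 1 - j := by
      rw [Nat.cast_sub (by omega), Nat.cast_sub (by omega)]
      simp
    rw [h2, abs_of_nonneg]
    · ring
    · have : (0 : ℝ) ≤ j := by positivity
      linarith
  have h2 : ∑ m ∈ Finset.range (J - (i + 1)), (if i = i + 1 + m then (0 : ℝ) else
      1 / |(i : ℝ) - ((i + 1 + m : ℕ) : ℝ)|) =
      ∑ m ∈ Finset.range (J - (i + 1)), (1 : ℝ) / (m + 1) := by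
    refine Finset.sum_congr rfl fun m _ => ?_
    rw [if_neg (by omega)]
    congr 1
    push_cast
    rw [abs_of_nonpos]
    · ring
    · have : (0 : ℝ) ≤ m := by positivity
      linarith
  rw [h1, h2]
  have h3 := sum_inv_le i J hi.le
  have h4 := sum_inv_le (J - (i + 1)) J (by omega)
  linarith

lemma hm_iter_snd (D : ℝ) (κ : UnitAddCircle) (j : ℕ) (p : T2) : ((hm D κ)^[j] p).2 = p.2 := by
  rw [hm_iter]

/-- almost orthogonality of the functions `u_j = (χ w) ∘ Ĥ^j`, `χ = cos 2π(Y + κ)`, `w = tp S c`,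
`Ĥ = hm D κ × θ`: the diagonal terms are at most `ns`, and `⟨u_i, u_j⟩ = ⟨χ² w∘Ĥ^m, w⟩` for
`m = i - j > 0` (`IP_comp`, invariance of `χ`), bounded by `corr`; `harmonic_le_one_add_log` -/
lemma sum_sq {D : ℝ} (hD : D ≠ 0) (κ : UnitAddCircle) {θ : Z → Z} (hθ : MeasurePreserving θ μ μ)
    (S : Finset (ℤ × ℤ)) (hS : ∀ ξ ∈ S, ξ.1 ≠ 0 ∧ |ξ.2| ≤ 2 * |ξ.1|)
    {c : ℤ × ℤ → Z → ℂ} (hc : ∀ ξ ∈ S, BM (c ξ)) {J : ℕ} (hJ : 1 ≤ J) :
    N2 ((volume : Measure T2).prod μ)
      (fun w => ∑ j ∈ Finset.range J, (csn (((hm D κ)^[j] w.1).2 + κ) : ℂ) *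
        tp S c ((hm D κ)^[j] w.1, θ^[j] w.2)) ^ 2 ≤
      J * (1 + 10 / (2 * π * |D|) * (1 + Real.log J)) * ns μ S c := by
  set m0 : Measure (T2 × Z) := (volume : Measure T2).prod μ with hm0
  have hH : ∀ j : ℕ, MeasurePreserving
      (fun w : T2 × Z => ((hm D κ)^[j] w.1, θ^[j] w.2)) m0 m0 := fun j =>
    ((mp_hm D κ).iterate j).prod (hθ.iterate j)
  have hchi : ∀ w : T2 × Z, ‖(csn (w.1.2 + κ) : ℂ)‖ ≤ 1 := by
    intro w
    rw [Complex.norm_real]
    exact Pool.Agent.Helper78.SM.abs_csn_le _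
  have hchiM : BM (fun w : T2 × Z => (csn (w.1.2 + κ) : ℂ)) :=
    ⟨Complex.measurable_ofReal.comp (Pool.Agent.Helper78.SM.measurable_csn.comp
      ((measurable_snd.comp measurable_fst).add_const κ)), 1, hchi⟩
  have htp : BM (tp S c) := BM_tp S hc
  set F : ℕ → T2 × Z → ℂ := fun m w => (csn (w.1.2 + κ) : ℂ) *
    tp S c ((hm D κ)^[m] w.1, θ^[m] w.2) with hF
  have hFM : ∀ m, BM (F m) := fun m => BM.mul hchiM (BM.comp (hH m).measurable htp)
  have hu : (fun w : T2 × Z => ∑ j ∈ Finset.range J, (csn (((hm D κ)^[j] w.1).2 + κ) : ℂ) *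
        tp S c ((hm D κ)^[j] w.1, θ^[j] w.2)) = fun w => ∑ j ∈ Finset.range J, F j w := by
    funext w
    refine Finset.sum_congr rfl fun j _ => ?_
    rw [hm_iter_snd]
  have hns0 : 0 ≤ ns μ S c := ns_nonneg S c
  have hN : ∀ j, N2 m0 (F j) ^ 2 ≤ ns μ S c := by
    intro j
    have h1 : N2 m0 (F j) ≤ 1 * N2 m0 (fun w => tp S c ((hm D κ)^[j] w.1, θ^[j] w.2)) :=
      N2_mul_le (BM.comp (hH j).measurable htp) hchiM hchi
    rw [one_mul, N2_comp (hH j) htp.1] at h1
    rw [← N2_tp S hc]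
    exact pow_le_pow_left₀ (N2_nonneg _) h1 2
  set C : ℝ := 5 / (2 * π * |D|) * ns μ S c with hC
  have hC0 : 0 ≤ C := by positivity
  -- off the diagonal
  have hoff : ∀ j m : ℕ, 1 ≤ m → ‖IP m0 (F (j + m)) (F j)‖ ≤ C * (1 / m) := by
    intro j m hm1
    have h1 : IP m0 (F (j + m)) (F j) = IP m0 (F m) (F 0) := by
      rw [← IP_comp (hH j) (hFM m).1 (hFM 0).1]
      congr 1
      · funext w
        simp only [hF]
        rw [hm_iter_snd, add_comm j m, Function.iterate_add_apply, Function.iterate_add_apply]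
      · funext w
        simp only [hF, Function.iterate_zero, id]
        rw [hm_iter_snd]
    have h2 : IP m0 (F m) (F 0) = IP m0
        (fun w => ((csn (w.1.2 + κ) ^ 2 : ℝ) : ℂ) * tp S c ((hm D κ)^[m] w.1, θ^[m] w.2))
        (tp S c) := by
      simp only [IP]
      refine integral_congr_ae (ae_of_all _ fun w => ?_)
      simp only [hF, Function.iterate_zero, id, map_mul, Complex.conj_ofReal]
      push_cast
      ring
    rw [h1, h2]
    refine (corr hD κ (hθ.iterate m) S hS hc hm1).trans (le_of_eq ?_)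
    have hm' : (m : ℝ) ≠ 0 := by positivity
    have hD' : |D| ≠ 0 := abs_ne_zero.mpr hD
    rw [hC]
    field_simp
  have hall : ∀ i j : ℕ, ‖IP m0 (F i) (F j)‖ ≤
      (if i = j then ns μ S c else 0) + C * (if i = j then (0 : ℝ) else 1 / |(i : ℝ) - j|) := by
    intro i j
    rcases lt_trichotomy i j with h | h | h
    · rw [if_neg h.ne, if_neg h.ne, zero_add]
      obtain ⟨m, rfl⟩ := Nat.exists_eq_add_of_lt h
      have h1 := hoff i (m + 1) (by omega)
      rw [IP_conj, RCLike.norm_conj]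
      have h2 : |(i : ℝ) - ((i + m + 1 : ℕ) : ℝ)| = ((m + 1 : ℕ) : ℝ) := by
        push_cast
        rw [abs_of_nonpos]
        · ring
        · have : (0 : ℝ) ≤ m := by positivity
          linarith
      rw [h2]
      exact h1
    · subst h
      rw [if_pos rfl, if_pos rfl, mul_zero, add_zero, IP_self, Complex.norm_real,
        Real.norm_of_nonneg (sq_nonneg _)]
      exact hN i
    · rw [if_neg h.ne', if_neg h.ne', zero_add]
      obtain ⟨m, rfl⟩ := Nat.exists_eq_add_of_lt h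
      have h1 := hoff j (m + 1) (by omega)
      have h2 : |((j + m + 1 : ℕ) : ℝ) - (j : ℝ)| = ((m + 1 : ℕ) : ℝ) := by
        push_cast
        rw [abs_of_nonneg]
        · ring
        · have : (0 : ℝ) ≤ m := by positivity
          linarith
      rw [h2]
      exact h1
  rw [hu]
  refine (N2_sum_sq (Finset.range J) fun j _ => hFM j).trans ?_
  calc ∑ i ∈ Finset.range J, ∑ j ∈ Finset.range J, ‖IP m0 (F i) (F j)‖
      ≤ ∑ i ∈ Finset.range J, (ns μ S c + C * (2 * (1 + Real.log J))) := by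
        refine Finset.sum_le_sum fun i hi => ?_
        refine (Finset.sum_le_sum fun j _ => hall i j).trans ?_
        rw [Finset.sum_add_distrib, ← Finset.mul_sum]
        refine add_le_add ?_ (mul_le_mul_of_nonneg_left (sum_dist_le (Finset.mem_range.1 hi)) hC0)
        rw [Finset.sum_ite_eq, if_pos hi]
    _ = J * (1 + 10 / (2 * π * |D|) * (1 + Real.log J)) * ns μ S c := by
        rw [Finset.sum_const, Finset.card_range, nsmul_eq_mul, hC]
        ring

end Pool.Agent.Helper95.RX
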