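import Mathlib
import Pool.Agent.Helper95.RX.Sum
import Pool.Agent.Helper95.RX.Near

/-! RX-AVG: averaging. -/

set_option autoImplicit false
open MeasureTheory Real Set Filter Topology
open scoped ComplexConjugate ENNReal

namespace Pool.Agent.Helper95.RX

attribute [local instance] Pool.Agent.Helper53.SM.instProbU Pool.Agent.Helper53.SM.instProbT2

variable {Z : Type} [MeasurableSpace Z] {μ : Measure Z} [IsProbabilityMeasure μ]

/-- the bound -/
noncomputable def RR (D : ℝ) (J : ℕ) (e : ℝ) : ℝ :=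
  Real.sqrt ((1 + 10 / (2 * π * |D|) * (1 + Real.log J)) / J) + J * e / 2

/-- averaging: `⟨g, χw⟩ = ⟨g∘Ĥ^j, u_j⟩` and `‖g∘Ĥ^j - g‖ ≤ j e` (`rl_iter`), so
`|⟨g, χw⟩| ≤ |⟨g, (1/J) ∑ u_j⟩| + (J e/2) ‖w‖` -/
lemma avg {D : ℝ} (hD : D ≠ 0) (κ : UnitAddCircle) {θ : Z → Z} (hθ : MeasurePreserving θ μ μ)
    {g : T2 × Z → ℂ} (hg : BM g) (hg1 : N2 ((volume : Measure T2).prod μ) g ≤ 1) {e : ℝ}
    (he : rl μ g g (hm D κ) θ e)
    (S : Finset (ℤ × ℤ)) (hS : ∀ ξ ∈ S, ξ.1 ≠ 0 ∧ |ξ.2| ≤ 2 * |ξ.1|)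
    {c : ℤ × ℤ → Z → ℂ} (hc : ∀ ξ ∈ S, BM (c ξ)) {J : ℕ} (hJ : 1 ≤ J) :
    ‖IP ((volume : Measure T2).prod μ) g (fun w => (csn (w.1.2 + κ) : ℂ) * tp S c w)‖ ≤
      RR D J e * Real.sqrt (ns μ S c) := by
  obtain ⟨M, hM⟩ : ∃ M : Measure (T2 × Z), M = (volume : Measure T2).prod μ := ⟨_, rfl⟩
  have hMp : IsProbabilityMeasure M := by rw [hM]; infer_instance
  obtain ⟨h, hh⟩ : ∃ h : ℕ → T2 × Z → T2 × Z, h = fun j w => ((hm D κ)^[j] w.1, θ^[j] w.2) :=
    ⟨_, rfl⟩
  obtain ⟨F, hF⟩ : ∃ F : T2 × Z → ℂ, F = fun w => (csn (w.1.2 + κ) : ℂ) * tp S c w := ⟨_, rfl⟩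
  have hmp : ∀ j, MeasurePreserving (h j) M M := by
    intro j
    rw [hh, hM]
    exact ((mp_hm D κ).iterate j).prod (hθ.iterate j)
  have htp : BM (tp S c) := BM_tp S hc
  have hcs : Measurable (fun w : T2 × Z => (csn (w.1.2 + κ) : ℂ)) := by
    refine Complex.measurable_ofReal.comp (Pool.Agent.Helper78.SM.measurable_csn.comp ?_)
    exact (measurable_snd.comp measurable_fst).add_const κ
  have hcs1 : ∀ w : T2 × Z, ‖(csn (w.1.2 + κ) : ℂ)‖ ≤ 1 := by
    intro w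
    rw [Complex.norm_real, Real.norm_eq_abs]
    unfold Pool.Agent.Helper78.SM.csn
    exact (Complex.abs_re_le_norm _).trans (le_of_eq (Circle.norm_coe _))
  have hχ : BM (fun w : T2 × Z => (csn (w.1.2 + κ) : ℂ)) := ⟨hcs, 1, hcs1⟩
  have hFB : BM F := by
    rw [hF]
    exact hχ.mul htp
  have hns : N2 M (tp S c) = Real.sqrt (ns μ S c) := by
    rw [← N2_tp S hc, ← hM, Real.sqrt_sq (N2_nonneg _)]
  have hFn : N2 M F ≤ Real.sqrt (ns μ S c) := by
    rw [hF, ← hns]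
    have := N2_mul_le (μ := M) htp hχ hcs1
    rwa [one_mul] at this
  have he0 : 0 ≤ e := (N2_nonneg _).trans he
  have hit : ∀ j : ℕ, N2 M (fun w => g (h j w) - g w) ≤ j * e := by
    intro j
    have := rl_iter hg (mp_hm D κ) hθ he j
    unfold rl at this
    rw [hh, hM]
    exact this
  have hu : ∀ j, BM (fun w => F (h j w)) := fun j => hFB.comp (hmp j).measurable
  have hgh : ∀ j, BM (fun w => g (h j w)) := fun j => hg.comp (hmp j).measurable
  have key : ∀ j : ℕ, ‖IP M g F - IP M g (fun w => F (h j w))‖ ≤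
      j * e * Real.sqrt (ns μ S c) := by
    intro j
    rw [← IP_comp (hmp j) hg.1 hFB.1, ← IP_sub_left (hgh j) hg (hu j)]
    refine (IP_le ((hgh j).sub hg) (hu j)).trans ?_
    rw [N2_comp (hmp j) hFB.1]
    exact mul_le_mul (hit j) hFn (N2_nonneg _) (by positivity)
  have hsum : IP M g (fun w => ∑ j ∈ Finset.range J, F (h j w)) =
      ∑ j ∈ Finset.range J, IP M g (fun w => F (h j w)) :=
    IP_sum_right (Finset.range J) hg (fun j _ => hu j)
  have hJ0 : (0 : ℝ) < J := by exact_mod_cast hJ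
  have hlog : 0 ≤ Real.log J := Real.log_natCast_nonneg J
  obtain ⟨B, hB⟩ : ∃ B : ℝ, B = 1 + 10 / (2 * π * |D|) * (1 + Real.log J) := ⟨_, rfl⟩
  have hB0 : 0 ≤ B := by
    rw [hB]
    have : 0 < |D| := abs_pos.mpr hD
    positivity
  have hns0 : 0 ≤ ns μ S c := ns_nonneg S c
  have h1 : ‖IP M g (fun w => ∑ j ∈ Finset.range J, F (h j w))‖ ≤
      Real.sqrt (J * B * ns μ S c) := by
    refine (IP_le hg (BM.sum _ fun j _ => hu j)).trans ?_
    have h2 := sum_sq hD κ hθ S hS hc hJ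
    rw [← hB, ← hM] at h2
    have h3 : N2 M (fun w => ∑ j ∈ Finset.range J, F (h j w)) ≤ Real.sqrt (J * B * ns μ S c) := by
      refine Real.le_sqrt_of_sq_le ?_
      rw [hF, hh]
      exact h2
    calc N2 M g * N2 M (fun w => ∑ j ∈ Finset.range J, F (h j w))
        ≤ 1 * Real.sqrt (J * B * ns μ S c) :=
          mul_le_mul (by rw [hM]; exact hg1) h3 (N2_nonneg _) zero_le_one
      _ = _ := one_mul _
  have h2 : ‖(J : ℂ) * IP M g F‖ ≤ Real.sqrt (J * B * ns μ S c) +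
      J * (J * e / 2) * Real.sqrt (ns μ S c) := by
    have e1 : (J : ℂ) * IP M g F = IP M g (fun w => ∑ j ∈ Finset.range J, F (h j w)) +
        ∑ j ∈ Finset.range J, (IP M g F - IP M g (fun w => F (h j w))) := by
      rw [hsum, Finset.sum_sub_distrib, Finset.sum_const, Finset.card_range, nsmul_eq_mul]
      ring
    rw [e1]
    refine (norm_add_le _ _).trans (add_le_add h1 ?_)
    refine (norm_sum_le _ _).trans ?_
    refine (Finset.sum_le_sum fun j _ => key j).trans ?_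
    rw [← Finset.sum_mul, ← Finset.sum_mul]
    refine mul_le_mul_of_nonneg_right ?_ (Real.sqrt_nonneg _)
    have e2 : (∑ j ∈ Finset.range J, (j : ℝ)) ≤ J * (J / 2) := by
      have h3 := Finset.sum_range_id_mul_two J
      have h4 : (∑ j ∈ Finset.range J, (j : ℝ)) * 2 ≤ J * J := by
        have h5 : (∑ j ∈ Finset.range J, j) * 2 ≤ J * J := by
          rw [h3]
          exact Nat.mul_le_mul_left _ (Nat.sub_le _ _)
        have h6 := (Nat.cast_le (α := ℝ)).2 h5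
        push_cast at h6
        exact h6
      linarith
    calc (∑ j ∈ Finset.range J, (j : ℝ)) * e ≤ J * (J / 2) * e :=
          mul_le_mul_of_nonneg_right e2 he0
      _ = J * (J * e / 2) := by ring
  rw [norm_mul, Complex.norm_natCast] at h2
  rw [← hM, ← hF]
  have h3 : Real.sqrt (J * B * ns μ S c) = J * (Real.sqrt (B / J) * Real.sqrt (ns μ S c)) := by
    rw [← Real.sqrt_mul (by positivity)]
    have e3 : (J : ℝ) = Real.sqrt (J ^ 2) := (Real.sqrt_sq hJ0.le).symm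
    conv_rhs => rw [e3]
    rw [← Real.sqrt_mul (by positivity), Real.sqrt_sq hJ0.le]
    congr 1
    field_simp
  rw [h3] at h2
  have h4 : J * ‖IP M g F‖ ≤ J * ((Real.sqrt (B / J) + J * e / 2) * Real.sqrt (ns μ S c)) := by
    refine h2.trans (le_of_eq ?_)
    ring
  have h5 := le_of_mul_le_mul_left h4 hJ0
  unfold RR
  rw [← hB]
  exact h5

end Pool.Agent.Helper95.RX
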