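import Mathlib
import Pool.Agent.Helper95.RX.KickA

/-! RX-KB: the commutator identities on the torus. -/

set_option autoImplicit false
open MeasureTheory Real Set Filter Topology
open scoped ComplexConjugate ENNReal

namespace Pool.Agent.Helper95.RX

attribute [local instance] Pool.Agent.Helper53.SM.instProbU Pool.Agent.Helper53.SM.instProbT2

/-- same source: `f_c⁻¹ f_{c'}` is a horizontal translation -/
lemma kfi_kf_ne (a c c' : ℝ) (p : T2) :
    kfi a c (kf a c' p) = ht ((c' - c : ℝ) : UnitAddCircle) p := by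
  rw [kf_eq]
  unfold kfi ht
  ext
  · simp only [AddCircle.coe_sub]
    abel
  · simp only
    abel

/-- conjugation of a horizontal translation is a vertical translation -/
lemma conj_ht (a c : ℝ) (τ : UnitAddCircle) (p : T2) :
    kfi a c (ht τ (kf a c p)) = vt (-τ) p := by
  rw [kf_eq]
  unfold kfi ht vt
  ext
  · simp only
    abel
  · simp only
    abel

/-- same target: `f_{c'} f_c⁻¹`, with `δ = c' - c` -/
noncomputable def gm (a δ : ℝ) (p : T2) : T2 :=
  (p.1 + (bb a (p.2 + (δ : UnitAddCircle)) - bb a p.2), p.2 + (δ : UnitAddCircle))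

lemma kf_kfi_ne (a c c' : ℝ) (q : T2) : kf a c' (kfi a c q) = gm a (c' - c) q := by
  rw [kf_eq]
  unfold kfi gm
  have e : q.2 - (c : UnitAddCircle) + (c' : UnitAddCircle) = q.2 + ((c' - c : ℝ) : UnitAddCircle) := by
    rw [AddCircle.coe_sub]
    abel
  simp only [e]
  ext
  · simp only
    abel
  · rfl

lemma mp_gm (a δ : ℝ) : MeasurePreserving (gm a δ) (volume : Measure T2) volume := by
  have h : gm a δ = kf a δ ∘ kfi a 0 := by
    funext q
    rw [Function.comp_apply, kf_kfi_ne, sub_zero]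
  rw [h]
  exact (mp_kf a δ).comp (mp_kfi a 0)

lemma gm_neg (a δ : ℝ) (p : T2) : gm a δ (gm a (-δ) p) = p := by
  unfold gm
  have e : p.2 + ((-δ : ℝ) : UnitAddCircle) + (δ : UnitAddCircle) = p.2 := by
    rw [AddCircle.coe_neg]
    abel
  simp only [e]
  ext
  · simp only
    abel
  · rfl

private lemma trig_h32 (a δ τ y : ℝ) :
    a * Real.sin (2 * π * (y + δ)) - a * Real.sin (2 * π * y) + (a * Real.sin (2 * π * (y - τ)) -
      a * Real.sin (2 * π * (y + δ - τ))) =
    -(4 * a * Real.sin (π * δ) * Real.sin (π * τ)) * Real.sin (2 * π * (y + (δ - τ) / 2)) := by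
  have e1 : 2 * π * (y + δ) = 2 * π * (y + (δ - τ) / 2) + (π * δ + π * τ) := by ring
  have e2 : 2 * π * y = 2 * π * (y + (δ - τ) / 2) - (π * δ - π * τ) := by ring
  have e3 : 2 * π * (y - τ) = 2 * π * (y + (δ - τ) / 2) - (π * δ + π * τ) := by ring
  have e4 : 2 * π * (y + δ - τ) = 2 * π * (y + (δ - τ) / 2) + (π * δ - π * τ) := by ring
  rw [e1, e2, e3, e4]
  generalize 2 * π * (y + (δ - τ) / 2) = z
  generalize π * δ = s
  generalize π * τ = t
  simp only [Real.sin_add, Real.sin_sub, Real.cos_add, Real.cos_sub]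
  ring

/-- the commutator of `gm a δ` and the vertical translation by `-τ` is a horizontal shear -/
lemma comm_gm (a δ τ : ℝ) (p : T2) :
    vt (τ : UnitAddCircle) (gm a (-δ) (vt (-(τ : UnitAddCircle)) (gm a δ p))) =
      hm (-(4 * a * Real.sin (π * δ) * Real.sin (π * τ))) (((δ - τ) / 2 : ℝ) : UnitAddCircle) p := by
  obtain ⟨X, Y⟩ := p
  induction Y using QuotientAddGroup.induction_on with
  | H y =>
  unfold vt gm hm bb
  have c1 : ∀ r : ℝ, (QuotientAddGroup.mk r : UnitAddCircle) = (r : UnitAddCircle) := fun r => rfl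
  have f1 : ((y : ℝ) : UnitAddCircle) + (δ : UnitAddCircle) = ((y + δ : ℝ) : UnitAddCircle) := by
    rw [AddCircle.coe_add]
  have f2 : ((y + δ : ℝ) : UnitAddCircle) + -(τ : UnitAddCircle) = ((y + δ - τ : ℝ) : UnitAddCircle) := by
    rw [AddCircle.coe_sub]
    abel
  have f3 : ((y + δ - τ : ℝ) : UnitAddCircle) + ((-δ : ℝ) : UnitAddCircle) = ((y - τ : ℝ) : UnitAddCircle) := by
    rw [← AddCircle.coe_add]
    congr 1
    ring
  have f4 : ((y : ℝ) : UnitAddCircle) + (((δ - τ) / 2 : ℝ) : UnitAddCircle) = ((y + (δ - τ) / 2 : ℝ) : UnitAddCircle) := by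
    rw [AddCircle.coe_add]
  have f5 : ((y - τ : ℝ) : UnitAddCircle) + (τ : UnitAddCircle) = ((y : ℝ) : UnitAddCircle) := by
    rw [← AddCircle.coe_add]
    congr 1
    ring
  simp only [f1, f2, f3, f4, f5, snn_coe]
  refine Prod.ext ?_ rfl
  rw [← trig_h32]
  simp only [AddCircle.coe_add, AddCircle.coe_sub]
  abel

/-- conjugation of a horizontal shear by a kicked map is a vertical shear -/
lemma conj_hm (a c D : ℝ) (κ : UnitAddCircle) (p : T2) :
    kfi a c (hm D κ (kf a c p)) = vm (-D) ((c : UnitAddCircle) + κ) p := by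
  rw [kf_eq]
  unfold kfi hm vm
  ext
  · simp only
    abel
  · simp only [neg_mul, AddCircle.coe_neg, add_assoc]
    abel

/-- conjugation of a horizontal shear by a vertical translation -/
lemma conj_vt (D : ℝ) (κ τ : UnitAddCircle) (p : T2) :
    vt (-τ) (hm D κ (vt τ p)) = hm D (κ + τ) p := by
  unfold vt hm
  have e : p.2 + τ + κ = p.2 + (κ + τ) := by abel
  simp only [e]
  ext
  · rfl
  · simp only
    abel

end Pool.Agent.Helper95.RX
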