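import Mathlib
import Pool.Agent.Helper95.RX.Defs
import Pool.Agent.Helper95.RX.BMf

/-! RX-TPM: multiplication of trigonometric polynomials by a cosine. -/

set_option autoImplicit false
open MeasureTheory Real Set Filter Topology
open scoped ComplexConjugate ENNReal

namespace Pool.Agent.Helper95.RX

variable {Z : Type} [MeasurableSpace Z]

private lemma csn_fourier11 (y : UnitAddCircle) :
    ((csn y : ℝ) : ℂ) = (fourier 1 y + fourier (-1) y) / 2 := by
  induction y using QuotientAddGroup.induction_on with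
  | H t =>
    change ((csn ((t : ℝ) : UnitAddCircle) : ℝ) : ℂ) =
      (fourier 1 ((t : ℝ) : UnitAddCircle) + fourier (-1) ((t : ℝ) : UnitAddCircle)) / 2
    rw [csn_coe, fourier_coe_apply, fourier_coe_apply, Complex.ofReal_cos, Complex.cos]
    congr 1
    congr 1
    · congr 1
      push_cast
      ring
    · congr 1
      push_cast
      ring

private lemma fourier_add_arg11 (n : ℤ) (x y : UnitAddCircle) :
    fourier n (x + y) = fourier n x * fourier n y := by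
  simp only [fourier_apply, smul_add, AddCircle.toCircle_add, Circle.coe_mul]

private lemma sum_shift11 (S S' : Finset (ℤ × ℤ)) (d : ℤ)
    (hS : S.image (fun ξ : ℤ × ℤ => ((ξ.1, ξ.2 + d) : ℤ × ℤ)) ⊆ S') (F : ℤ × ℤ → ℂ) :
    ∑ η ∈ S', (if ((η.1, η.2 - d) : ℤ × ℤ) ∈ S then F (η.1, η.2 - d) else 0) = ∑ ξ ∈ S, F ξ := by
  rw [← Finset.sum_filter]
  refine Finset.sum_nbij' (fun η => (η.1, η.2 - d)) (fun ξ => (ξ.1, ξ.2 + d)) ?_ ?_ ?_ ?_ ?_
  · intro η hη
    exact (Finset.mem_filter.1 hη).2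
  · intro ξ hξ
    rw [Finset.mem_filter]
    refine ⟨hS (Finset.mem_image_of_mem _ hξ), ?_⟩
    change ((ξ.1, ξ.2 + d - d) : ℤ × ℤ) ∈ S
    rw [add_sub_cancel_right]
    exact hξ
  · intro η _
    change ((η.1, η.2 - d + d) : ℤ × ℤ) = η
    rw [sub_add_cancel]
  · intro ξ _
    change ((ξ.1, ξ.2 + d - d) : ℤ × ℤ) = ξ
    rw [add_sub_cancel_right]
  · intro η _
    rfl

private lemma BM_ite11 {p : Prop} [Decidable p] {g : Z → ℂ} (hg : BM g) :
    BM (fun z => if p then g z else 0) := by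
  by_cases h : p
  · simp only [if_pos h]; exact hg
  · simp only [if_neg h]; exact BM.const 0

/-- multiplication by `cos 2π(Y + κ)` shifts the second frequency by `±1` -/
lemma tp_mul_csn (S : Finset (ℤ × ℤ)) {c : ℤ × ℤ → Z → ℂ} (hc : ∀ ξ, BM (c ξ))
    (κ : UnitAddCircle) : ∃ (S' : Finset (ℤ × ℤ)) (c' : ℤ × ℤ → Z → ℂ), (∀ ξ, BM (c' ξ)) ∧
      (∀ ξ ∈ S', ∃ ξ' ∈ S, ξ.1 = ξ'.1 ∧ |ξ.2| ≤ |ξ'.2| + 1) ∧
      ∀ w, (csn (w.1.2 + κ) : ℂ) * tp S c w = tp S' c' w := by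
  classical
  refine ⟨S.image (fun ξ : ℤ × ℤ => ((ξ.1, ξ.2 + 1) : ℤ × ℤ)) ∪ S.image (fun ξ : ℤ × ℤ => ((ξ.1, ξ.2 + -1) : ℤ × ℤ)),
    fun η z => (fourier 1 κ / 2) * (if ((η.1, η.2 - 1) : ℤ × ℤ) ∈ S then c (η.1, η.2 - 1) z else 0) +
      (fourier (-1) κ / 2) * (if ((η.1, η.2 - -1) : ℤ × ℤ) ∈ S then c (η.1, η.2 - -1) z else 0), ?_, ?_, ?_⟩
  · intro η
    exact ((BM_ite11 (hc _)).smul _).add ((BM_ite11 (hc _)).smul _)
  · intro η hη
    rcases Finset.mem_union.1 hη with h | h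
    · obtain ⟨ξ, hξ, rfl⟩ := Finset.mem_image.1 h
      refine ⟨ξ, hξ, rfl, ?_⟩
      have := abs_add_le ξ.2 1
      simpa using this
    · obtain ⟨ξ, hξ, rfl⟩ := Finset.mem_image.1 h
      refine ⟨ξ, hξ, rfl, ?_⟩
      have := abs_add_le ξ.2 (-1)
      simpa using this
  · intro w
    set X := w.1.1
    set Y := w.1.2
    set S' := S.image (fun ξ : ℤ × ℤ => ((ξ.1, ξ.2 + 1) : ℤ × ℤ)) ∪ S.image (fun ξ : ℤ × ℤ => ((ξ.1, ξ.2 + -1) : ℤ × ℤ)) with hS'
    have h1 := sum_shift11 S S' 1 Finset.subset_union_left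
      (fun ξ => (fourier 1 κ / 2) * (c ξ w.2 * (fourier ξ.1 X * fourier (ξ.2 + 1) Y)))
    have h2 := sum_shift11 S S' (-1) Finset.subset_union_right
      (fun ξ => (fourier (-1) κ / 2) * (c ξ w.2 * (fourier ξ.1 X * fourier (ξ.2 + -1) Y)))
    unfold tp
    have h3 : ∀ η ∈ S', ((fourier 1 κ / 2) * (if ((η.1, η.2 - 1) : ℤ × ℤ) ∈ S then c (η.1, η.2 - 1) w.2 else 0) +
      (fourier (-1) κ / 2) * (if ((η.1, η.2 - -1) : ℤ × ℤ) ∈ S then c (η.1, η.2 - -1) w.2 else 0)) *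
        (fourier η.1 X * fourier η.2 Y) =
        (if ((η.1, η.2 - 1) : ℤ × ℤ) ∈ S then (fourier 1 κ / 2) * (c (η.1, η.2 - 1) w.2 *
          (fourier η.1 X * fourier (η.2 - 1 + 1) Y)) else 0) +
        (if ((η.1, η.2 - -1) : ℤ × ℤ) ∈ S then (fourier (-1) κ / 2) * (c (η.1, η.2 - -1) w.2 *
          (fourier η.1 X * fourier (η.2 - -1 + -1) Y)) else 0) := by
      intro η _
      rw [sub_add_cancel, sub_add_cancel]
      split_ifs <;> ring
    rw [Finset.sum_congr rfl h3, Finset.sum_add_distrib]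
    refine Eq.trans ?_ (congrArg₂ (· + ·) h1.symm h2.symm)
    rw [← Finset.sum_add_distrib, Finset.mul_sum]
    refine Finset.sum_congr rfl fun ξ _ => ?_
    rw [csn_fourier11, fourier_add_arg11, fourier_add_arg11, fourier_add, fourier_add]
    ring

/-- sum of two trigonometric polynomials -/
lemma tp_add_smul (S S' : Finset (ℤ × ℤ)) {c c' : ℤ × ℤ → Z → ℂ} (hc : ∀ ξ, BM (c ξ))
    (hc' : ∀ ξ, BM (c' ξ)) (r : ℂ) : ∃ c'' : ℤ × ℤ → Z → ℂ, (∀ ξ, BM (c'' ξ)) ∧
      ∀ w, tp S c w + r * tp S' c' w = tp (S ∪ S') c'' w := by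
  classical
  refine ⟨fun ξ z => (if ξ ∈ S then c ξ z else 0) + r * (if ξ ∈ S' then c' ξ z else 0), ?_, ?_⟩
  · intro ξ
    exact (BM_ite11 (hc _)).add ((BM_ite11 (hc' _)).smul _)
  · intro w
    unfold tp
    have h1 : ∀ ξ ∈ S ∪ S', ((if ξ ∈ S then c ξ w.2 else 0) + r * (if ξ ∈ S' then c' ξ w.2 else 0)) *
        (fourier ξ.1 w.1.1 * fourier ξ.2 w.1.2) =
        (if ξ ∈ S then c ξ w.2 * (fourier ξ.1 w.1.1 * fourier ξ.2 w.1.2) else 0) +
        (if ξ ∈ S' then r * (c' ξ w.2 * (fourier ξ.1 w.1.1 * fourier ξ.2 w.1.2)) else 0) := by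
      intro ξ _
      split_ifs <;> ring
    rw [Finset.sum_congr rfl h1, Finset.sum_add_distrib, Finset.sum_ite_mem, Finset.sum_ite_mem,
      Finset.inter_eq_right.2 Finset.subset_union_left, Finset.inter_eq_right.2 Finset.subset_union_right,
      Finset.mul_sum]

/-- `cos²A + cos²B - 2 cos A cos B cos (B - A) = sin²(B - A)` on the circle -/
lemma csn_identity (x τ : UnitAddCircle) :
    csn x * (csn x - 2 * csn τ * csn (x + τ)) + csn (x + τ) * csn (x + τ) = snn τ ^ 2 := by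
  induction x using QuotientAddGroup.induction_on with
  | H a =>
    induction τ using QuotientAddGroup.induction_on with
    | H b =>
      change csn ((a : ℝ) : UnitAddCircle) * (csn ((a : ℝ) : UnitAddCircle) -
        2 * csn ((b : ℝ) : UnitAddCircle) * csn (((a + b : ℝ)) : UnitAddCircle)) +
        csn (((a + b : ℝ)) : UnitAddCircle) * csn (((a + b : ℝ)) : UnitAddCircle) =
        snn ((b : ℝ) : UnitAddCircle) ^ 2
      rw [csn_coe, csn_coe, csn_coe, snn_coe, mul_add, Real.cos_add]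
      have h1 := Real.sin_sq_add_cos_sq (2 * π * a)
      have h2 := Real.sin_sq_add_cos_sq (2 * π * b)
      have e1 : Real.sin (2 * π * a) ^ 2 = 1 - Real.cos (2 * π * a) ^ 2 := by linarith
      have e2 : Real.cos (2 * π * b) ^ 2 = 1 - Real.sin (2 * π * b) ^ 2 := by linarith
      linear_combination (Real.sin (2 * π * b) ^ 2) * e1 - (Real.cos (2 * π * a) ^ 2) * e2

end Pool.Agent.Helper95.RX
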