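import Mathlib
import Pool.Agent.Helper95.RX.Avg
import Pool.Agent.Helper95.RX.TpM
import Pool.Agent.Helper95.RX.KickB

/-! RX-CONEH: a function nearly invariant under a horizontal shear is nearly orthogonal to the
trigonometric polynomials with frequencies in a cone. -/

set_option autoImplicit false
open MeasureTheory Real Set Filter Topology
open scoped ComplexConjugate ENNReal

namespace Pool.Agent.Helper95.RX

attribute [local instance] Pool.Agent.Helper53.SM.instProbU Pool.Agent.Helper53.SM.instProbT2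

variable {Z : Type} [MeasurableSpace Z] {μ : Measure Z} [IsProbabilityMeasure μ]

lemma BM_csn (κ : UnitAddCircle) : BM (fun w : T2 × Z => (csn (w.1.2 + κ) : ℂ)) := by
  have hm : Measurable (fun w : T2 × Z => csn (w.1.2 + κ)) :=
    Pool.Agent.Helper78.SM.measurable_csn.comp
      ((measurable_snd.comp measurable_fst).add_const κ)
  refine ⟨Complex.measurable_ofReal.comp hm, 1, fun w => ?_⟩
  rw [Complex.norm_real]
  exact Pool.Agent.Helper78.SM.abs_csn_le _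

lemma RR_nonneg (D : ℝ) (J : ℕ) {e : ℝ} (he : 0 ≤ e) : 0 ≤ RR D J e := by
  unfold RR
  positivity

lemma RR_mono (D : ℝ) (J : ℕ) {e e' : ℝ} (he : e ≤ e') : RR D J e ≤ RR D J e' := by
  unfold RR
  have : (J:ℝ) * e ≤ J * e' := mul_le_mul_of_nonneg_left he (Nat.cast_nonneg J)
  linarith

lemma sqrt_ns (S : Finset (ℤ × ℤ)) {c : ℤ × ℤ → Z → ℂ} (hc : ∀ ξ ∈ S, BM (c ξ)) :
    Real.sqrt (ns μ S c) = N2 ((volume : Measure T2).prod μ) (tp S c) := by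
  rw [← N2_tp S hc, Real.sqrt_sq (N2_nonneg _)]

/-- the cone lemma, horizontal shears: `snn τ ^ 2 • w = χ w₁ + χ' w₂` with `χ' = cos 2π(Y+κ+τ)`,
`w₁ = (χ - 2 cos(2πτ) χ') w`, `w₂ = χ' w`, `‖w₁‖ ≤ 3‖w‖`, `‖w₂‖ ≤ ‖w‖`; `avg` for `hm D κ` and
for `hm D (κ + τ)` (`nr_conj`-type: near invariance `e + 2e'` by `nr_comp`, `nr_symm`,
`conj_vt`) -/
lemma cone_h {D : ℝ} (hD : D ≠ 0) {κ τ : UnitAddCircle} {s : ℝ} (hs : 0 < s) (hsτ : s ≤ |snn τ|)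
    {g : T2 × Z → ℂ} (hg : BM g) (hg1 : N2 ((volume : Measure T2).prod μ) g ≤ 1) {e e' : ℝ}
    (he' : 0 ≤ e') (h1 : nr μ g (hm D κ) e) (h2 : nr μ g (vt τ) e')
    (S : Finset (ℤ × ℤ)) (hS : ∀ ξ ∈ S, ξ.1 ≠ 0 ∧ |ξ.2| ≤ |ξ.1|)
    {c : ℤ × ℤ → Z → ℂ} (hc : ∀ ξ, BM (c ξ)) {J : ℕ} (hJ : 1 ≤ J) :
    ‖IP ((volume : Measure T2).prod μ) g (tp S c)‖ ≤
      4 / s ^ 2 * RR D J (e + 2 * e') * Real.sqrt (ns μ S c) := by
  have he : 0 ≤ e := by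
    obtain ⟨θ, _, h⟩ := h1
    exact (N2_nonneg _).trans h
  -- near invariance under the translated shear
  have hτ : nr μ g (vt (-τ)) e' := by
    refine nr_symm hg (mp_vt τ) (mp_vt (-τ)) ?_ h2
    intro p
    simp [vt]
  have hh := nr_comp hg (mp_hm D κ) (mp_vt τ) h1 h2
  have hh2 := nr_comp hg (mp_vt (-τ)) ((mp_hm D κ).comp (mp_vt τ)) hτ hh
  have h3 : nr μ g (hm D (κ + τ)) (e + 2 * e') := by
    have h4 := nr_mono hh2 (by linarith : e' + (e + e') ≤ e + 2 * e')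
    exact nr_congr h4 (fun p => (conj_vt D κ τ p).symm)
  -- the trigonometric polynomials
  obtain ⟨S₁, c₁, hc₁, hS₁, e₁⟩ := tp_mul_csn S hc κ
  obtain ⟨S₂, c₂, hc₂, hS₂, e₂⟩ := tp_mul_csn S hc (κ + τ)
  obtain ⟨c₃, hc₃, e₃⟩ := tp_add_smul S₁ S₂ hc₁ hc₂ (-(2 * csn τ : ℝ) : ℂ)
  have cone2 : ∀ (S' : Finset (ℤ × ℤ)), (∀ ξ ∈ S', ∃ ξ' ∈ S, ξ.1 = ξ'.1 ∧ |ξ.2| ≤ |ξ'.2| + 1) →
      ∀ ξ ∈ S', ξ.1 ≠ 0 ∧ |ξ.2| ≤ 2 * |ξ.1| := by
    intro S' hS' ξ hξ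
    obtain ⟨ξ', h5, h6, h7⟩ := hS' ξ hξ
    obtain ⟨h8, h9⟩ := hS ξ' h5
    rw [h6]
    refine ⟨h8, ?_⟩
    have : 1 ≤ |ξ'.1| := Int.one_le_abs h8
    linarith
  have k₂ := cone2 S₂ hS₂
  have k₃ : ∀ ξ ∈ S₁ ∪ S₂, ξ.1 ≠ 0 ∧ |ξ.2| ≤ 2 * |ξ.1| := by
    intro ξ hξ
    rcases Finset.mem_union.1 hξ with h | h
    · exact cone2 S₁ hS₁ ξ h
    · exact k₂ ξ h
  -- norms
  have bt : BM (tp S c) := BM_tp S (fun ξ _ => hc ξ)
  have bκ := BM_csn (Z := Z) κ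
  have bκ' := BM_csn (Z := Z) (κ + τ)
  have n₂ : Real.sqrt (ns μ S₂ c₂) ≤ Real.sqrt (ns μ S c) := by
    rw [sqrt_ns S₂ (fun ξ _ => hc₂ ξ), sqrt_ns S (fun ξ _ => hc ξ)]
    have h5 := N2_mul_le (μ := (volume : Measure T2).prod μ) bt bκ' (C := 1) (fun w => by
      rw [Complex.norm_real]; exact Pool.Agent.Helper78.SM.abs_csn_le _)
    rw [one_mul] at h5
    have h6 : (fun w : T2 × Z => (csn (w.1.2 + (κ + τ)) : ℂ) * tp S c w) = tp S₂ c₂ := funext e₂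
    rw [h6] at h5
    exact h5
  have e₃' : ∀ w, ((csn (w.1.2 + κ) : ℂ) + (-(2 * csn τ : ℝ) : ℂ) * (csn (w.1.2 + (κ + τ)) : ℂ)) *
      tp S c w = tp (S₁ ∪ S₂) c₃ w := by
    intro w
    rw [← e₃ w, ← e₁ w, ← e₂ w]
    ring
  have b₃ : BM (fun w : T2 × Z =>
      (csn (w.1.2 + κ) : ℂ) + (-(2 * csn τ : ℝ) : ℂ) * (csn (w.1.2 + (κ + τ)) : ℂ)) :=
    bκ.add (bκ'.smul _)
  have n₃ : Real.sqrt (ns μ (S₁ ∪ S₂) c₃) ≤ 3 * Real.sqrt (ns μ S c) := by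
    rw [sqrt_ns (S₁ ∪ S₂) (fun ξ _ => hc₃ ξ), sqrt_ns S (fun ξ _ => hc ξ)]
    have h5 := N2_mul_le (μ := (volume : Measure T2).prod μ) bt b₃ (C := 3) (fun w => by
      refine (norm_add_le _ _).trans ?_
      rw [norm_mul, norm_neg, Complex.norm_real, Complex.norm_real, Complex.norm_real,
        Real.norm_eq_abs, Real.norm_eq_abs, Real.norm_eq_abs, abs_mul, abs_two]
      have a1 := Pool.Agent.Helper78.SM.abs_csn_le (w.1.2 + κ)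
      have a2 := Pool.Agent.Helper78.SM.abs_csn_le τ
      have a3 := Pool.Agent.Helper78.SM.abs_csn_le (w.1.2 + (κ + τ))
      have a4 : |csn τ| * |csn (w.1.2 + (κ + τ))| ≤ 1 * 1 :=
        mul_le_mul a2 a3 (abs_nonneg _) zero_le_one
      nlinarith)
    have h6 : (fun w : T2 × Z => ((csn (w.1.2 + κ) : ℂ) + (-(2 * csn τ : ℝ) : ℂ) *
        (csn (w.1.2 + (κ + τ)) : ℂ)) * tp S c w) = tp (S₁ ∪ S₂) c₃ := funext e₃'
    rw [h6] at h5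
    exact h5
  -- averages
  obtain ⟨θ, hθ, r1⟩ := h1
  obtain ⟨θ', hθ', r3⟩ := h3
  have A1 := avg hD κ hθ hg hg1 r1 (S₁ ∪ S₂) k₃ (fun ξ _ => hc₃ ξ) hJ
  have A2 := avg hD (κ + τ) hθ' hg hg1 r3 S₂ k₂ (fun ξ _ => hc₂ ξ) hJ
  have b3 : BM (tp (S₁ ∪ S₂) c₃) := BM_tp _ (fun ξ _ => hc₃ ξ)
  have b2 : BM (tp S₂ c₂) := BM_tp _ (fun ξ _ => hc₂ ξ)
  have key : IP ((volume : Measure T2).prod μ) g (fun w => (((snn τ) ^ 2 : ℝ) : ℂ) * tp S c w) =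
      IP ((volume : Measure T2).prod μ) g (fun w => (csn (w.1.2 + κ) : ℂ) * tp (S₁ ∪ S₂) c₃ w) +
      IP ((volume : Measure T2).prod μ) g (fun w => (csn (w.1.2 + (κ + τ)) : ℂ) * tp S₂ c₂ w) := by
    rw [← IP_add_right hg (bκ.mul b3) (bκ'.mul b2)]
    congr 1
    funext w
    rw [← e₃' w, ← e₂ w, ← csn_identity (w.1.2 + κ) τ]
    have : w.1.2 + κ + τ = w.1.2 + (κ + τ) := add_assoc _ _ _
    rw [this]
    push_cast
    ring
  rw [IP_smul_right, Complex.conj_ofReal] at key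
  have h5 : (snn τ) ^ 2 * ‖IP ((volume : Measure T2).prod μ) g (tp S c)‖ ≤
      RR D J e * (3 * Real.sqrt (ns μ S c)) + RR D J (e + 2 * e') * Real.sqrt (ns μ S c) := by
    have h6 := congrArg norm key
    rw [norm_mul, Complex.norm_real, Real.norm_eq_abs, abs_of_nonneg (sq_nonneg _)] at h6
    rw [h6]
    refine (norm_add_le _ _).trans ?_
    have := RR_nonneg D J he
    have := RR_nonneg D J (by linarith : 0 ≤ e + 2 * e')
    refine add_le_add (A1.trans ?_) (A2.trans ?_)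
    · gcongr
    · gcongr
  have h7 : RR D J e ≤ RR D J (e + 2 * e') := RR_mono D J (by linarith)
  have h8 : s ^ 2 ≤ (snn τ) ^ 2 := by
    rw [← sq_abs (snn τ)]
    exact pow_le_pow_left₀ hs.le hsτ 2
  have h9 : 0 ≤ Real.sqrt (ns μ S c) := Real.sqrt_nonneg _
  have h10 : 0 ≤ ‖IP ((volume : Measure T2).prod μ) g (tp S c)‖ := norm_nonneg _
  have h11 : s ^ 2 * ‖IP ((volume : Measure T2).prod μ) g (tp S c)‖ ≤
      4 * RR D J (e + 2 * e') * Real.sqrt (ns μ S c) := by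
    have h12 : s ^ 2 * ‖IP ((volume : Measure T2).prod μ) g (tp S c)‖ ≤
        (snn τ) ^ 2 * ‖IP ((volume : Measure T2).prod μ) g (tp S c)‖ := by gcongr
    have h13 : RR D J e * (3 * Real.sqrt (ns μ S c)) ≤
        RR D J (e + 2 * e') * (3 * Real.sqrt (ns μ S c)) := by gcongr
    linarith
  have hs2 : 0 < s ^ 2 := by positivity
  rw [div_mul_eq_mul_div, div_mul_eq_mul_div, le_div_iff₀ hs2]
  linarith

end Pool.Agent.Helper95.RX
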