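import Mathlib
import Pool.Agent.Helper95.RX.ConeH

/-! RX-CONEV: the same for vertical shears. -/

set_option autoImplicit false
open MeasureTheory Real Set Filter Topology
open scoped ComplexConjugate ENNReal

namespace Pool.Agent.Helper95.RX

attribute [local instance] Pool.Agent.Helper53.SM.instProbU Pool.Agent.Helper53.SM.instProbT2

variable {Z : Type} [MeasurableSpace Z] {μ : Measure Z} [IsProbabilityMeasure μ]

/-- exchange of the coordinates of the first factor -/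
def sw (w : T2 × Z) : T2 × Z := (w.1.swap, w.2)

lemma mp_sw : MeasurePreserving (sw (Z := Z)) ((volume : Measure T2).prod μ)
    ((volume : Measure T2).prod μ) := by
  have h1 : MeasurePreserving (Prod.swap : T2 → T2) volume volume := Measure.measurePreserving_swap
  exact h1.prod (MeasurePreserving.id μ)

lemma nr_sw {g : T2 × Z → ℂ} (hg : BM g) {φ ψ : T2 → T2} (hψ : MeasurePreserving ψ volume volume)
    (h : ∀ p, (φ p).swap = ψ p.swap) {e : ℝ}
    (h1 : nr μ g ψ e) : nr μ (fun w => g (sw w)) φ e := by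
  obtain ⟨θ, hθ, h2⟩ := h1
  refine ⟨θ, hθ, ?_⟩
  unfold rl at h2 ⊢
  have hm : Measurable (fun w : T2 × Z => g (ψ w.1, θ w.2) - g w) := by
    apply Measurable.sub _ hg.1
    exact hg.1.comp ((hψ.measurable.comp measurable_fst).prodMk (θ.measurable.comp measurable_snd))
  have h3 := N2_comp (mp_sw (μ := μ)) hm
  have h4 : (fun w : T2 × Z => g (sw (φ w.1, θ w.2)) - g (sw w)) =
      fun v => g (ψ (sw v).1, θ (sw v).2) - g (sw v) := by
    funext v
    simp only [sw]
    rw [h]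
  rw [h4, h3]
  exact h2

/-- the cone lemma, vertical shears: from `cone_h` by exchanging the coordinates of `T2` -/
lemma cone_v {D : ℝ} (hD : D ≠ 0) {κ τ : UnitAddCircle} {s : ℝ} (hs : 0 < s) (hsτ : s ≤ |snn τ|)
    {g : T2 × Z → ℂ} (hg : BM g) (hg1 : N2 ((volume : Measure T2).prod μ) g ≤ 1) {e e' : ℝ}
    (he' : 0 ≤ e') (h1 : nr μ g (vm D κ) e) (h2 : nr μ g (ht τ) e')
    (S : Finset (ℤ × ℤ)) (hS : ∀ ξ ∈ S, ξ.2 ≠ 0 ∧ |ξ.1| ≤ |ξ.2|)
    {c : ℤ × ℤ → Z → ℂ} (hc : ∀ ξ, BM (c ξ)) {J : ℕ} (hJ : 1 ≤ J) :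
    ‖IP ((volume : Measure T2).prod μ) g (tp S c)‖ ≤
      4 / s ^ 2 * RR D J (e + 2 * e') * Real.sqrt (ns μ S c) := by
  have bg : BM (fun w => g (sw w)) := BM.comp (mp_sw (μ := μ)).measurable hg
  have n1 : N2 ((volume : Measure T2).prod μ) (fun w => g (sw w)) ≤ 1 := by
    rw [N2_comp (mp_sw (μ := μ)) hg.1]
    exact hg1
  have k1 : nr μ (fun w => g (sw w)) (hm D κ) e := nr_sw hg (mp_vm D κ) (fun p => rfl) h1
  have k2 : nr μ (fun w => g (sw w)) (vt τ) e' := nr_sw hg (mp_ht τ) (fun p => rfl) h2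
  have key := cone_h hD hs hsτ bg n1 he' k1 k2 (S.map (Equiv.prodComm ℤ ℤ).toEmbedding)
    (fun ξ hξ => by
      obtain ⟨ξ', h3, rfl⟩ := Finset.mem_map.1 hξ
      exact hS ξ' h3)
    (c := fun ξ => c ξ.swap) (fun ξ => hc _) hJ
  have e1 : ns μ (S.map (Equiv.prodComm ℤ ℤ).toEmbedding) (fun ξ => c ξ.swap) = ns μ S c := by
    unfold ns
    rw [Finset.sum_map]
    rfl
  have e2 : tp (S.map (Equiv.prodComm ℤ ℤ).toEmbedding) (fun ξ => c ξ.swap) =
      fun w => tp S c (sw w) := by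
    funext w
    unfold tp
    rw [Finset.sum_map]
    apply Finset.sum_congr rfl
    intro ξ _
    simp only [Equiv.coe_toEmbedding, Equiv.prodComm_apply, Prod.swap_swap, Prod.fst_swap,
      Prod.snd_swap, sw]
    ring
  rw [e1, e2, IP_comp (mp_sw (μ := μ)) hg.1 (BM_tp S (fun ξ _ => hc ξ)).1] at key
  exact key

end Pool.Agent.Helper95.RX
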