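import Mathlib
import Pool.Agent.Helper95.RX.Defs

/-! RX-CNS: the infinite product measure, splitting off kicks. -/

set_option autoImplicit false
open MeasureTheory Real Set Filter Topology
open scoped ComplexConjugate ENNReal

namespace Pool.Agent.Helper95.RX

/-- law of the kicks -/
noncomputable def PP (ν : ℕ → Measure ℝ) [∀ i, IsProbabilityMeasure (ν i)] : Measure (ℕ → ℝ) :=
  Measure.infinitePi ν

instance instPP (ν : ℕ → Measure ℝ) [∀ i, IsProbabilityMeasure (ν i)] :
    IsProbabilityMeasure (PP ν) := by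
  unfold PP; infer_instance

/-- prepend -/
def cns (q : ℝ × (ℕ → ℝ)) : ℕ → ℝ
  | 0 => q.1
  | n + 1 => q.2 n

lemma measurable_cns : Measurable cns := by
  rw [measurable_pi_iff]
  intro n
  cases n with
  | zero => exact measurable_fst
  | succ n => exact (measurable_pi_apply n).comp measurable_snd

/-- splitting off the first kick (`Measure.eq_infinitePi`) -/
lemma mp_cns (ν : ℕ → Measure ℝ) [∀ i, IsProbabilityMeasure (ν i)] :
    MeasurePreserving cns ((ν 0).prod (PP (fun i => ν (i + 1)))) (PP ν) := by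
  classical
  refine ⟨measurable_cns, ?_⟩
  conv_rhs => unfold PP
  apply Measure.eq_infinitePi
  intro s t ht
  obtain ⟨N, hN⟩ : ∃ N, s ⊆ Finset.range (N + 1) := by
    refine ⟨s.sup id, fun i hi => ?_⟩
    rw [Finset.mem_range, Nat.lt_succ_iff]
    exact Finset.le_sup (f := id) hi
  obtain ⟨t', ht'⟩ : ∃ t' : ℕ → Set ℝ, t' = fun i => if i ∈ s then t i else univ := ⟨_, rfl⟩
  have h1 : ∀ i ∈ s, t' i = t i := fun i hi => by rw [ht']; simp [hi]
  have h2 : ∀ i, i ∉ s → t' i = univ := fun i hi => by rw [ht']; simp [hi]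
  have hm : ∀ i, MeasurableSet (t' i) := fun i => by
    by_cases hi : i ∈ s
    · rw [h1 i hi]
      exact ht i
    · rw [h2 i hi]
      exact MeasurableSet.univ
  have e1 : Set.pi (s : Set ℕ) t = Set.pi ((Finset.range (N + 1) : Finset ℕ) : Set ℕ) t' := by
    ext ω
    simp only [Set.mem_pi, Finset.mem_coe]
    constructor
    · intro h i _
      by_cases hi : i ∈ s
      · rw [h1 i hi]
        exact h i hi
      · rw [h2 i hi]
        exact mem_univ _
    · intro h i hi
      rw [← h1 i hi]
      exact h i (hN hi)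
  have e2 : ∏ i ∈ s, ν i (t i) = ∏ i ∈ Finset.range (N + 1), ν i (t' i) := by
    rw [← Finset.prod_subset hN (fun i _ hi => by rw [h2 i hi, measure_univ])]
    exact Finset.prod_congr rfl fun i hi => by rw [h1 i hi]
  have e3 : cns ⁻¹' (Set.pi ((Finset.range (N + 1) : Finset ℕ) : Set ℕ) t') =
      t' 0 ×ˢ Set.pi ((Finset.range N : Finset ℕ) : Set ℕ) (fun i => t' (i + 1)) := by
    ext ⟨c, ω⟩
    simp only [Set.mem_preimage, Set.mem_pi, Finset.mem_coe, Finset.mem_range, Set.mem_prod]
    constructor
    · intro h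
      exact ⟨h 0 (by omega), fun i hi => h (i + 1) (by omega)⟩
    · rintro ⟨h, h'⟩ i hi
      cases i with
      | zero => exact h
      | succ i => exact h' i (by omega)
  rw [e1, Measure.map_apply measurable_cns
    (MeasurableSet.pi (Finset.countable_toSet _) fun i _ => hm i), e3, Measure.prod_prod]
  unfold PP
  rw [Measure.infinitePi_pi _ (fun i _ => hm (i + 1)), e2, Finset.prod_range_succ', mul_comm]

/-- splitting off the first `n` kicks: the shifted sequence has law `PP (ν (· + n))` -/
lemma mp_shift (ν : ℕ → Measure ℝ) [∀ i, IsProbabilityMeasure (ν i)] (n : ℕ) :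
    MeasurePreserving (fun (ω : ℕ → ℝ) i => ω (i + n)) (PP ν) (PP (fun i => ν (i + n))) := by
  classical
  have hmeas : Measurable (fun (ω : ℕ → ℝ) i => ω (i + n)) := by
    rw [measurable_pi_iff]
    exact fun i => measurable_pi_apply (i + n)
  refine ⟨hmeas, ?_⟩
  unfold PP
  apply Measure.eq_infinitePi
  intro s t ht
  rw [Measure.map_apply hmeas (MeasurableSet.pi (Finset.countable_toSet _) fun i _ => ht i)]
  have e1 : (fun (ω : ℕ → ℝ) i => ω (i + n)) ⁻¹' (Set.pi (s : Set ℕ) t) =
      Set.pi ((s.map (addRightEmbedding n) : Finset ℕ) : Set ℕ) (fun j => t (j - n)) := by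
    ext ω
    simp only [Set.mem_preimage, Set.mem_pi, Finset.mem_coe, Finset.mem_map,
      addRightEmbedding_apply]
    constructor
    · rintro h _ ⟨i, hi, rfl⟩
      rw [Nat.add_sub_cancel]
      exact h i hi
    · intro h i hi
      have := h (i + n) ⟨i, hi, rfl⟩
      rwa [Nat.add_sub_cancel] at this
  rw [e1, Measure.infinitePi_pi _ (fun i _ => ht (i - n)), Finset.prod_map]
  exact Finset.prod_congr rfl fun i _ => by simp

end Pool.Agent.Helper95.RX
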