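import Mathlib
import Pool.Agent.Helper95.RX.Cns
import Pool.Agent.Helper95.RX.Var

/-! RX-CMP: random compositions. -/

set_option autoImplicit false
open MeasureTheory Real Set Filter Topology
open scoped ComplexConjugate ENNReal

namespace Pool.Agent.Helper95.RX

variable {W : Type} [MeasurableSpace W]

lemma cmp_cns (F : ℕ → ℝ → W → W) (c : ℝ) (ω : ℕ → ℝ) (n : ℕ) (w : W) :
    cmp F (cns (c, ω)) (n + 1) w = cmp (fun i => F (i + 1)) ω n (F 0 c w) := by
  induction n with
  | zero => rfl
  | succ n ih =>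
    change F (n + 1) (cns (c, ω) (n + 1)) (cmp F (cns (c, ω)) (n + 1) w) = _
    rw [ih]
    rfl

lemma measurable_cmp {F : ℕ → ℝ → W → W} (hF : ∀ i, Measurable (fun q : ℝ × W => F i q.1 q.2))
    (n : ℕ) : Measurable (fun q : (ℕ → ℝ) × W => cmp F q.1 n q.2) := by
  induction n with
  | zero => exact measurable_snd
  | succ n ih =>
    exact (hF n).comp (((measurable_pi_apply n).comp measurable_fst).prodMk ih)

lemma mp_cmp {μ : Measure W} {F : ℕ → ℝ → W → W}
    (hFm : ∀ i c, MeasurePreserving (F i c) μ μ) (ω : ℕ → ℝ) (n : ℕ) :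
    MeasurePreserving (cmp F ω n) μ μ := by
  induction n with
  | zero => exact MeasurePreserving.id μ
  | succ n ih => exact (hFm n (ω n)).comp ih

/-- the averaging operators are expectations -/
theorem Qn_eq {F : ℕ → ℝ → W → W} (hF : ∀ i, Measurable (fun q : ℝ × W => F i q.1 q.2))
    (ν : ℕ → Measure ℝ) [∀ i, IsProbabilityMeasure (ν i)] {g : W → ℂ} (hg : BM g) (n : ℕ) (w : W) :
    Qn n F ν g w = ∫ ω, g (cmp F ω n w) ∂(PP ν) := by
  induction n generalizing F ν w with
  | zero =>
    change g w = ∫ _, g w ∂(PP ν)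
    rw [integral_const, probReal_univ, one_smul]
  | succ n ih =>
    have hF' : ∀ i, Measurable (fun q : ℝ × W => (fun i => F (i + 1)) i q.1 q.2) := fun i => hF (i + 1)
    change (∫ c, Qn n (fun i => F (i + 1)) (fun i => ν (i + 1)) g (F 0 c w) ∂(ν 0)) = _
    have h1 : ∀ c, Qn n (fun i => F (i + 1)) (fun i => ν (i + 1)) g (F 0 c w) =
        ∫ ω, g (cmp F (cns (c, ω)) (n + 1) w) ∂(PP fun i => ν (i + 1)) := by
      intro c
      rw [ih hF' (fun i => ν (i + 1))]
      refine integral_congr_ae (Eventually.of_forall fun ω => ?_)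
      simp only
      rw [cmp_cns]
    simp only [h1]
    have hm : Measurable fun ω : ℕ → ℝ => cmp F ω (n + 1) w :=
      (measurable_cmp hF (n + 1)).comp (measurable_id.prodMk measurable_const)
    have hB : BM fun ω : ℕ → ℝ => g (cmp F ω (n + 1) w) := hg.comp hm
    have hB2 : BM fun q : ℝ × (ℕ → ℝ) => g (cmp F (cns q) (n + 1) w) :=
      BM.comp (g := fun ω : ℕ → ℝ => g (cmp F ω (n + 1) w)) measurable_cns hB
    have hI := hB2.integrable (μ := (ν 0).prod (PP fun i => ν (i + 1)))
    have h2 := integral_prod _ hI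
    rw [← h2, ← (mp_cns ν).map_eq,
      integral_map measurable_cns.aemeasurable hB.1.aestronglyMeasurable]

/-- semigroup property -/
lemma cmp_add (F : ℕ → ℝ → W → W) (ω : ℕ → ℝ) (k n : ℕ) (w : W) :
    cmp F ω (k + n) w = cmp (fun i => F (i + k)) (fun i => ω (i + k)) n (cmp F ω k w) := by
  induction n with
  | zero => rfl
  | succ n ih =>
    change F (k + n) (ω (k + n)) (cmp F ω (k + n) w) = F (n + k) (ω (n + k)) _
    rw [ih, add_comm k n]

end Pool.Agent.Helper95.RX
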