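import Mathlib
import Pool.Agent.Helper95.RX.KickA
import Pool.Agent.Helper95.RX.Var
import Pool.Agent.Helper95.RX.BMf

/-! RX-PM: the pair maps. -/

set_option autoImplicit false
open MeasureTheory Real Set Filter Topology
open scoped ComplexConjugate ENNReal

namespace Pool.Agent.Helper95.RX

attribute [local instance] Pool.Agent.Helper53.SM.instProbU Pool.Agent.Helper53.SM.instProbT2

variable {Z : Type} [MeasurableSpace Z] {μ : Measure Z} [IsProbabilityMeasure μ]

omit [IsProbabilityMeasure μ] in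
/-- the pair map is jointly measurable and preserves the product measure -/
lemma meas_pm (a : ℕ → ℝ) (H : Sys Z μ) (i : ℕ) :
    Measurable (fun q : ℝ × (T2 × Z) => pm a H i q.1 q.2) := by
  unfold pm
  have h1 : Measurable (fun q : ℝ × T2 => kf (a i) q.1 q.2) := (continuous_kf (a i)).measurable
  have h2 := H.meas i
  have h3 : Measurable (fun q : ℝ × (T2 × Z) => (q.1, q.2.1)) :=
    measurable_fst.prodMk (measurable_fst.comp measurable_snd)
  have h4 : Measurable (fun q : ℝ × (T2 × Z) => (q.1, q.2.2)) :=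
    measurable_fst.prodMk (measurable_snd.comp measurable_snd)
  exact (h1.comp h3).prodMk (h2.comp h4)

lemma mp_pm (a : ℕ → ℝ) (H : Sys Z μ) (i : ℕ) (c : ℝ) :
    MeasurePreserving (pm a H i c) ((volume : Measure T2).prod μ) ((volume : Measure T2).prod μ) :=
  (mp_kf (a i) c).prod (H.mp i c)

private lemma int_comp_aux (φ : T2 → T2) (h : MeasurePreserving φ (volume : Measure T2) volume)
    (hE : MeasurableEmbedding φ) (g : T2 → ℂ) : ∫ p : T2, g (φ p) = ∫ p : T2, g p :=
  h.integral_comp hE g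

private lemma emb_kf (a c : ℝ) : MeasurableEmbedding (kf a c) := by
  have h := (kE a c).measurableEmbedding
  exact h

omit [IsProbabilityMeasure μ] in
private lemma bm_aux (a : ℕ → ℝ) (H : Sys Z μ) (i : ℕ) {g : T2 × Z → ℂ} (hg : BM g) (z : Z) :
    BM (Function.uncurry fun (p : T2) (c : ℝ) => g (pm a H i c (p, z))) := by
  have h0 : Measurable (fun q : T2 × ℝ => (q.2, ((q.1, z) : T2 × Z))) :=
    measurable_snd.prodMk (measurable_fst.prodMk measurable_const)
  have h2 := BM.comp ((meas_pm a H i).comp h0) hg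
  exact h2

private lemma swap_aux (ν : Measure ℝ) [IsProbabilityMeasure ν] (g : T2 → ℝ → ℂ)
    (h : BM (Function.uncurry g)) : ∫ p, (∫ c, g p c ∂ν) = ∫ c, (∫ p, g p c) ∂ν := by
  have h2 : Integrable (Function.uncurry g) ((volume : Measure T2).prod ν) := h.integrable
  exact integral_integral_swap h2

omit [IsProbabilityMeasure μ] in
private lemma zero_aux (a : ℕ → ℝ) (H : Sys Z μ) (i : ℕ) {g : T2 × Z → ℂ}
    (hmean : ∀ z, ∫ p : T2, g (p, z) = 0) (z : Z) (c : ℝ) :
    ∫ p : T2, g (pm a H i c (p, z)) = 0 := by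
  have h5 := int_comp_aux (kf (a i) c) (mp_kf (a i) c) (emb_kf (a i) c)
    (fun p => g (p, H.h i c z))
  rw [hmean] at h5
  exact h5

omit [IsProbabilityMeasure μ] in
/-- the fibre means stay zero -/
lemma mean_Qop (a : ℕ → ℝ) (H : Sys Z μ) (i : ℕ) (ν : Measure ℝ) [IsProbabilityMeasure ν]
    {g : T2 × Z → ℂ} (hg : BM g) (hmean : ∀ z, ∫ p : T2, g (p, z) = 0) :
    ∀ z, ∫ p : T2, Qop (pm a H i) ν g (p, z) = 0 := by
  intro z
  have h1 := swap_aux ν (fun (p : T2) (c : ℝ) => g (pm a H i c (p, z))) (bm_aux a H i hg z)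
  have h2 : ∫ c, (∫ p, g (pm a H i c (p, z))) ∂ν = 0 := by
    simp only [zero_aux a H i hmean z, integral_zero]
  exact h1.trans h2

end Pool.Agent.Helper95.RX
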