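import Mathlib
import Pool.Agent.Helper95.RX.Defs

/-! RX-NUM: choice of the number `J` of iterates. -/

set_option autoImplicit false
open MeasureTheory Real Set Filter Topology
open scoped ComplexConjugate ENNReal

namespace Pool.Agent.Helper95.RX

/-- `J = N³`, `N = ⌈45 / (√A s³)⌉`; `1 + log J ≤ 3 N`, `N ≤ 46 / (√A s³)` -/
lemma choose_J {A s : ℝ} (hA0 : 0 < A) (hA1 : A ≤ 1) (hs0 : 0 < s) (hs1 : s ≤ 1) :
    ∃ J : ℕ, 1 ≤ J ∧ (J:ℝ) ^ 2 ≤ 97336 ^ 2 / (A ^ 3 * s ^ 18) ∧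
      ∀ D : ℝ, A * s ^ 2 ≤ |D| →
        Real.sqrt ((1 + 10 / (2 * π * |D|) * (1 + Real.log J)) / J) ≤ s ^ 2 / 16 := by
  set B : ℝ := Real.sqrt A * s ^ 3 with hB
  have hsA : 0 < Real.sqrt A := Real.sqrt_pos.2 hA0
  have hsA1 : Real.sqrt A ≤ 1 := by
    rw [Real.sqrt_le_one]
    exact hA1
  have hB0 : 0 < B := by positivity
  have hB1 : B ≤ 1 := by
    have h1 : s ^ 3 ≤ 1 := pow_le_one₀ hs0.le hs1
    calc B ≤ 1 * 1 := mul_le_mul hsA1 h1 (by positivity) zero_le_one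
      _ = 1 := by ring
  have hB2 : B ^ 2 = A * s ^ 6 := by
    rw [hB, mul_pow, Real.sq_sqrt hA0.le]
    ring
  set N : ℕ := ⌈45 / B⌉₊ with hN
  have hN1 : 45 / B ≤ (N : ℝ) := Nat.le_ceil _
  have hN2 : (N : ℝ) ≤ 46 / B := by
    have h1 : (N : ℝ) < 45 / B + 1 := Nat.ceil_lt_add_one (by positivity)
    have h2 : 1 ≤ 1 / B := by
      rw [le_div_iff₀ hB0]; linarith
    have h3 : 46 / B = 45 / B + 1 / B := by ring
    linarith
  have hN45 : (45 : ℝ) ≤ N := by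
    have : (45 : ℝ) ≤ 45 / B := by
      rw [le_div_iff₀ hB0]; nlinarith
    linarith
  have hN0 : (0 : ℝ) < N := by linarith
  have hNn : 1 ≤ N := by
    have : (0 : ℝ) < N := hN0
    exact_mod_cast this
  refine ⟨N ^ 3, Nat.one_le_pow _ _ hNn, ?_, ?_⟩
  · push_cast
    have h1 : ((N : ℝ) ^ 3) ^ 2 = (N : ℝ) ^ 6 := by ring
    have h2 : (N : ℝ) ^ 6 ≤ (46 / B) ^ 6 := pow_le_pow_left₀ hN0.le hN2 6
    have h3 : (46 / B) ^ 6 = 97336 ^ 2 / (A ^ 3 * s ^ 18) := by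
      have h4 : B ^ 6 = A ^ 3 * s ^ 18 := by
        calc B ^ 6 = (B ^ 2) ^ 3 := by ring
          _ = A ^ 3 * s ^ 18 := by rw [hB2]; ring
      rw [div_pow, h4]
      norm_num
    rw [h1]
    exact h2.trans h3.le
  · intro D hD
    have hAs : 0 < A * s ^ 2 := by positivity
    have hAs1 : A * s ^ 2 ≤ 1 := by
      have h1 : s ^ 2 ≤ 1 := pow_le_one₀ hs0.le hs1
      calc A * s ^ 2 ≤ 1 * 1 := mul_le_mul hA1 h1 (by positivity) zero_le_one
        _ = 1 := by ring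
    have hD0 : 0 < |D| := lt_of_lt_of_le hAs hD
    have hlog : 1 + Real.log ((N ^ 3 : ℕ) : ℝ) ≤ 3 * N := by
      push_cast
      rw [Real.log_pow]
      have h1 := Real.log_le_sub_one_of_pos hN0
      push_cast
      linarith
    have hpi : (3.14 : ℝ) < π := Real.pi_gt_d2
    have h10 : 10 / (2 * π * |D|) ≤ 1.6 / (A * s ^ 2) := by
      rw [div_le_div_iff₀ (by positivity) hAs]
      nlinarith [mul_pos hD0 hAs, mul_le_mul hpi.le hD hAs.le (by positivity)]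
    have hnum : 1 + 10 / (2 * π * |D|) * (1 + Real.log ((N ^ 3 : ℕ) : ℝ)) ≤
        5 * N / (A * s ^ 2) := by
      have h1 : 10 / (2 * π * |D|) * (1 + Real.log ((N ^ 3 : ℕ) : ℝ)) ≤
          1.6 / (A * s ^ 2) * (3 * N) := by
        apply mul_le_mul h10 hlog _ (by positivity)
        have : 0 ≤ Real.log ((N ^ 3 : ℕ) : ℝ) := by
          apply Real.log_natCast_nonneg
        linarith
      have h2 : 1 ≤ 0.2 * N / (A * s ^ 2) := by
        rw [le_div_iff₀ hAs]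
        linarith
      have h3 : 5 * N / (A * s ^ 2) = 1.6 / (A * s ^ 2) * (3 * N) + 0.2 * N / (A * s ^ 2) := by
        field_simp
        ring
      rw [h3]
      linarith
    apply Real.sqrt_le_iff.mpr ⟨by positivity, ?_⟩
    push_cast at hnum ⊢
    rw [div_le_iff₀ (by positivity)]
    refine hnum.trans ?_
    rw [div_le_iff₀ hAs]
    have h4 : 2025 ≤ A * s ^ 6 * (N : ℝ) ^ 2 := by
      rw [← hB2, ← mul_pow]
      have h5 : 45 ≤ B * N := by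
        rw [div_le_iff₀ hB0] at hN1
        linarith
      calc (2025 : ℝ) = 45 ^ 2 := by norm_num
        _ ≤ (B * N) ^ 2 := pow_le_pow_left₀ (by norm_num) h5 2
    have h5 : (s ^ 2 / 16) ^ 2 * (N : ℝ) ^ 3 * (A * s ^ 2) = (A * s ^ 6 * (N : ℝ) ^ 2) * N / 256 := by
      ring
    rw [h5]
    nlinarith

/-- consequences for the step error `e = s²/(160 J)` and the gap `eta` -/
lemma choose_e {A s q : ℝ} (hA0 : 0 < A) (hA1 : A ≤ 1) (hs0 : 0 < s) (hs1 : s ≤ 1) (hq0 : 0 < q)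
    {J : ℕ} (hJ : 1 ≤ J) (hJ2 : (J:ℝ) ^ 2 ≤ 97336 ^ 2 / (A ^ 3 * s ^ 18)) :
    4 * eta A s q ≤ q * (s ^ 2 / (160 * J)) ^ 2 := by
  have hJ0 : (0 : ℝ) < J := by exact_mod_cast hJ
  rw [eta]
  have h1 : (s ^ 2 / (160 * J)) ^ 2 = s ^ 4 / (25600 * J ^ 2) := by
    rw [div_pow]
    ring
  rw [le_div_iff₀ (by positivity)] at hJ2
  rw [h1, mul_div_assoc' q (s ^ 4), le_div_iff₀ (by positivity)]
  have h2 : 4 * (q * s ^ 22 * A ^ 3 / 10 ^ 15) * (25600 * (J : ℝ) ^ 2) =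
      (J ^ 2 * (A ^ 3 * s ^ 18)) * (4 * 25600 / 10 ^ 15) * (q * s ^ 4) := by ring
  rw [h2]
  have h3 : (J : ℝ) ^ 2 * (A ^ 3 * s ^ 18) * (4 * 25600 / 10 ^ 15) ≤ 1 := by
    calc (J : ℝ) ^ 2 * (A ^ 3 * s ^ 18) * (4 * 25600 / 10 ^ 15) ≤
        97336 ^ 2 * (4 * 25600 / 10 ^ 15) := by gcongr
      _ ≤ 1 := by norm_num
  calc (J : ℝ) ^ 2 * (A ^ 3 * s ^ 18) * (4 * 25600 / 10 ^ 15) * (q * s ^ 4) ≤
      1 * (q * s ^ 4) := by gcongr
    _ = q * s ^ 4 := one_mul _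

/-- lower bound for the amplitude of the shears -/
lemma amp {A s a δ τ : ℝ} (hA0 : 0 < A) (ha : A ≤ |a|) (hs0 : 0 < s)
    (h1 : s ≤ |Real.sin (2 * π * δ)|) (h2 : s ≤ |Real.sin (2 * π * τ)|) :
    A * s ^ 2 ≤ |4 * a * Real.sin (π * δ) * Real.sin (π * τ)| := by
  have key : ∀ x : ℝ, s ≤ |Real.sin (2 * π * x)| → s / 2 ≤ |Real.sin (π * x)| := by
    intro x hx
    have e : 2 * π * x = 2 * (π * x) := by ring
    rw [e, Real.sin_two_mul, abs_mul, abs_mul, abs_two] at hx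
    have h3 := Real.abs_cos_le_one (π * x)
    have h4 := abs_nonneg (Real.sin (π * x))
    nlinarith
  have h3 := key δ h1
  have h4 := key τ h2
  rw [abs_mul, abs_mul, abs_mul, abs_of_pos (by norm_num : (0 : ℝ) < 4)]
  calc A * s ^ 2 = 4 * A * (s / 2) * (s / 2) := by ring
    _ ≤ 4 * |a| * |Real.sin (π * δ)| * |Real.sin (π * τ)| := by gcongr

end Pool.Agent.Helper95.RX
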