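import Mathlib
import Pool.Agent.Helper95.RX.Near
import Pool.Agent.Helper95.RX.KickB

/-! RX-WORDS: near invariance under shears and translations from four steps. -/

set_option autoImplicit false
open MeasureTheory Real Set Filter Topology
open scoped ComplexConjugate ENNReal

namespace Pool.Agent.Helper95.RX

attribute [local instance] Pool.Agent.Helper53.SM.instProbU Pool.Agent.Helper53.SM.instProbT2

variable {Z : Type} [MeasurableSpace Z] {μ : Measure Z} [IsProbabilityMeasure μ]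

/-- one step of the window: both kicked maps send `g'` close to `g` -/
structure Stp (μ : Measure Z) (g g' : T2 × Z → ℂ) (a c c' e : ℝ) : Prop where
  bm : BM g
  bm' : BM g'
  ex : ∃ θ : Z ≃ᵐ Z, MeasurePreserving θ μ μ ∧ rl μ g' g (kf a c) θ e
  ex' : ∃ θ : Z ≃ᵐ Z, MeasurePreserving θ μ μ ∧ rl μ g' g (kf a c') θ e

/-- horizontal translation, from one step (`nr_source`, `kfi_kf_ne`) -/
lemma words_ht {g g' : T2 × Z → ℂ} {a c c' e : ℝ} (h : Stp μ g g' a c c' e) :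
    nr μ g (ht ((c' - c : ℝ) : UnitAddCircle)) (2 * e) := by
  obtain ⟨θ, hθ, h1⟩ := h.ex
  obtain ⟨θ', hθ', h2⟩ := h.ex'
  exact nr_congr (nr_source h.bm h.bm' (mp_kf a c) (mp_kfi a c) (mp_kf a c') (kf_kfi a c) θ θ' hθ hθ' h1 h2)
    fun p => (kfi_kf_ne a c c' p).symm

/-- the map `gm`, from one step (`nr_target`, `kf_kfi_ne`) -/
lemma words_gm {g g' : T2 × Z → ℂ} {a c c' e : ℝ} (h : Stp μ g g' a c c' e) :
    nr μ g' (gm a (c' - c)) (2 * e) := by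
  obtain ⟨θ, hθ, h1⟩ := h.ex
  obtain ⟨θ', hθ', h2⟩ := h.ex'
  exact nr_congr (nr_target h.bm h.bm' (mp_kf a c) (mp_kfi a c) (mp_kf a c') (kf_kfi a c) θ θ' hθ hθ' h1 h2)
    fun p => (kf_kfi_ne a c c' p).symm

/-- vertical translation, from two steps (`nr_conj`, `conj_ht`) -/
lemma words_vt {g g' g'' : T2 × Z → ℂ} {a c c' a₂ c₂ c₂' e : ℝ} (h : Stp μ g g' a c c' e)
    (h₂ : Stp μ g' g'' a₂ c₂ c₂' e) :
    nr μ g (vt (-((c₂' - c₂ : ℝ) : UnitAddCircle))) (4 * e) := by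
  obtain ⟨θ, hθ, h1⟩ := h.ex
  have h2 := words_ht h₂
  have h3 := nr_conj h.bm h.bm' (mp_kf a c) (mp_kfi a c) (mp_ht _) (kf_kfi a c) θ hθ h1 h2
  exact nr_congr (nr_mono h3 (by linarith)) fun p => (conj_ht a c _ p).symm

private lemma vt_vt86 (τ : UnitAddCircle) (p : T2) : vt (-τ) (vt τ p) = p := by
  unfold vt
  ext
  · rfl
  · simp only
    abel

/-- horizontal shear, from three steps (`comm_gm`): two steps after `g₁`, one before -/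
lemma words_hm {g₀ g₁ g₂ g₃ : T2 × Z → ℂ} {a₀ c₀ c₀' a₁ c₁ c₁' a₂ c₂ c₂' e : ℝ}
    (h₀ : Stp μ g₀ g₁ a₀ c₀ c₀' e) (h₁ : Stp μ g₁ g₂ a₁ c₁ c₁' e) (h₂ : Stp μ g₂ g₃ a₂ c₂ c₂' e) :
    nr μ g₁ (hm (-(4 * a₀ * Real.sin (π * (c₀' - c₀)) * Real.sin (π * (c₂' - c₂))))
      ((((c₀' - c₀) - (c₂' - c₂)) / 2 : ℝ) : UnitAddCircle)) (12 * e) := by
  have hg : BM g₁ := h₁.bm
  have hA := words_gm h₀
  have hB := words_vt h₁ h₂
  have hC : nr μ g₁ (gm a₀ (-(c₀' - c₀))) (2 * e) :=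
    nr_symm hg (mp_gm _ _) (mp_gm _ _) (gm_neg a₀ (c₀' - c₀)) hA
  have hD : nr μ g₁ (vt ((c₂' - c₂ : ℝ) : UnitAddCircle)) (4 * e) :=
    nr_symm hg (mp_vt _) (mp_vt _) (vt_vt86 _) hB
  have h1 := nr_comp hg (mp_vt _) (mp_gm _ _) hB hA
  have h2 := nr_comp hg (mp_gm _ _) ((mp_vt _).comp (mp_gm _ _)) hC h1
  have h3 := nr_comp hg (mp_vt _) ((mp_gm _ _).comp ((mp_vt _).comp (mp_gm _ _))) hD h2
  exact nr_congr (nr_mono h3 (by linarith)) fun p => (comm_gm a₀ (c₀' - c₀) (c₂' - c₂) p).symm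

/-- vertical shear, from three steps after `g₁` (`words_hm` for `g₂`, `nr_conj`, `conj_hm`) -/
lemma words_vm {g₁ g₂ g₃ g₄ : T2 × Z → ℂ} {a₁ c₁ c₁' a₂ c₂ c₂' a₃ c₃ c₃' e : ℝ}
    (h₁ : Stp μ g₁ g₂ a₁ c₁ c₁' e)
    (h₂ : Stp μ g₂ g₃ a₂ c₂ c₂' e) (h₃ : Stp μ g₃ g₄ a₃ c₃ c₃' e) :
    nr μ g₁ (vm (4 * a₁ * Real.sin (π * (c₁' - c₁)) * Real.sin (π * (c₃' - c₃)))
      ((c₁ : UnitAddCircle) + ((((c₁' - c₁) - (c₃' - c₃)) / 2 : ℝ) : UnitAddCircle))) (14 * e) := by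
  obtain ⟨θ, hθ, h1⟩ := h₁.ex
  have h2 := words_hm h₁ h₂ h₃
  have h3 := nr_conj h₁.bm h₁.bm' (mp_kf a₁ c₁) (mp_kfi a₁ c₁) (mp_hm _ _) (kf_kfi a₁ c₁) θ hθ h1 h2
  refine nr_congr (nr_mono h3 (by linarith)) fun p => ?_
  rw [conj_hm, neg_neg]

end Pool.Agent.Helper95.RX
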