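import Mathlib
import Pool.Agent.Helper95.RX.Num
import Pool.Agent.Helper95.RX.Comb
import Pool.Agent.Helper95.RX.ConeV
import Pool.Agent.Helper95.RX.Words

/-! RX-SMALL: four nearly exact steps make the function small. -/

set_option autoImplicit false
open MeasureTheory Real Set Filter Topology
open scoped ComplexConjugate ENNReal

namespace Pool.Agent.Helper95.RX

attribute [local instance] Pool.Agent.Helper53.SM.instProbU Pool.Agent.Helper53.SM.instProbT2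

variable {Z : Type} [MeasurableSpace Z] {μ : Measure Z} [IsProbabilityMeasure μ]

lemma RR_le {s : ℝ} {D : ℝ} {J : ℕ} (hJ : 1 ≤ J)
    (hJD : Real.sqrt ((1 + 10 / (2 * π * |D|) * (1 + Real.log J)) / J) ≤ s ^ 2 / 16) {k : ℝ}
    (hk : k ≤ 20) : RR D J (k * (s ^ 2 / (160 * J))) ≤ s ^ 2 / 8 := by
  unfold RR
  have hJ0 : (0:ℝ) < J := by exact_mod_cast hJ
  have h1 : (J:ℝ) * (k * (s ^ 2 / (160 * J))) / 2 = k * (s ^ 2 / 320) := by
    field_simp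
    ring
  rw [h1]
  have h2 : k * (s ^ 2 / 320) ≤ 20 * (s ^ 2 / 320) := by
    apply mul_le_mul_of_nonneg_right hk
    positivity
  linarith

/-- four nearly exact steps make `g₁` small: `words_hm`, `words_vt`, `words_vm`, `words_ht`,
`cone_h`, `cone_v`, `comb` with `R = 1/2` -/
lemma small_of_steps {A s : ℝ} (hA0 : 0 < A) (hA1 : A ≤ 1) (hs0 : 0 < s) (hs1 : s ≤ 1) {J : ℕ}
    (hJ : 1 ≤ J) (hJD : ∀ D : ℝ, A * s ^ 2 ≤ |D| →
        Real.sqrt ((1 + 10 / (2 * π * |D|) * (1 + Real.log J)) / J) ≤ s ^ 2 / 16)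
    {g₀ g₁ g₂ g₃ g₄ : T2 × Z → ℂ} {a₀ c₀ c₀' a₁ c₁ c₁' a₂ c₂ c₂' a₃ c₃ c₃' : ℝ}
    (ha₀ : A ≤ |a₀|) (ha₁ : A ≤ |a₁|)
    (h₀ : Stp μ g₀ g₁ a₀ c₀ c₀' (s ^ 2 / (160 * J))) (h₁ : Stp μ g₁ g₂ a₁ c₁ c₁' (s ^ 2 / (160 * J)))
    (h₂ : Stp μ g₂ g₃ a₂ c₂ c₂' (s ^ 2 / (160 * J))) (h₃ : Stp μ g₃ g₄ a₃ c₃ c₃' (s ^ 2 / (160 * J)))
    (s₀ : s ≤ |Real.sin (2 * π * (c₀' - c₀))|) (s₁ : s ≤ |Real.sin (2 * π * (c₁' - c₁))|)
    (s₂ : s ≤ |Real.sin (2 * π * (c₂' - c₂))|) (s₃ : s ≤ |Real.sin (2 * π * (c₃' - c₃))|)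
    (hg1 : N2 ((volume : Measure T2).prod μ) g₁ ≤ 1) (hmean : ∀ z, ∫ p : T2, g₁ (p, z) = 0) :
    N2 ((volume : Measure T2).prod μ) g₁ ^ 2 ≤ 1 / 2 := by
  have hJ0 : (0:ℝ) < J := by exact_mod_cast hJ
  set e := s ^ 2 / (160 * J) with he
  have he0 : 0 < e := by rw [he]; positivity
  have w1 := words_ht h₁
  have w2 := words_vt h₁ h₂
  have w3 := words_hm h₀ h₁ h₂
  have w4 := words_vm h₁ h₂ h₃
  have d1 : A * s ^ 2 ≤ |-(4 * a₀ * Real.sin (π * (c₀' - c₀)) * Real.sin (π * (c₂' - c₂)))| := by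
    rw [abs_neg]
    exact amp hA0 ha₀ hs0 s₀ s₂
  have d2 : A * s ^ 2 ≤ |4 * a₁ * Real.sin (π * (c₁' - c₁)) * Real.sin (π * (c₃' - c₃))| :=
    amp hA0 ha₁ hs0 s₁ s₃
  have hpos : 0 < A * s ^ 2 := by positivity
  have n1 : -(4 * a₀ * Real.sin (π * (c₀' - c₀)) * Real.sin (π * (c₂' - c₂))) ≠ 0 := by
    intro h; rw [h, abs_zero] at d1; linarith
  have n2 : 4 * a₁ * Real.sin (π * (c₁' - c₁)) * Real.sin (π * (c₃' - c₃)) ≠ 0 := by
    intro h; rw [h, abs_zero] at d2; linarith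
  have t1 : s ≤ |snn ((c₁' - c₁ : ℝ) : UnitAddCircle)| := by rw [snn_coe]; exact s₁
  have t2 : s ≤ |snn (-((c₂' - c₂ : ℝ) : UnitAddCircle))| := by
    rw [← AddCircle.coe_neg, snn_coe, mul_neg, Real.sin_neg, abs_neg]; exact s₂
  have bm : BM g₁ := h₁.bm
  have key : N2 ((volume : Measure T2).prod μ) g₁ ^ 2 ≤ 2 * (1 / 2) ^ 2 := by
    apply comb bm hmean (by norm_num)
    · intro S c hS hc
      refine (cone_h n1 hs0 t2 bm hg1 (by positivity) w3 w2 S hS hc hJ).trans ?_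
      apply mul_le_mul_of_nonneg_right _ (Real.sqrt_nonneg _)
      have h5 : 12 * e + 2 * (4 * e) = 20 * e := by ring
      rw [h5]
      have h6 := RR_le (s := s) hJ (hJD _ d1) (le_refl 20)
      rw [← he] at h6
      calc 4 / s ^ 2 * RR _ J (20 * e) ≤ 4 / s ^ 2 * (s ^ 2 / 8) := by gcongr
        _ = 1 / 2 := by field_simp; norm_num
    · intro S c hS hc
      refine (cone_v n2 hs0 t1 bm hg1 (by positivity) w4 w1 S hS hc hJ).trans ?_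
      apply mul_le_mul_of_nonneg_right _ (Real.sqrt_nonneg _)
      have h5 : 14 * e + 2 * (2 * e) = 18 * e := by ring
      rw [h5]
      have h6 := RR_le (s := s) hJ (hJD _ d2) (by norm_num : (18:ℝ) ≤ 20)
      rw [← he] at h6
      calc 4 / s ^ 2 * RR _ J (18 * e) ≤ 4 / s ^ 2 * (s ^ 2 / 8) := by gcongr
        _ = 1 / 2 := by field_simp; norm_num
  norm_num at key ⊢
  exact key

end Pool.Agent.Helper95.RX
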