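import Mathlib
import Pool.Agent.Helper95.RX.Small
import Pool.Agent.Helper95.RX.PMp
import Pool.Agent.Helper95.RX.Sel

/-! RX-WIN: four steps contract the norm. -/

set_option autoImplicit false
open MeasureTheory Real Set Filter Topology
open scoped ComplexConjugate ENNReal

namespace Pool.Agent.Helper95.RX

attribute [local instance] Pool.Agent.Helper53.SM.instProbU Pool.Agent.Helper53.SM.instProbT2

variable {Z : Type} [MeasurableSpace Z] {μ : Measure Z} [IsProbabilityMeasure μ]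

lemma eta_pos {A s q : ℝ} (hA0 : 0 < A) (hs0 : 0 < s) (hq0 : 0 < q) : 0 < eta A s q := by
  unfold eta; positivity

lemma eta_le_half {A s q : ℝ} (hA0 : 0 < A) (hA1 : A ≤ 1) (hs0 : 0 < s) (hs1 : s ≤ 1)
    (hq0 : 0 < q) (hq1 : q ≤ 1) : eta A s q ≤ 1 / 2 := by
  unfold eta
  have h1 : s ^ 22 ≤ 1 := pow_le_one₀ hs0.le hs1
  have h2 : A ^ 3 ≤ 1 := pow_le_one₀ hA0.le hA1
  have h3 : q * s ^ 22 ≤ 1 := by
    calc q * s ^ 22 ≤ 1 * 1 := by gcongr
      _ = 1 := one_mul 1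
  have h4 : q * s ^ 22 * A ^ 3 ≤ 1 := by
    calc q * s ^ 22 * A ^ 3 ≤ 1 * 1 := by gcongr
      _ = 1 := one_mul 1
  rw [div_le_iff₀ (by positivity)]
  linarith

/-- one step of the window from the variance -/
lemma stp_of_select {a : ℕ → ℝ} (H : Sys Z μ) (j : ℕ) {ν : Measure ℝ} [IsProbabilityMeasure ν]
    {g : T2 × Z → ℂ} (hg : BM g) {s q e η : ℝ} (he : 0 < e) (hsp : Spread s q ν)
    (hη : N2 ((volume : Measure T2).prod μ) g ^ 2 -
      N2 ((volume : Measure T2).prod μ) (Qop (pm a H j) ν g) ^ 2 ≤ η)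
    (hq : 2 * η < q * e ^ 2) :
    ∃ c c' : ℝ, s ≤ |Real.sin (2 * π * (c' - c))| ∧
      Stp μ (Qop (pm a H j) ν g) g (a j) c c' e := by
  obtain ⟨c, c', h1, h2, h3⟩ := select (meas_pm a H j) (mp_pm a H j) hg he hsp hη hq
  refine ⟨c, c', h1, BM_Qop (meas_pm a H j) hg, hg, ⟨H.h j c, H.mp j c, h2⟩, ⟨H.h j c', H.mp j c', h3⟩⟩

/-- four steps, normalised: contradiction from `select` at each of the four steps (with
`e = s²/(160 J)`, `η = eta`; `choose_J`, `choose_e`), `small_of_steps` -/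
theorem window_one {A s q : ℝ} (hA0 : 0 < A) (hA1 : A ≤ 1) (hs0 : 0 < s) (hs1 : s ≤ 1)
    (hq0 : 0 < q) (hq1 : q ≤ 1) {a : ℕ → ℝ} (ha : ∀ i, A ≤ |a i|) (H : Sys Z μ)
    {ν : ℕ → Measure ℝ} (hν : ∀ i, IsProbabilityMeasure (ν i)) (hsp : ∀ i, Spread s q (ν i))
    {g : T2 × Z → ℂ} (hg : BM g) (hmean : ∀ z, ∫ p : T2, g (p, z) = 0)
    (hg1 : N2 ((volume : Measure T2).prod μ) g = 1) :
    N2 ((volume : Measure T2).prod μ) (Qop (pm a H 0) (ν 0) (Qop (pm a H 1) (ν 1)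
      (Qop (pm a H 2) (ν 2) (Qop (pm a H 3) (ν 3) g)))) ^ 2 ≤ 1 - eta A s q := by
  obtain ⟨J, hJ, hJ2, hJD⟩ := choose_J hA0 hA1 hs0 hs1
  have he4 := choose_e hA0 hA1 hs0 hs1 hq0 hJ hJ2
  have hJ0 : (0:ℝ) < J := by exact_mod_cast hJ
  have he : 0 < s ^ 2 / (160 * J) := by positivity
  have hη0 := eta_pos hA0 hs0 hq0
  have hη2 := eta_le_half hA0 hA1 hs0 hs1 hq0 hq1
  have hlt : 2 * eta A s q < q * (s ^ 2 / (160 * J)) ^ 2 := by linarith
  by_contra hcon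
  push Not at hcon
  set G3 := Qop (pm a H 3) (ν 3) g with hG3
  set G2 := Qop (pm a H 2) (ν 2) G3 with hG2
  set G1 := Qop (pm a H 1) (ν 1) G2 with hG1
  set G0 := Qop (pm a H 0) (ν 0) G1 with hG0
  have b3 : BM G3 := BM_Qop (meas_pm a H 3) hg
  have b2 : BM G2 := BM_Qop (meas_pm a H 2) b3
  have b1 : BM G1 := BM_Qop (meas_pm a H 1) b2
  have n3 : N2 ((volume : Measure T2).prod μ) G3 ≤ N2 ((volume : Measure T2).prod μ) g :=
    N2_Qop_le (meas_pm a H 3) (mp_pm a H 3) hg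
  have n2 : N2 ((volume : Measure T2).prod μ) G2 ≤ N2 ((volume : Measure T2).prod μ) G3 :=
    N2_Qop_le (meas_pm a H 2) (mp_pm a H 2) b3
  have n1 : N2 ((volume : Measure T2).prod μ) G1 ≤ N2 ((volume : Measure T2).prod μ) G2 :=
    N2_Qop_le (meas_pm a H 1) (mp_pm a H 1) b2
  have n0 : N2 ((volume : Measure T2).prod μ) G0 ≤ N2 ((volume : Measure T2).prod μ) G1 :=
    N2_Qop_le (meas_pm a H 0) (mp_pm a H 0) b1
  have z0 : 0 ≤ N2 ((volume : Measure T2).prod μ) G0 := N2_nonneg _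
  have q0 : N2 ((volume : Measure T2).prod μ) G0 ^ 2 ≤ N2 ((volume : Measure T2).prod μ) G1 ^ 2 := by
    gcongr
  have q1 : N2 ((volume : Measure T2).prod μ) G1 ^ 2 ≤ N2 ((volume : Measure T2).prod μ) G2 ^ 2 :=
    pow_le_pow_left₀ (z0.trans n0) n1 2
  have q2 : N2 ((volume : Measure T2).prod μ) G2 ^ 2 ≤ N2 ((volume : Measure T2).prod μ) G3 ^ 2 :=
    pow_le_pow_left₀ ((z0.trans n0).trans n1) n2 2
  have q3 : N2 ((volume : Measure T2).prod μ) G3 ^ 2 ≤ N2 ((volume : Measure T2).prod μ) g ^ 2 :=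
    pow_le_pow_left₀ (((z0.trans n0).trans n1).trans n2) n3 2
  have q4 : N2 ((volume : Measure T2).prod μ) g ^ 2 = 1 := by rw [hg1]; norm_num
  obtain ⟨c₃, c₃', s₃, h₃⟩ := stp_of_select H 3 (ν := ν 3) (a := a) hg he (hsp 3)
    (η := eta A s q) (by rw [← hG3]; linarith) hlt
  obtain ⟨c₂, c₂', s₂, h₂⟩ := stp_of_select H 2 (ν := ν 2) (a := a) b3 he (hsp 2)
    (η := eta A s q) (by rw [← hG2]; linarith) hlt
  obtain ⟨c₁, c₁', s₁, h₁⟩ := stp_of_select H 1 (ν := ν 1) (a := a) b2 he (hsp 1)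
    (η := eta A s q) (by rw [← hG1]; linarith) hlt
  obtain ⟨c₀, c₀', s₀, h₀⟩ := stp_of_select H 0 (ν := ν 0) (a := a) b1 he (hsp 0)
    (η := eta A s q) (by rw [← hG0]; linarith) hlt
  have m3 := mean_Qop a H 3 (ν 3) hg hmean
  have m2 := mean_Qop a H 2 (ν 2) b3 m3
  have m1 := mean_Qop a H 1 (ν 1) b2 m2
  have hG1le : N2 ((volume : Measure T2).prod μ) G1 ≤ 1 := by linarith
  have := small_of_steps hA0 hA1 hs0 hs1 hJ hJD (ha 0) (ha 1) h₀ h₁ h₂ h₃ s₀ s₁ s₂ s₃ hG1le m1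
  linarith

/-- four steps, by homogeneity -/
theorem window {A s q : ℝ} (hA0 : 0 < A) (hA1 : A ≤ 1) (hs0 : 0 < s) (hs1 : s ≤ 1)
    (hq0 : 0 < q) (hq1 : q ≤ 1) {a : ℕ → ℝ} (ha : ∀ i, A ≤ |a i|) (H : Sys Z μ)
    {ν : ℕ → Measure ℝ} (hν : ∀ i, IsProbabilityMeasure (ν i)) (hsp : ∀ i, Spread s q (ν i))
    {g : T2 × Z → ℂ} (hg : BM g) (hmean : ∀ z, ∫ p : T2, g (p, z) = 0) :
    N2 ((volume : Measure T2).prod μ) (Qop (pm a H 0) (ν 0) (Qop (pm a H 1) (ν 1)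
      (Qop (pm a H 2) (ν 2) (Qop (pm a H 3) (ν 3) g)))) ^ 2 ≤
      (1 - eta A s q) * N2 ((volume : Measure T2).prod μ) g ^ 2 := by
  have hη2 := eta_le_half hA0 hA1 hs0 hs1 hq0 hq1
  rcases (N2_nonneg (μ := (volume : Measure T2).prod μ) g).eq_or_lt with h0 | h0
  · -- zero norm
    have b3 : BM (Qop (pm a H 3) (ν 3) g) := BM_Qop (meas_pm a H 3) hg
    have b2 : BM (Qop (pm a H 2) (ν 2) (Qop (pm a H 3) (ν 3) g)) := BM_Qop (meas_pm a H 2) b3
    have b1 : BM (Qop (pm a H 1) (ν 1) (Qop (pm a H 2) (ν 2) (Qop (pm a H 3) (ν 3) g))) :=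
      BM_Qop (meas_pm a H 1) b2
    have n3 := N2_Qop_le (ν := ν 3) (meas_pm a H 3) (mp_pm a H 3) hg
    have n2 := N2_Qop_le (ν := ν 2) (meas_pm a H 2) (mp_pm a H 2) b3
    have n1 := N2_Qop_le (ν := ν 1) (meas_pm a H 1) (mp_pm a H 1) b2
    have n0 := N2_Qop_le (ν := ν 0) (meas_pm a H 0) (mp_pm a H 0) b1
    have z0 := N2_nonneg (μ := (volume : Measure T2).prod μ) (Qop (pm a H 0) (ν 0)
      (Qop (pm a H 1) (ν 1) (Qop (pm a H 2) (ν 2) (Qop (pm a H 3) (ν 3) g))))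
    have : N2 ((volume : Measure T2).prod μ) (Qop (pm a H 0) (ν 0)
      (Qop (pm a H 1) (ν 1) (Qop (pm a H 2) (ν 2) (Qop (pm a H 3) (ν 3) g)))) = 0 := by
      apply le_antisymm _ z0
      linarith
    rw [this, ← h0]
    norm_num
  · set r := N2 ((volume : Measure T2).prod μ) g with hr
    have hr0 : r ≠ 0 := h0.ne'
    have hcg : BM (fun w => ((r⁻¹ : ℝ) : ℂ) * g w) := BM.smul _ hg
    have hm' : ∀ z, ∫ p : T2, ((r⁻¹ : ℝ) : ℂ) * g (p, z) = 0 := by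
      intro z
      rw [integral_const_mul, hmean z, mul_zero]
    have hn : N2 ((volume : Measure T2).prod μ) (fun w => ((r⁻¹ : ℝ) : ℂ) * g w) = 1 := by
      rw [N2_smul, ← hr]
      rw [Complex.norm_real, Real.norm_eq_abs, abs_of_pos (by positivity)]
      exact inv_mul_cancel₀ hr0
    have key := window_one hA0 hA1 hs0 hs1 hq0 hq1 ha H hν hsp hcg hm' hn
    have e3 : Qop (pm a H 3) (ν 3) (fun w => ((r⁻¹ : ℝ) : ℂ) * g w) =
        fun w => ((r⁻¹ : ℝ) : ℂ) * Qop (pm a H 3) (ν 3) g w := funext (Qop_smul _ _)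
    have e2 : Qop (pm a H 2) (ν 2) (fun w => ((r⁻¹ : ℝ) : ℂ) * Qop (pm a H 3) (ν 3) g w) =
        fun w => ((r⁻¹ : ℝ) : ℂ) * Qop (pm a H 2) (ν 2) (Qop (pm a H 3) (ν 3) g) w :=
      funext (Qop_smul _ _)
    have e1 : Qop (pm a H 1) (ν 1)
        (fun w => ((r⁻¹ : ℝ) : ℂ) * Qop (pm a H 2) (ν 2) (Qop (pm a H 3) (ν 3) g) w) =
        fun w => ((r⁻¹ : ℝ) : ℂ) * Qop (pm a H 1) (ν 1)
          (Qop (pm a H 2) (ν 2) (Qop (pm a H 3) (ν 3) g)) w := funext (Qop_smul _ _)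
    have e0 : Qop (pm a H 0) (ν 0)
        (fun w => ((r⁻¹ : ℝ) : ℂ) * Qop (pm a H 1) (ν 1)
          (Qop (pm a H 2) (ν 2) (Qop (pm a H 3) (ν 3) g)) w) =
        fun w => ((r⁻¹ : ℝ) : ℂ) * Qop (pm a H 0) (ν 0) (Qop (pm a H 1) (ν 1)
          (Qop (pm a H 2) (ν 2) (Qop (pm a H 3) (ν 3) g))) w := funext (Qop_smul _ _)
    rw [e3, e2, e1, e0, N2_smul, Complex.norm_real, Real.norm_eq_abs,
      abs_of_pos (by positivity), mul_pow] at key
    have hr2 : 0 < r ^ 2 := by positivity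
    have h5 := mul_le_mul_of_nonneg_left key hr2.le
    have h6 : r ^ 2 * (r⁻¹ ^ 2 * N2 ((volume : Measure T2).prod μ) (Qop (pm a H 0) (ν 0)
        (Qop (pm a H 1) (ν 1) (Qop (pm a H 2) (ν 2) (Qop (pm a H 3) (ν 3) g)))) ^ 2) =
        N2 ((volume : Measure T2).prod μ) (Qop (pm a H 0) (ν 0)
        (Qop (pm a H 1) (ν 1) (Qop (pm a H 2) (ν 2) (Qop (pm a H 3) (ν 3) g)))) ^ 2 := by
      rw [← mul_assoc, ← mul_pow, mul_inv_cancel₀ hr0, one_pow, one_mul]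
    rw [h6] at h5
    linarith

lemma BM_Qn {a : ℕ → ℝ} {ν : ℕ → Measure ℝ} (hν : ∀ i, IsProbabilityMeasure (ν i))
    (H : Sys Z μ) {g : T2 × Z → ℂ} (hg : BM g) (n : ℕ) : BM (Qn n (pm a H) ν g) := by
  induction n generalizing a ν H with
  | zero => exact hg
  | succ n ih =>
    show BM (Qop (pm a H 0) (ν 0) (Qn n (fun i => pm a H (i + 1)) (fun i => ν (i + 1)) g))
    apply BM_Qop (meas_pm a H 0)
    exact ih (a := fun i => a (i + 1)) (ν := fun i => ν (i + 1)) (fun i => hν (i + 1)) (H.shift 1)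

lemma mean_Qn {a : ℕ → ℝ} {ν : ℕ → Measure ℝ} (hν : ∀ i, IsProbabilityMeasure (ν i))
    (H : Sys Z μ) {g : T2 × Z → ℂ} (hg : BM g) (hmean : ∀ z, ∫ p : T2, g (p, z) = 0) (n : ℕ) :
    ∀ z, ∫ p : T2, Qn n (pm a H) ν g (p, z) = 0 := by
  induction n generalizing a ν H with
  | zero => exact hmean
  | succ n ih =>
    have h1 := ih (a := fun i => a (i + 1)) (ν := fun i => ν (i + 1)) (fun i => hν (i + 1)) (H.shift 1)
    have h2 := BM_Qn (a := fun i => a (i + 1)) (ν := fun i => ν (i + 1)) (fun i => hν (i + 1))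
      (H.shift 1) hg n
    exact mean_Qop a H 0 (ν 0) h2 h1

lemma N2_Qn_le {a : ℕ → ℝ} {ν : ℕ → Measure ℝ} (hν : ∀ i, IsProbabilityMeasure (ν i))
    (H : Sys Z μ) {g : T2 × Z → ℂ} (hg : BM g) (n : ℕ) :
    N2 ((volume : Measure T2).prod μ) (Qn n (pm a H) ν g) ≤
      N2 ((volume : Measure T2).prod μ) g := by
  induction n generalizing a ν H with
  | zero => exact le_refl _
  | succ n ih =>
    have h1 := ih (a := fun i => a (i + 1)) (ν := fun i => ν (i + 1)) (fun i => hν (i + 1)) (H.shift 1)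
    have h2 := BM_Qn (a := fun i => a (i + 1)) (ν := fun i => ν (i + 1)) (fun i => hν (i + 1))
      (H.shift 1) hg n
    exact (N2_Qop_le (ν := ν 0) (meas_pm a H 0) (mp_pm a H 0) h2).trans h1

/-- all steps -/
theorem decay {A s q : ℝ} (hA0 : 0 < A) (hA1 : A ≤ 1) (hs0 : 0 < s) (hs1 : s ≤ 1)
    (hq0 : 0 < q) (hq1 : q ≤ 1) {a : ℕ → ℝ} (ha : ∀ i, A ≤ |a i|) (H : Sys Z μ)
    {ν : ℕ → Measure ℝ} (hν : ∀ i, IsProbabilityMeasure (ν i)) (hsp : ∀ i, Spread s q (ν i))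
    {g : T2 × Z → ℂ} (hg : BM g) (hmean : ∀ z, ∫ p : T2, g (p, z) = 0) (n : ℕ) :
    N2 ((volume : Measure T2).prod μ) (Qn n (pm a H) ν g) ^ 2 ≤
      (1 - eta A s q) ^ (n / 4) * N2 ((volume : Measure T2).prod μ) g ^ 2 := by
  have hη0 := eta_pos hA0 hs0 hq0
  have hη2 := eta_le_half hA0 hA1 hs0 hs1 hq0 hq1
  induction n using Nat.strong_induction_on generalizing a ν H with
  | _ n ih =>
  rcases Nat.lt_or_ge n 4 with hn | hn
  · rw [Nat.div_eq_of_lt hn, pow_zero, one_mul]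
    exact pow_le_pow_left₀ (N2_nonneg _) (N2_Qn_le hν H hg n) 2
  · obtain ⟨m, rfl⟩ : ∃ m, n = m + 4 := ⟨n - 4, by omega⟩
    have h1 := ih m (by omega) (a := fun i => a (i + 4)) (ν := fun i => ν (i + 4))
      (fun i => ha (i + 4)) (H.shift 4) (fun i => hν (i + 4)) (fun i => hsp (i + 4))
    have h2 := BM_Qn (a := fun i => a (i + 4)) (ν := fun i => ν (i + 4)) (fun i => hν (i + 4))
      (H.shift 4) hg m
    have h3 := mean_Qn (a := fun i => a (i + 4)) (ν := fun i => ν (i + 4)) (fun i => hν (i + 4))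
      (H.shift 4) hg hmean m
    have h4 := window hA0 hA1 hs0 hs1 hq0 hq1 ha H hν hsp h2 h3
    have e : Qn (m + 4) (pm a H) ν g = Qop (pm a H 0) (ν 0) (Qop (pm a H 1) (ν 1)
        (Qop (pm a H 2) (ν 2) (Qop (pm a H 3) (ν 3)
        (Qn m (pm (fun i => a (i + 4)) (H.shift 4)) (fun i => ν (i + 4)) g)))) := rfl
    rw [e]
    refine h4.trans ?_
    have h5 : 0 ≤ 1 - eta A s q := by linarith
    rw [Nat.add_div_right _ (by norm_num : 0 < 4), pow_succ]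
    calc (1 - eta A s q) * N2 ((volume : Measure T2).prod μ)
          (Qn m (pm (fun i => a (i + 4)) (H.shift 4)) (fun i => ν (i + 4)) g) ^ 2 ≤
        (1 - eta A s q) * ((1 - eta A s q) ^ (m / 4) * N2 ((volume : Measure T2).prod μ) g ^ 2) := by
          gcongr
      _ = _ := by ring

end Pool.Agent.Helper95.RX
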