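import Mathlib
import Pool.Agent.Helper95.RX.Win
import Pool.Agent.Helper95.RX.Cmp

/-! RX-QUE: two-point motion, variance bound for the quenched correlations. -/

set_option autoImplicit false
open MeasureTheory Real Set Filter Topology
open scoped ComplexConjugate ENNReal

namespace Pool.Agent.Helper95.RX

attribute [local instance] Pool.Agent.Helper53.SM.instProbU Pool.Agent.Helper53.SM.instProbT2

/-- the random composition on the torus -/
noncomputable def XT (a : ℕ → ℝ) (ω : ℕ → ℝ) (n : ℕ) (p : T2) : T2 :=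
  cmp (fun i c => kf (a i) c) ω n p

/-- the norm of `n` steps -/
noncomputable def rho (A s q : ℝ) (n : ℕ) : ℝ := Real.sqrt ((1 - eta A s q) ^ (n / 4))

/-- the second factor of the two-point motion -/
noncomputable def Htwo (a : ℕ → ℝ) : Sys T2 (volume : Measure T2) where
  h := fun i c => kE (a i) c
  mp := fun i c => mp_kf (a i) c
  meas := fun i => (continuous_kf (a i)).measurable

lemma cmp_pair (a : ℕ → ℝ) (ω : ℕ → ℝ) (n : ℕ) (w : T2 × T2) :
    cmp (pm a (Htwo a)) ω n w = (XT a ω n w.1, XT a ω n w.2) := by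
  induction n with
  | zero => rfl
  | succ n ih =>
    show pm a (Htwo a) n (ω n) (cmp (pm a (Htwo a)) ω n w) = _
    rw [ih]
    rfl

lemma measurable_XT (a : ℕ → ℝ) (n : ℕ) :
    Measurable (fun q : (ℕ → ℝ) × T2 => XT a q.1 n q.2) :=
  measurable_cmp (F := fun i c => kf (a i) c) (fun i => (continuous_kf (a i)).measurable) n

lemma mp_XT (a : ℕ → ℝ) (ω : ℕ → ℝ) (n : ℕ) :
    MeasurePreserving (XT a ω n) (volume : Measure T2) volume :=
  mp_cmp (F := fun i c => kf (a i) c) (fun i c => mp_kf (a i) c) ω n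

variable {A s q : ℝ} {a : ℕ → ℝ} {ν : ℕ → Measure ℝ} [∀ i, IsProbabilityMeasure (ν i)]

lemma rho_nonneg (A s q : ℝ) (n : ℕ) : 0 ≤ rho A s q n := Real.sqrt_nonneg _

lemma BM_ofReal {W : Type} [MeasurableSpace W] {G : W → ℝ} (hG : Measurable G)
    (hGb : ∃ C, ∀ w, |G w| ≤ C) : BM (fun w => (G w : ℂ)) := by
  obtain ⟨C, hC⟩ := hGb
  refine ⟨Complex.measurable_ofReal.comp hG, C, fun w => ?_⟩
  rw [Complex.norm_real]
  exact hC w

lemma N2_ofReal {W : Type} [MeasurableSpace W] (μ : Measure W) (G : W → ℝ) :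
    N2 μ (fun w => (G w : ℂ)) = Real.sqrt (∫ w, G w ^ 2 ∂μ) := by
  unfold N2
  congr 1
  apply integral_congr_ae
  filter_upwards with w
  rw [Complex.norm_real, Real.norm_eq_abs, sq_abs]

/-- two-point bound: for `G`, `K` bounded measurable on `T2 × T2`, `G` with zero fibre means -/
theorem two_point (hA0 : 0 < A) (hA1 : A ≤ 1) (hs0 : 0 < s) (hs1 : s ≤ 1)
    (hq0 : 0 < q) (hq1 : q ≤ 1) (ha : ∀ i, A ≤ |a i|) (hsp : ∀ i, Spread s q (ν i))
    {G K : T2 × T2 → ℝ} (hG : Measurable G) (hGb : ∃ C, ∀ w, |G w| ≤ C)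
    (hK : Measurable K) (hKb : ∃ C, ∀ w, |K w| ≤ C)
    (hmean : ∀ z, ∫ p : T2, G (p, z) = 0) (n : ℕ) :
    |∫ ω, (∫ w : T2 × T2, G (XT a ω n w.1, XT a ω n w.2) * K w) ∂(PP ν)| ≤
      rho A s q n * Real.sqrt (∫ w, G w ^ 2) * Real.sqrt (∫ w, K w ^ 2) := by
  have hη2 := eta_le_half hA0 hA1 hs0 hs1 hq0 hq1
  have hg : BM (fun w => (G w : ℂ)) := BM_ofReal hG hGb
  have hk : BM (fun w => (K w : ℂ)) := BM_ofReal hK hKb
  have hm : ∀ z, ∫ p : T2, ((G (p, z) : ℝ) : ℂ) = 0 := by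
    intro z
    rw [integral_complex_ofReal, hmean z]; rfl
  have hd := decay (μ := (volume : Measure T2)) hA0 hA1 hs0 hs1 hq0 hq1 ha (Htwo a)
    (fun i => inferInstance) hsp hg hm n
  have hd2 : N2 ((volume : Measure T2).prod volume) (Qn n (pm a (Htwo a)) ν (fun w => (G w : ℂ))) ≤
      rho A s q n * Real.sqrt (∫ w, G w ^ 2) := by
    have e1 : Real.sqrt (∫ w, G w ^ 2) = N2 ((volume : Measure T2).prod volume)
        (fun w => (G w : ℂ)) := (N2_ofReal _ G).symm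
    rw [e1]
    have h1 := Real.sqrt_le_sqrt hd
    rw [Real.sqrt_sq (N2_nonneg _), Real.sqrt_mul (pow_nonneg (by linarith) _),
      Real.sqrt_sq (N2_nonneg _)] at h1
    exact h1
  have hbq := BM_Qn (μ := (volume : Measure T2)) (a := a) (ν := ν) (fun i => inferInstance)
    (Htwo a) hg n
  have hip := IP_le (μ := (volume : Measure T2).prod volume) hbq hk
  have hQ : ∀ w, Qn n (pm a (Htwo a)) ν (fun w => (G w : ℂ)) w =
      ((∫ ω, G (XT a ω n w.1, XT a ω n w.2) ∂(PP ν) : ℝ) : ℂ) := by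
    intro w
    rw [Qn_eq (fun i => meas_pm a (Htwo a) i) ν hg n w, ← integral_complex_ofReal]
    apply integral_congr_ae
    filter_upwards with ω
    rw [cmp_pair]
  have hIP : IP ((volume : Measure T2).prod volume)
      (Qn n (pm a (Htwo a)) ν (fun w => (G w : ℂ))) (fun w => (K w : ℂ)) =
      ((∫ ω, (∫ w : T2 × T2, G (XT a ω n w.1, XT a ω n w.2) * K w) ∂(PP ν) : ℝ) : ℂ) := by
    unfold IP
    have h2 : ∀ w : T2 × T2, Qn n (pm a (Htwo a)) ν (fun w => (G w : ℂ)) w *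
        (starRingEnd ℂ) ((K w : ℝ) : ℂ) =
        (((∫ ω, G (XT a ω n w.1, XT a ω n w.2) ∂(PP ν)) * K w : ℝ) : ℂ) := by
      intro w
      rw [hQ w, Complex.conj_ofReal, Complex.ofReal_mul]
    simp_rw [h2]
    rw [integral_complex_ofReal]
    congr 1
    have h3 : ∀ w : T2 × T2, (∫ ω, G (XT a ω n w.1, XT a ω n w.2) ∂(PP ν)) * K w =
        ∫ ω, G (XT a ω n w.1, XT a ω n w.2) * K w ∂(PP ν) := fun w =>
      (integral_mul_const _ _).symm
    simp_rw [h3]
    rw [integral_integral_swap]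
    · rfl
    · obtain ⟨C, hC⟩ := hGb
      obtain ⟨C', hC'⟩ := hKb
      have hX := measurable_XT a n
      have hmeas : Measurable (Function.uncurry fun (w : T2 × T2) (ω : ℕ → ℝ) =>
          G (XT a ω n w.1, XT a ω n w.2) * K w) := by
        have m1 : Measurable (fun x : (T2 × T2) × (ℕ → ℝ) => XT a x.2 n x.1.1) :=
          hX.comp (measurable_snd.prodMk (measurable_fst.comp measurable_fst))
        have m2 : Measurable (fun x : (T2 × T2) × (ℕ → ℝ) => XT a x.2 n x.1.2) :=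
          hX.comp (measurable_snd.prodMk (measurable_snd.comp measurable_fst))
        exact (hG.comp (m1.prodMk m2)).mul (hK.comp measurable_fst)
      refine Integrable.of_bound hmeas.aestronglyMeasurable (C * C') ?_
      filter_upwards with x
      simp only [Function.uncurry]
      rw [norm_mul, Real.norm_eq_abs, Real.norm_eq_abs]
      exact mul_le_mul (hC _) (hC' _) (abs_nonneg _) ((abs_nonneg _).trans (hC x.1))
  rw [hIP, Complex.norm_real, Real.norm_eq_abs, N2_ofReal] at hip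
  refine hip.trans ?_
  exact mul_le_mul_of_nonneg_right hd2 (Real.sqrt_nonneg _)

lemma integrable_bdd {φ : T2 → ℝ} (hφ : Measurable φ) (hφb : ∃ C, ∀ p, |φ p| ≤ C) :
    Integrable φ (volume : Measure T2) := by
  obtain ⟨C, hC⟩ := hφb
  exact Integrable.of_bound hφ.aestronglyMeasurable C (Filter.Eventually.of_forall hC)

/-- quenched correlations in mean square, mean zero -/
theorem quench_zero (hA0 : 0 < A) (hA1 : A ≤ 1) (hs0 : 0 < s) (hs1 : s ≤ 1)
    (hq0 : 0 < q) (hq1 : q ≤ 1) (ha : ∀ i, A ≤ |a i|) (hsp : ∀ i, Spread s q (ν i))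
    {φ ψ : T2 → ℝ} (hφ : Measurable φ) (hφb : ∃ C, ∀ p, |φ p| ≤ C) (hψ : Measurable ψ)
    (hψb : ∃ C, ∀ p, |ψ p| ≤ C) (hmean : ∫ p, φ p = 0) (n : ℕ) :
    ∫ ω, (∫ p : T2, φ (XT a ω n p) * ψ p) ^ 2 ∂(PP ν) ≤
      rho A s q n * (∫ p, φ p ^ 2) * (∫ p, ψ p ^ 2) := by
  obtain ⟨C, hC⟩ := hφb
  obtain ⟨C', hC'⟩ := hψb
  have hG : Measurable (fun w : T2 × T2 => φ w.1 * φ w.2) :=
    (hφ.comp measurable_fst).mul (hφ.comp measurable_snd)
  have hK : Measurable (fun w : T2 × T2 => ψ w.1 * ψ w.2) :=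
    (hψ.comp measurable_fst).mul (hψ.comp measurable_snd)
  have key := two_point (ν := ν) hA0 hA1 hs0 hs1 hq0 hq1 ha hsp hG
    ⟨C * C, fun w => by
      rw [abs_mul]; exact mul_le_mul (hC _) (hC _) (abs_nonneg _) ((abs_nonneg _).trans (hC w.1))⟩ hK
    ⟨C' * C', fun w => by
      rw [abs_mul]; exact mul_le_mul (hC' _) (hC' _) (abs_nonneg _) ((abs_nonneg _).trans (hC' w.1))⟩
    (fun z => by
      show ∫ p : T2, φ p * φ z = 0
      rw [integral_mul_const, hmean, zero_mul]) n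
  have e1 : ∀ ω : ℕ → ℝ, (∫ w : T2 × T2, (φ (XT a ω n w.1) * φ (XT a ω n w.2)) * (ψ w.1 * ψ w.2)) =
      (∫ p : T2, φ (XT a ω n p) * ψ p) ^ 2 := by
    intro ω
    rw [sq, ← integral_prod_mul (μ := (volume : Measure T2)) (ν := (volume : Measure T2))
      (fun p => φ (XT a ω n p) * ψ p) (fun p => φ (XT a ω n p) * ψ p)]
    apply integral_congr_ae
    filter_upwards with w
    ring
  have e2 : ∫ w : T2 × T2, (φ w.1 * φ w.2) ^ 2 = (∫ p, φ p ^ 2) ^ 2 := by
    rw [sq, ← integral_prod_mul (μ := (volume : Measure T2)) (ν := (volume : Measure T2))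
      (fun p => φ p ^ 2) (fun p => φ p ^ 2)]
    apply integral_congr_ae
    filter_upwards with w
    ring
  have e3 : ∫ w : T2 × T2, (ψ w.1 * ψ w.2) ^ 2 = (∫ p, ψ p ^ 2) ^ 2 := by
    rw [sq, ← integral_prod_mul (μ := (volume : Measure T2)) (ν := (volume : Measure T2))
      (fun p => ψ p ^ 2) (fun p => ψ p ^ 2)]
    apply integral_congr_ae
    filter_upwards with w
    ring
  simp only [e1, e2, e3] at key
  have h4 : 0 ≤ ∫ p, φ p ^ 2 := integral_nonneg (fun p => sq_nonneg _)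
  have h5 : 0 ≤ ∫ p, ψ p ^ 2 := integral_nonneg (fun p => sq_nonneg _)
  rw [Real.sqrt_sq h4, Real.sqrt_sq h5] at key
  exact (le_abs_self _).trans key

/-- quenched correlations in mean square, bounded functions -/
theorem quench (hA0 : 0 < A) (hA1 : A ≤ 1) (hs0 : 0 < s) (hs1 : s ≤ 1)
    (hq0 : 0 < q) (hq1 : q ≤ 1) (ha : ∀ i, A ≤ |a i|) (hsp : ∀ i, Spread s q (ν i))
    {φ ψ : T2 → ℝ} (hφ : Measurable φ) (hφb : ∃ C, ∀ p, |φ p| ≤ C) (hψ : Measurable ψ)
    (hψb : ∃ C, ∀ p, |ψ p| ≤ C) (n : ℕ) :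
    ∫ ω, ((∫ p : T2, φ (XT a ω n p) * ψ p) - (∫ p, φ p) * ∫ p, ψ p) ^ 2 ∂(PP ν) ≤
      rho A s q n * (∫ p, φ p ^ 2) * (∫ p, ψ p ^ 2) := by
  set m := ∫ p, φ p with hm
  have iφ := integrable_bdd hφ hφb
  have iψ := integrable_bdd hψ hψb
  have hφ0 : Measurable (fun p => φ p - m) := hφ.sub_const m
  have hφ0b : ∃ C, ∀ p, |φ p - m| ≤ C := by
    obtain ⟨C, hC⟩ := hφb
    exact ⟨C + |m|, fun p => (abs_sub _ _).trans (by linarith [hC p])⟩
  have hz : ∫ p, (φ p - m) = 0 := by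
    rw [integral_sub iφ (integrable_const _), integral_const]
    simp [hm]
  have key := quench_zero (ν := ν) hA0 hA1 hs0 hs1 hq0 hq1 ha hsp hφ0 hφ0b hψ hψb hz n
  have e1 : ∀ ω : ℕ → ℝ, ∫ p : T2, (φ (XT a ω n p) - m) * ψ p =
      (∫ p : T2, φ (XT a ω n p) * ψ p) - m * ∫ p, ψ p := by
    intro ω
    have i1 : Integrable (fun p => φ (XT a ω n p) * ψ p) (volume : Measure T2) := by
      apply integrable_bdd ((hφ.comp (mp_XT a ω n).measurable).mul hψ)
      obtain ⟨C, hC⟩ := hφb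
      obtain ⟨C', hC'⟩ := hψb
      refine ⟨C * C', fun p => ?_⟩
      show |φ (XT a ω n p) * ψ p| ≤ C * C'
      rw [abs_mul]; exact mul_le_mul (hC _) (hC' _) (abs_nonneg _) ((abs_nonneg _).trans (hC p))
    rw [← integral_const_mul, ← integral_sub i1 (iψ.const_mul m)]
    apply integral_congr_ae
    filter_upwards with p
    ring
  simp only [e1] at key
  refine key.trans ?_
  have h5 : 0 ≤ ∫ p, ψ p ^ 2 := integral_nonneg (fun p => sq_nonneg _)
  have h6 : ∫ p, (φ p - m) ^ 2 ≤ ∫ p, φ p ^ 2 := by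
    have i2 : Integrable (fun p => φ p ^ 2) (volume : Measure T2) := by
      apply integrable_bdd (hφ.pow_const 2)
      obtain ⟨C, hC⟩ := hφb
      refine ⟨C ^ 2, fun p => ?_⟩
      show |φ p ^ 2| ≤ C ^ 2
      rw [abs_pow]; exact pow_le_pow_left₀ (abs_nonneg _) (hC p) 2
    have : ∫ p, (φ p - m) ^ 2 = (∫ p, φ p ^ 2) - m ^ 2 := by
      have e : ∀ p, (φ p - m) ^ 2 = φ p ^ 2 - (2 * m * φ p - m ^ 2) := fun p => by ring
      simp_rw [e]
      have i3 : Integrable (fun p => 2 * m * φ p - m ^ 2) (volume : Measure T2) :=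
        (iφ.const_mul _).sub (integrable_const _)
      rw [integral_sub i2 i3, integral_sub (iφ.const_mul _) (integrable_const _),
        integral_const_mul, integral_const, ← hm]
      simp
      ring
    rw [this]
    linarith [sq_nonneg m]
  have h7 := rho_nonneg A s q n
  gcongr

/-- numbers: `rho n ≤ √2 exp (-η n / 8)` -/
lemma rho_le (hA0 : 0 < A) (hA1 : A ≤ 1) (hs0 : 0 < s) (hs1 : s ≤ 1)
    (hq0 : 0 < q) (hq1 : q ≤ 1) (n : ℕ) :
    rho A s q n ≤ Real.sqrt 2 * Real.exp (-(eta A s q * n / 8)) := by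
  have hη2 := eta_le_half hA0 hA1 hs0 hs1 hq0 hq1
  have hη0 := eta_pos hA0 hs0 hq0
  set η := eta A s q with hη
  unfold rho
  rw [← hη]
  have h1 : 1 - η ≤ Real.exp (-η) := by
    have := Real.add_one_le_exp (-η)
    linarith
  have h2 : (1 - η) ^ (n / 4) ≤ Real.exp (-η) ^ (n / 4) :=
    pow_le_pow_left₀ (by linarith) h1 _
  rw [← Real.exp_nat_mul] at h2
  have h3 : ((n / 4 : ℕ) : ℝ) ≥ (n:ℝ) / 4 - 3 / 4 := by
    have := Nat.div_add_mod n 4
    have h4 : n % 4 ≤ 3 := by omega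
    have h5 : (n:ℝ) = 4 * (n / 4 : ℕ) + (n % 4 : ℕ) := by exact_mod_cast this.symm
    have h6 : ((n % 4 : ℕ):ℝ) ≤ 3 := by exact_mod_cast h4
    linarith
  have h4 : (n / 4 : ℕ) * -η ≤ 1 / 2 - η * n / 4 := by
    have : ((n / 4 : ℕ) : ℝ) * η ≥ ((n:ℝ) / 4 - 3 / 4) * η := by
      apply mul_le_mul_of_nonneg_right h3 hη0.le
    nlinarith
  have h5 : (1 - η) ^ (n / 4) ≤ (Real.sqrt 2 * Real.exp (-(η * n / 8))) ^ 2 := by
    rw [mul_pow, Real.sq_sqrt (by norm_num), ← Real.exp_nat_mul]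
    calc (1 - η) ^ (n / 4) ≤ Real.exp ((n / 4 : ℕ) * -η) := h2
      _ ≤ Real.exp (1 / 2 - η * n / 4) := Real.exp_le_exp.2 h4
      _ = Real.exp (1 / 2) * Real.exp (((2:ℕ):ℝ) * -(η * n / 8)) := by
          rw [← Real.exp_add]; congr 1; push_cast; ring
      _ ≤ 2 * Real.exp (((2:ℕ):ℝ) * -(η * n / 8)) := by
          have : Real.exp (1 / 2) ≤ 2 := by
            have h6 := Real.exp_one_lt_d9
            have h7 : Real.exp (1 / 2) ^ 2 = Real.exp 1 := by
              rw [← Real.exp_nat_mul]; norm_num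
            nlinarith [Real.exp_pos (1 / 2)]
          gcongr
  exact (Real.sqrt_le_left (by positivity)).2 h5

end Pool.Agent.Helper95.RX
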