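import Mathlib
import Pool.Agent.Helper95.RX.Que

/-! RX-DIAG: the two-point bound for the neighbourhood of the diagonal. -/

set_option autoImplicit false
open MeasureTheory Real Set Filter Topology
open scoped ComplexConjugate ENNReal

namespace Pool.Agent.Helper95.RX

attribute [local instance] Pool.Agent.Helper53.SM.instProbU Pool.Agent.Helper53.SM.instProbT2

/-- neighbourhood of the diagonal in `T2 × T2` -/
def AA (ε : ℝ) : Set (T2 × T2) := {w | ‖w.2.1 - w.1.1‖ < ε ∧ ‖w.2.2 - w.1.2‖ < ε}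

lemma measurableSet_AA (ε : ℝ) : MeasurableSet (AA ε) := by
  have h1 : Continuous (fun w : T2 × T2 => ‖w.2.1 - w.1.1‖) := by fun_prop
  have h2 : Continuous (fun w : T2 × T2 => ‖w.2.2 - w.1.2‖) := by fun_prop
  have ho : IsOpen (AA ε) := (isOpen_lt h1 continuous_const).inter (isOpen_lt h2 continuous_const)
  exact ho.measurableSet

/-- a fundamental domain around `x` -/
lemma fund (x : ℝ × ℝ) {S : Set T2} (hS : MeasurableSet S) :
    (volume : Measure T2) S =
      volume {u : ℝ × ℝ | u ∈ Ioc (-(1 / 2) : ℝ) (1 / 2) ×ˢ Ioc (-(1 / 2) : ℝ) (1 / 2) ∧ mk2 (x + u) ∈ S} := by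
  have h1 := UnitAddCircle.measurePreserving_mk (x.1 - 1 / 2)
  have h2 := UnitAddCircle.measurePreserving_mk (x.2 - 1 / 2)
  have h := h1.prod h2
  rw [Measure.prod_restrict] at h
  have e1 : (volume : Measure T2) S =
      volume (mk2 ⁻¹' S ∩ Ioc (x.1 - 1 / 2) (x.1 - 1 / 2 + 1) ×ˢ Ioc (x.2 - 1 / 2) (x.2 - 1 / 2 + 1)) := by
    have h3 := h.measure_preimage hS.nullMeasurableSet
    rw [Measure.restrict_apply (h.measurable hS)] at h3
    exact h3.symm
  have e2 : {u : ℝ × ℝ | u ∈ Ioc (-(1 / 2) : ℝ) (1 / 2) ×ˢ Ioc (-(1 / 2) : ℝ) (1 / 2) ∧ mk2 (x + u) ∈ S} =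
      (fun u => x + u) ⁻¹' (mk2 ⁻¹' S ∩ Ioc (x.1 - 1 / 2) (x.1 - 1 / 2 + 1) ×ˢ Ioc (x.2 - 1 / 2) (x.2 - 1 / 2 + 1)) := by
    ext u
    simp only [mem_ofPred_eq, mem_preimage, mem_inter_iff, mem_prod, mem_Ioc, Prod.fst_add, Prod.snd_add]
    constructor
    · rintro ⟨⟨⟨h3, h4⟩, h5, h6⟩, h7⟩
      exact ⟨h7, ⟨by linarith, by linarith⟩, by linarith, by linarith⟩
    · rintro ⟨h7, ⟨h3, h4⟩, h5, h6⟩
      exact ⟨⟨⟨by linarith, by linarith⟩, by linarith, by linarith⟩, h7⟩
  rw [e1, e2, measure_preimage_add]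

/-- the norm on the circle near zero -/
lemma nrm_coe {u : ℝ} (hu : |u| ≤ 1 / 2) : ‖(u : UnitAddCircle)‖ = |u| := by
  rw [AddCircle.norm_coe_eq_abs_iff 1 one_ne_zero]
  simpa using hu

/-- fibre measure -/
lemma vol_AA_fibre {ε : ℝ} (hε : 0 < ε) (hε2 : ε < 1 / 2) (z : T2) :
    (volume : Measure T2).real {p | (p, z) ∈ AA ε} = 4 * ε ^ 2 := by
  obtain ⟨x, rfl⟩ : ∃ x : ℝ × ℝ, mk2 x = z := by
    obtain ⟨z1, z2⟩ := z
    induction z1 using QuotientAddGroup.induction_on with
    | H x1 =>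
      induction z2 using QuotientAddGroup.induction_on with
      | H x2 => exact ⟨(x1, x2), rfl⟩
  have hmeas : MeasurableSet {p : T2 | (p, mk2 x) ∈ AA ε} :=
    (measurableSet_AA ε).preimage (measurable_id.prodMk measurable_const)
  rw [measureReal_def, fund x hmeas]
  have e1 : {u : ℝ × ℝ | u ∈ Ioc (-(1 / 2) : ℝ) (1 / 2) ×ˢ Ioc (-(1 / 2) : ℝ) (1 / 2) ∧ mk2 (x + u) ∈ {p : T2 | (p, mk2 x) ∈ AA ε}} =
      Ioo (-ε) ε ×ˢ Ioo (-ε) ε := by
    ext u
    have h1 : ((mk2 x).1 - (mk2 (x + u)).1 : UnitAddCircle) = ((-u.1 : ℝ) : UnitAddCircle) := by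
      unfold mk2
      rw [← AddCircle.coe_sub]
      congr 1
      simp
    have h2 : ((mk2 x).2 - (mk2 (x + u)).2 : UnitAddCircle) = ((-u.2 : ℝ) : UnitAddCircle) := by
      unfold mk2
      rw [← AddCircle.coe_sub]
      congr 1
      simp
    simp only [mem_ofPred_eq, AA, mem_prod, mem_Ioc, mem_Ioo, h1, h2]
    constructor
    · rintro ⟨⟨⟨h3, h4⟩, h5, h6⟩, h7, h8⟩
      rw [nrm_coe (by rw [abs_neg, abs_le]; constructor <;> linarith), abs_neg, abs_lt] at h7
      rw [nrm_coe (by rw [abs_neg, abs_le]; constructor <;> linarith), abs_neg, abs_lt] at h8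
      exact ⟨h7, h8⟩
    · rintro ⟨h3, h4⟩
      refine ⟨⟨⟨by linarith [h3.1], by linarith [h3.2]⟩, by linarith [h4.1], by linarith [h4.2]⟩, ?_, ?_⟩
      · rw [nrm_coe (by rw [abs_neg, abs_le]; constructor <;> linarith [h3.1, h3.2]), abs_neg, abs_lt]
        exact h3
      · rw [nrm_coe (by rw [abs_neg, abs_le]; constructor <;> linarith [h4.1, h4.2]), abs_neg, abs_lt]
        exact h4
  rw [e1, Measure.volume_eq_prod, Measure.prod_prod, Real.volume_Ioo, ← ENNReal.ofReal_mul (by linarith),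
    ENNReal.toReal_ofReal (by nlinarith)]
  ring

lemma vol_AA {ε : ℝ} (hε : 0 < ε) (hε2 : ε < 1 / 2) : (volume : Measure (T2 × T2)).real (AA ε) = 4 * ε ^ 2 := by
  have h1 : (volume : Measure (T2 × T2)) (AA ε) = ENNReal.ofReal (4 * ε ^ 2) := by
    rw [Measure.volume_eq_prod, Measure.prod_apply_symm (measurableSet_AA ε)]
    have h2 : ∀ z : T2, (volume : Measure T2) ((fun p => (p, z)) ⁻¹' AA ε) = ENNReal.ofReal (4 * ε ^ 2) := by
      intro z
      rw [← vol_AA_fibre hε hε2 z, measureReal_def, ENNReal.ofReal_toReal (measure_ne_top _ _)]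
      rfl
    simp_rw [h2]
    rw [lintegral_const, measure_univ, mul_one]
  rw [measureReal_def, h1, ENNReal.toReal_ofReal (by positivity)]

variable {A s q : ℝ} {a : ℕ → ℝ} {ν : ℕ → Measure ℝ} [∀ i, IsProbabilityMeasure (ν i)]

/-- two-point bound for the neighbourhood of the diagonal: `two_point` with
`G = K = 1_{AA ε} - 4ε²` -/
lemma diag_bound (hA0 : 0 < A) (hA1 : A ≤ 1) (hs0 : 0 < s) (hs1 : s ≤ 1)
    (hq0 : 0 < q) (hq1 : q ≤ 1) (ha : ∀ i, A ≤ |a i|) (hsp : ∀ i, Spread s q (ν i))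
    {ε : ℝ} (hε : 0 < ε) (hε2 : ε < 1 / 2) (n : ℕ) :
    ∫ ω, (volume : Measure (T2 × T2)).real
        (AA ε ∩ {w | (XT a ω n w.1, XT a ω n w.2) ∈ AA ε}) ∂(PP ν) ≤
      16 * ε ^ 4 + rho A s q n * (4 * ε ^ 2) := by
  classical
  set c : ℝ := 4 * ε ^ 2 with hc
  have hc0 : 0 < c := by rw [hc]; positivity
  have hc1 : c < 1 := by rw [hc]; nlinarith
  have hrho := rho_nonneg A s q n
  have hAm := measurableSet_AA ε
  have hI : ∀ {B : Set (T2 × T2)}, MeasurableSet B → Integrable (B.indicator (1 : T2 × T2 → ℝ)) (volume : Measure (T2 × T2)) :=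
    fun {B} hB => (integrable_const (1:ℝ)).indicator hB
  set G : T2 × T2 → ℝ := fun w => (AA ε).indicator (1 : T2 × T2 → ℝ) w - c with hG
  have hGm : Measurable G := (measurable_one.indicator hAm).sub_const c
  have hGb : ∃ C, ∀ w, |G w| ≤ C := by
    refine ⟨1, fun w => ?_⟩
    rw [hG]
    simp only [indicator, Pi.one_apply]
    split_ifs
    · rw [abs_le]; constructor <;> linarith
    · rw [abs_le]; constructor <;> linarith
  have hmean : ∀ z, ∫ p : T2, G (p, z) = 0 := by
    intro z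
    have h1 : ∀ p : T2, G (p, z) = ({p | (p, z) ∈ AA ε} : Set T2).indicator (1 : T2 → ℝ) p - c := by
      intro p
      rw [hG]
      simp only [indicator, mem_ofPred_eq, Pi.one_apply]
    have hms : MeasurableSet {p : T2 | (p, z) ∈ AA ε} := hAm.preimage (measurable_id.prodMk measurable_const)
    have hI1 : Integrable (({p : T2 | (p, z) ∈ AA ε} : Set T2).indicator (1 : T2 → ℝ)) (volume : Measure T2) :=
      (integrable_const (1:ℝ)).indicator hms
    simp_rw [h1]
    rw [integral_sub hI1 (integrable_const c), integral_indicator_one hms,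
      vol_AA_fibre hε hε2, integral_const]
    simp [hc]
  have hGsq : ∫ w, G w ^ 2 = c - c ^ 2 := by
    have h1 : ∀ w : T2 × T2, G w ^ 2 = (1 - 2 * c) * (AA ε).indicator (1 : T2 × T2 → ℝ) w + c ^ 2 := by
      intro w
      rw [hG]
      simp only [indicator, Pi.one_apply]
      split_ifs <;> ring
    simp_rw [h1]
    rw [integral_add ((hI hAm).const_mul _) (integrable_const _), integral_const_mul, integral_indicator_one hAm,
      vol_AA hε hε2, integral_const]
    simp only [probReal_univ, smul_eq_mul, one_mul]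
    rw [hc]; ring
  have h2p := two_point hA0 hA1 hs0 hs1 hq0 hq1 ha hsp hGm hGb hGm hGb hmean n
  rw [hGsq, mul_assoc, Real.mul_self_sqrt (by nlinarith)] at h2p
  -- the inner integral
  set f : (ℕ → ℝ) → ℝ := fun ω => (volume : Measure (T2 × T2)).real
        (AA ε ∩ {w | (XT a ω n w.1, XT a ω n w.2) ∈ AA ε}) with hf
  have hin : ∀ ω : ℕ → ℝ, ∫ w : T2 × T2, G (XT a ω n w.1, XT a ω n w.2) * G w = f ω - c ^ 2 := by
    intro ω
    have hmpp : MeasurePreserving (fun w : T2 × T2 => (XT a ω n w.1, XT a ω n w.2)) (volume : Measure (T2 × T2)) volume :=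
      (mp_XT a ω n).prod (mp_XT a ω n)
    have hBm : MeasurableSet {w : T2 × T2 | (XT a ω n w.1, XT a ω n w.2) ∈ AA ε} := hmpp.measurable hAm
    have hBv : (volume : Measure (T2 × T2)).real {w : T2 × T2 | (XT a ω n w.1, XT a ω n w.2) ∈ AA ε} = c := by
      have h3 := hmpp.measure_preimage hAm.nullMeasurableSet
      rw [hc, ← vol_AA hε hε2, measureReal_def, measureReal_def, ← h3]
      rfl
    have h1 : ∀ w : T2 × T2, G (XT a ω n w.1, XT a ω n w.2) * G w =
        (AA ε ∩ {w | (XT a ω n w.1, XT a ω n w.2) ∈ AA ε}).indicator (1 : T2 × T2 → ℝ) w -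
          c * ({w : T2 × T2 | (XT a ω n w.1, XT a ω n w.2) ∈ AA ε} : Set (T2 × T2)).indicator (1 : T2 × T2 → ℝ) w -
          c * (AA ε).indicator (1 : T2 × T2 → ℝ) w + c ^ 2 := by
      intro w
      rw [hG]
      simp only [indicator, Pi.one_apply, mem_inter_iff, mem_ofPred_eq]
      by_cases hw1 : w ∈ AA ε <;> by_cases hw2 : (XT a ω n w.1, XT a ω n w.2) ∈ AA ε <;> simp [hw1, hw2] <;> ring
    simp_rw [h1]
    rw [integral_add, integral_sub, integral_sub, integral_const_mul, integral_const_mul,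
      integral_indicator_one (hAm.inter hBm), integral_indicator_one hBm, integral_indicator_one hAm, hBv, vol_AA hε hε2, integral_const]
    · simp only [probReal_univ, smul_eq_mul, one_mul]
      rw [hf, hc]; ring
    · exact hI (hAm.inter hBm)
    · exact (hI hBm).const_mul _
    · exact (hI (hAm.inter hBm)).sub ((hI hBm).const_mul _)
    · exact (hI hAm).const_mul _
    · exact ((hI (hAm.inter hBm)).sub ((hI hBm).const_mul _)).sub ((hI hAm).const_mul _)
    · exact integrable_const _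
  simp_rw [hin] at h2p
  by_cases hfi : Integrable f (PP ν)
  · rw [integral_sub hfi (integrable_const _), integral_const] at h2p
    simp only [probReal_univ, smul_eq_mul, one_mul] at h2p
    have h3 := (abs_le.1 h2p).2
    have h4 : c ^ 2 = 16 * ε ^ 4 := by rw [hc]; ring
    have h5 : rho A s q n * (c - c ^ 2) ≤ rho A s q n * c := by
      apply mul_le_mul_of_nonneg_left _ hrho
      nlinarith [sq_nonneg c]
    rw [← h4]
    linarith
  · rw [integral_undef hfi]
    positivity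

end Pool.Agent.Helper95.RX
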