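import Mathlib
import Pool.Agent.Helper95.RX.Defs

/-! RX-AREA: area of the set of vectors which stay short. -/

set_option autoImplicit false
open MeasureTheory Real Set Filter Topology
open scoped ComplexConjugate ENNReal

namespace Pool.Agent.Helper95.RX

lemma area_aux {a b c d : ℝ} (hdet : (a * d - b * c) ^ 2 = 1) (hle : c ^ 2 + d ^ 2 ≤ a ^ 2 + b ^ 2)
    {M : ℝ} (hM : |a| + |b| ≤ M) :
    ENNReal.ofReal (1 / M) ≤ volume {v : ℝ × ℝ | (|v.1| < 1 ∧ |v.2| < 1) ∧
      |a * v.1 + b * v.2| < 1 ∧ |c * v.1 + d * v.2| < 1} := by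
  set N : ℝ := a ^ 2 + b ^ 2 with hN
  have hN1 : 1 ≤ N := by
    have h1 : (a * d - b * c) ^ 2 + (a * c + b * d) ^ 2 = (a ^ 2 + b ^ 2) * (c ^ 2 + d ^ 2) := by
      ring
    have h2 : 1 ≤ N * N := by
      rw [hdet] at h1
      nlinarith [sq_nonneg (a * c + b * d), sq_nonneg a, sq_nonneg b]
    by_contra h3
    push Not at h3
    have h4 : 0 ≤ N := by positivity
    nlinarith
  set R : ℝ := Real.sqrt N with hR
  have hR1 : 1 ≤ R := Real.one_le_sqrt.2 hN1
  have hR0 : 0 < R := by linarith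
  have hRR : R * R = N := Real.mul_self_sqrt (by linarith)
  have hRM : R ≤ M := by
    refine le_trans ?_ hM
    rw [hR]
    refine Real.sqrt_le_iff.2 ⟨by positivity, ?_⟩
    rw [hN]
    have h1 := mul_nonneg (abs_nonneg a) (abs_nonneg b)
    nlinarith [sq_abs a, sq_abs b]
  set f : ℝ × ℝ →ₗ[ℝ] ℝ × ℝ := Matrix.toLin (Module.Basis.finTwoProd ℝ) (Module.Basis.finTwoProd ℝ)
    !![a / N, -b / R; b / N, a / R] with hf
  have hfa : ∀ x : ℝ × ℝ, f x = (a / N * x.1 + -b / R * x.2, b / N * x.1 + a / R * x.2) := fun x =>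
    Matrix.toLin_finTwoProd_apply _ _ _ _ _
  have hdetf : LinearMap.det f = 1 / R := by
    rw [hf, LinearMap.det_toLin, Matrix.det_fin_two_of]
    have h1 : a / N * (a / R) - -b / R * (b / N) = (a ^ 2 + b ^ 2) / (N * R) := by
      field_simp
      ring
    rw [h1, ← hN]
    field_simp
  have hsub : f '' (Ioo (-(1 / 2) : ℝ) (1 / 2) ×ˢ Ioo (-(1 / 2) : ℝ) (1 / 2)) ⊆
      {v : ℝ × ℝ | (|v.1| < 1 ∧ |v.2| < 1) ∧ |a * v.1 + b * v.2| < 1 ∧
        |c * v.1 + d * v.2| < 1} := by
    rintro _ ⟨⟨t, u⟩, ⟨ht, hu⟩, rfl⟩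
    have ht' : |t| < 1 / 2 := abs_lt.2 ht
    have hu' : |u| < 1 / 2 := abs_lt.2 hu
    have haR : |a| ≤ R := by
      rw [hR]
      exact Real.le_sqrt_of_sq_le (by rw [sq_abs, hN]; nlinarith [sq_nonneg b])
    have hbR : |b| ≤ R := by
      rw [hR]
      exact Real.le_sqrt_of_sq_le (by rw [sq_abs, hN]; nlinarith [sq_nonneg a])
    have hN0 : 0 < N := by linarith
    have hRN : R ≤ N := by nlinarith
    have key : ∀ x y : ℝ, |x| ≤ 1 → |y| ≤ 1 → |x * t + y * u| < 1 := by
      intro x y hx hy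
      calc |x * t + y * u| ≤ |x| * |t| + |y| * |u| := by
            rw [← abs_mul, ← abs_mul]; exact abs_add_le _ _
        _ ≤ 1 * |t| + 1 * |u| := by gcongr
        _ < 1 := by linarith
    rw [hfa]
    refine ⟨⟨?_, ?_⟩, ?_, ?_⟩
    · refine key _ _ ?_ ?_
      · rw [abs_div, abs_of_pos hN0, div_le_one hN0]
        linarith
      · rw [abs_div, abs_neg, abs_of_pos hR0, div_le_one hR0]
        exact hbR
    · refine key _ _ ?_ ?_
      · rw [abs_div, abs_of_pos hN0, div_le_one hN0]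
        linarith
      · rw [abs_div, abs_of_pos hR0, div_le_one hR0]
        exact haR
    · have h1 : a * (a / N * t + -b / R * u) + b * (b / N * t + a / R * u) = 1 * t + 0 * u := by
        have h2 : a * (a / N * t + -b / R * u) + b * (b / N * t + a / R * u) =
            (a ^ 2 + b ^ 2) / N * t := by
          field_simp
          ring
        rw [h2, ← hN, div_self hN0.ne']
        ring
      simp only
      rw [h1]
      exact key _ _ (by simp) (by simp)
    · have h1 : c * (a / N * t + -b / R * u) + d * (b / N * t + a / R * u) =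
          ((a * c + b * d) / N) * t + ((a * d - b * c) / R) * u := by
        field_simp
        ring
      simp only
      rw [h1]
      refine key _ _ ?_ ?_
      · rw [abs_div, abs_of_pos hN0, div_le_one hN0]
        refine abs_le_of_sq_le_sq ?_ hN0.le
        have h2 : (a * d - b * c) ^ 2 + (a * c + b * d) ^ 2 =
            (a ^ 2 + b ^ 2) * (c ^ 2 + d ^ 2) := by ring
        nlinarith [sq_nonneg (a * d - b * c)]
      · rw [abs_div, abs_of_pos hR0, div_le_one hR0]
        refine le_trans (abs_le_of_sq_le_sq (b := 1) ?_ one_pos.le) hR1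
        rw [hdet]
        norm_num
  refine le_trans ?_ (measure_mono hsub)
  rw [Measure.addHaar_image_linearMap, hdetf, Measure.volume_eq_prod, Measure.prod_prod,
    Real.volume_Ioo, abs_of_pos (by positivity : (0 : ℝ) < 1 / R)]
  have h1 : (1 / 2 - -(1 / 2) : ℝ) = 1 := by norm_num
  rw [h1, ENNReal.ofReal_one, mul_one, mul_one]
  exact ENNReal.ofReal_le_ofReal (one_div_le_one_div_of_le hR0 hRM)

/-- area of the set of vectors which stay short: for `D` with determinant one the set of `v` with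
`‖v‖ < 1`, `‖Dv‖ < 1` has area at least `1/‖D‖`.  Proof: let `r₁`, `r₂` be the rows, `|r₁| ≥ |r₂|`
(Euclidean; otherwise exchange them), so `|r₁| ≥ 1`; the set contains
`{t r₁/|r₁|² + u r₁^⊥/|r₁| : |t| < 1/2, |u| < 1/2}`, of area `1/|r₁|₂ ≥ 1/‖D‖`. -/
lemma area {D : ℝ × ℝ →L[ℝ] ℝ × ℝ}
    (hD : (D (1, 0)).1 * (D (0, 1)).2 - (D (0, 1)).1 * (D (1, 0)).2 = 1) :
    ENNReal.ofReal (1 / ‖D‖) ≤ volume {v : ℝ × ℝ | ‖v‖ < 1 ∧ ‖D v‖ < 1} := by
  set a := (D (1, 0)).1 with ha
  set b := (D (0, 1)).1 with hb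
  set c := (D (1, 0)).2 with hc
  set d := (D (0, 1)).2 with hd
  have hDv : ∀ v : ℝ × ℝ, D v = (a * v.1 + b * v.2, c * v.1 + d * v.2) := by
    intro v
    have h1 : v = v.1 • ((1, 0) : ℝ × ℝ) + v.2 • ((0, 1) : ℝ × ℝ) := by
      ext <;> simp
    conv_lhs => rw [h1]
    rw [map_add, map_smul, map_smul]
    ext
    · simp only [Prod.fst_add, Prod.smul_fst, smul_eq_mul, ← ha, ← hb]
      ring
    · simp only [Prod.snd_add, Prod.smul_snd, smul_eq_mul, ← hc, ← hd]
      ring
  have hset : {v : ℝ × ℝ | ‖v‖ < 1 ∧ ‖D v‖ < 1} = {v : ℝ × ℝ | (|v.1| < 1 ∧ |v.2| < 1) ∧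
      |a * v.1 + b * v.2| < 1 ∧ |c * v.1 + d * v.2| < 1} := by
    ext v
    simp only [Set.mem_ofPred_eq, hDv, Prod.norm_def, sup_lt_iff, Real.norm_eq_abs]
  -- the norms of the rows
  have hrow : ∀ x y : ℝ, (x, y) = (a, b) ∨ (x, y) = (c, d) → |x| + |y| ≤ ‖D‖ := by
    intro x y hxy
    set e : ℝ × ℝ := (SignType.sign x, SignType.sign y) with he
    have hsx : ∀ t : ℝ, |((SignType.sign t : SignType) : ℝ)| ≤ 1 := by
      intro t
      rcases lt_trichotomy t 0 with h | h | h
      · rw [sign_neg h]; simp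
      · simp [h]
      · rw [sign_pos h]; simp
    have he1 : ‖e‖ ≤ 1 := by
      rw [Prod.norm_def, he]
      exact sup_le (by rw [Real.norm_eq_abs]; exact hsx x) (by rw [Real.norm_eq_abs]; exact hsx y)
    have h1 : ‖D e‖ ≤ ‖D‖ := by
      calc ‖D e‖ ≤ ‖D‖ * ‖e‖ := D.le_opNorm e
        _ ≤ ‖D‖ * 1 := by gcongr
        _ = ‖D‖ := mul_one _
    have h2 : |x| + |y| = x * e.1 + y * e.2 := by
      simp only [he]
      rw [self_mul_sign, self_mul_sign]
    rw [h2]
    refine le_trans ?_ h1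
    rw [hDv, Prod.norm_def]
    rcases hxy with h | h
    · obtain ⟨rfl, rfl⟩ := Prod.mk.inj h
      exact le_trans (le_abs_self _) (le_sup_left)
    · obtain ⟨rfl, rfl⟩ := Prod.mk.inj h
      exact le_trans (le_abs_self _) (le_sup_right)
  rw [hset]
  rcases le_total (c ^ 2 + d ^ 2) (a ^ 2 + b ^ 2) with h | h
  · exact area_aux (by rw [show a * d - b * c = 1 from hD]; norm_num) h (hrow a b (Or.inl rfl))
  · have h1 := area_aux (a := c) (b := d) (c := a) (d := b)
      (by rw [show c * b - d * a = -(a * d - b * c) by ring, show a * d - b * c = 1 from hD];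
          norm_num) h (hrow c d (Or.inr rfl))
    refine h1.trans (le_of_eq ?_)
    congr 1
    ext v
    simp only [Set.mem_ofPred_eq]
    tauto

end Pool.Agent.Helper95.RX
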