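import Mathlib
import Pool.Agent.Helper95.RX.Defs

/-! RX-GRID: the grid on the torus. -/

set_option autoImplicit false
open MeasureTheory Real Set Filter Topology
open scoped ComplexConjugate ENNReal

namespace Pool.Agent.Helper95.RX

attribute [local instance] Pool.Agent.Helper53.SM.instProbU Pool.Agent.Helper53.SM.instProbT2

/-- representative in `[0,1)` -/
noncomputable def rep (θ : UnitAddCircle) : ℝ := ((AddCircle.equivIco 1 0 θ : Ico (0:ℝ) (0 + 1)) : ℝ)

/-- index of the cell of mesh `1/N` -/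
noncomputable def cel (N : ℕ) (p : T2) : ℕ × ℕ := (⌊N * rep p.1⌋₊, ⌊N * rep p.2⌋₊)

/-- the cell -/
def Cel (N : ℕ) (i : ℕ × ℕ) : Set T2 := {p | cel N p = i}

private lemma rep_nonneg (θ : UnitAddCircle) : 0 ≤ rep θ :=
  (AddCircle.equivIco 1 0 θ : Ico (0:ℝ) (0 + 1)).2.1

private lemma rep_lt (θ : UnitAddCircle) : rep θ < 1 := by
  have h : rep θ < 0 + 1 := (AddCircle.equivIco 1 0 θ : Ico (0:ℝ) (0 + 1)).2.2
  linarith

private lemma coe_rep (θ : UnitAddCircle) : ((rep θ : ℝ) : UnitAddCircle) = θ :=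
  (AddCircle.equivIco 1 0).symm_apply_apply θ

private lemma rep_coe {x : ℝ} (h0 : 0 ≤ x) (h1 : x < 1) : rep ((x : ℝ) : UnitAddCircle) = x := by
  unfold rep
  rw [AddCircle.coe_equivIco_mk_apply]
  simp [Int.fract_eq_self.2 ⟨h0, h1⟩]

private lemma measurable_rep : Measurable rep :=
  measurable_subtype_coe.comp (AddCircle.measurableEquivIco 1 0).measurable

private lemma measurable_fl (N : ℕ) : Measurable fun θ : UnitAddCircle => ⌊N * rep θ⌋₊ :=
  Nat.measurable_floor.comp (measurable_rep.const_mul _)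

lemma measurable_cel (N : ℕ) : Measurable (cel N) :=
  ((measurable_fl N).comp measurable_fst).prodMk ((measurable_fl N).comp measurable_snd)

lemma measurableSet_Cel (N : ℕ) (i : ℕ × ℕ) : MeasurableSet (Cel N i) :=
  measurable_cel N (measurableSet_singleton i)

private lemma fl_lt {N : ℕ} (hN : 1 ≤ N) (θ : UnitAddCircle) : ⌊N * rep θ⌋₊ < N := by
  have hN0 : (0:ℝ) < N := by exact_mod_cast hN
  rw [Nat.floor_lt (mul_nonneg hN0.le (rep_nonneg θ))]
  calc (N:ℝ) * rep θ < N * 1 := mul_lt_mul_of_pos_left (rep_lt θ) hN0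
    _ = N := mul_one _

lemma cel_lt {N : ℕ} (hN : 1 ≤ N) (p : T2) : cel N p ∈ Finset.range N ×ˢ Finset.range N := by
  rw [Finset.mem_product, Finset.mem_range, Finset.mem_range]
  exact ⟨fl_lt hN _, fl_lt hN _⟩

private lemma vol_C1 {N : ℕ} (hN : 1 ≤ N) {j : ℕ} (hj : j < N) :
    (volume : Measure UnitAddCircle) {θ | ⌊N * rep θ⌋₊ = j} = ENNReal.ofReal (1 / N) := by
  have hN0 : (0:ℝ) < N := by exact_mod_cast hN
  have hm : MeasurableSet {θ : UnitAddCircle | ⌊N * rep θ⌋₊ = j} :=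
    measurable_fl N (measurableSet_singleton j)
  have h1 := AddCircle.add_projection_respects_measure (T := 1) 0 hm
  rw [h1]
  set A : Set ℝ := QuotientAddGroup.mk ⁻¹' {θ : UnitAddCircle | ⌊N * rep θ⌋₊ = j} ∩ Ioc (0:ℝ) (0 + 1) with hA
  set B : Set ℝ := Ico ((j:ℝ) / N) ((j + 1) / N) with hB
  have h2 : A =ᵐ[volume] B := by
    have h3 : ∀ᵐ x : ℝ, x ≠ 0 ∧ x ≠ 1 := by
      have h4 : ∀ᵐ x : ℝ, x ∉ ({0, 1} : Set ℝ) :=
        measure_eq_zero_iff_ae_notMem.1 ((Set.toFinite ({0, 1} : Set ℝ)).measure_zero volume)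
      filter_upwards [h4] with x hx
      simp only [mem_insert_iff, mem_singleton_iff, not_or] at hx
      exact hx
    filter_upwards [h3] with x hx
    apply propext
    constructor
    · rintro ⟨h4, h5⟩
      have h6 : x < 1 := lt_of_le_of_ne (by simpa using h5.2) hx.2
      have h7 : ⌊(N:ℝ) * rep ((x : ℝ) : UnitAddCircle)⌋₊ = j := h4
      rw [rep_coe h5.1.le h6, Nat.floor_eq_iff (mul_nonneg hN0.le h5.1.le)] at h7
      exact ⟨by rw [div_le_iff₀ hN0]; linarith [h7.1, mul_comm (N:ℝ) x], by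
        rw [lt_div_iff₀ hN0]; linarith [h7.2, mul_comm (N:ℝ) x]⟩
    · rintro ⟨h4, h5⟩
      rw [div_le_iff₀ hN0] at h4
      rw [lt_div_iff₀ hN0] at h5
      have h6 : 0 ≤ x := by
        by_contra h7
        have h8 : x * N < 0 := mul_neg_of_neg_of_pos (not_le.1 h7) hN0
        have : (0:ℝ) ≤ j := Nat.cast_nonneg j
        linarith
      have h7 : x < 1 := by
        by_contra h8
        have h9 : (N:ℝ) ≤ x * N := le_mul_of_one_le_left hN0.le (not_lt.1 h8)
        have : (j:ℝ) + 1 ≤ N := by exact_mod_cast hj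
        linarith
      refine ⟨?_, lt_of_le_of_ne h6 (Ne.symm hx.1), by simpa using h7.le⟩
      show ⌊(N:ℝ) * rep ((x : ℝ) : UnitAddCircle)⌋₊ = j
      rw [rep_coe h6 h7, Nat.floor_eq_iff (mul_nonneg hN0.le h6), mul_comm (N:ℝ) x]
      exact ⟨h4, h5⟩
  rw [measure_congr h2, hB, Real.volume_Ico]
  congr 1
  field_simp
  ring

private lemma Cel_eq (N : ℕ) (i : ℕ × ℕ) :
    Cel N i = {θ : UnitAddCircle | ⌊N * rep θ⌋₊ = i.1} ×ˢ {θ : UnitAddCircle | ⌊N * rep θ⌋₊ = i.2} := by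
  ext p
  simp only [Cel, cel, mem_ofPred_eq, mem_prod, Prod.ext_iff]

/-- the measure of a cell -/
lemma vol_Cel {N : ℕ} (hN : 1 ≤ N) {i : ℕ × ℕ} (hi : i ∈ Finset.range N ×ˢ Finset.range N) :
    (volume : Measure T2).real (Cel N i) = 1 / (N:ℝ) ^ 2 := by
  rw [Finset.mem_product, Finset.mem_range, Finset.mem_range] at hi
  rw [Measure.real, Cel_eq, Measure.volume_eq_prod, Measure.prod_prod, vol_C1 hN hi.1, vol_C1 hN hi.2,
    ENNReal.toReal_mul, ENNReal.toReal_ofReal (by positivity)]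
  field_simp

private lemma dist_C1 {N : ℕ} (hN : 1 ≤ N) {θ θ' : UnitAddCircle} (h : ⌊N * rep θ⌋₊ = ⌊N * rep θ'⌋₊) :
    dist θ θ' ≤ 1 / N := by
  have hN0 : (0:ℝ) < N := by exact_mod_cast hN
  have e1 : dist θ θ' = ‖((rep θ - rep θ' : ℝ) : UnitAddCircle)‖ := by
    rw [dist_eq_norm, AddCircle.coe_sub, coe_rep, coe_rep]
  rw [e1]
  have h1 : ‖((rep θ - rep θ' : ℝ) : UnitAddCircle)‖ ≤ |rep θ - rep θ'| := by
    have := QuotientAddGroup.norm_mk_le_norm (S := AddSubgroup.zmultiples (1:ℝ)) (m := rep θ - rep θ')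
    simpa using this
  refine h1.trans ?_
  have a1 := Nat.floor_le (mul_nonneg hN0.le (rep_nonneg θ))
  have a2 := Nat.lt_floor_add_one ((N:ℝ) * rep θ)
  have b1 := Nat.floor_le (mul_nonneg hN0.le (rep_nonneg θ'))
  have b2 := Nat.lt_floor_add_one ((N:ℝ) * rep θ')
  rw [h] at a1 a2
  rw [abs_le, neg_le_iff_add_nonneg]
  constructor
  · have : 0 ≤ (rep θ - rep θ' + 1 / N) * N := by
      have e2 : (rep θ - rep θ' + 1 / N) * N = N * rep θ - N * rep θ' + 1 := by
        field_simp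
      rw [e2]
      linarith
    exact nonneg_of_mul_nonneg_left this hN0
  · rw [le_div_iff₀ hN0]
    linarith [mul_comm (N:ℝ) (rep θ), mul_comm (N:ℝ) (rep θ'), sub_mul (rep θ) (rep θ') (N:ℝ)]

/-- the diameter of a cell -/
lemma dist_Cel {N : ℕ} (hN : 1 ≤ N) {p p' : T2} (h : cel N p = cel N p') :
    dist p p' ≤ 1 / N := by
  unfold cel at h
  rw [Prod.ext_iff] at h
  rw [Prod.dist_eq]
  exact max_le (dist_C1 hN h.1) (dist_C1 hN h.2)

end Pool.Agent.Helper95.RX
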