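import Mathlib
import Pool.Agent.Helper95.RX.Que

/-! RX-ONE: identically distributed kicks, the skew product over the shift; one-point bound. -/

set_option autoImplicit false
open MeasureTheory Real Set Filter Topology
open scoped ComplexConjugate ENNReal

namespace Pool.Agent.Helper95.RX

attribute [local instance] Pool.Agent.Helper53.SM.instProbU Pool.Agent.Helper53.SM.instProbT2

/-- the skew product -/
noncomputable def FS (a : ℝ) (x : (ℕ → ℝ) × T2) : (ℕ → ℝ) × T2 :=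
  (fun i => x.1 (i + 1), kf a (x.1 0) x.2)

lemma FS_iter (a : ℝ) (n : ℕ) (x : (ℕ → ℝ) × T2) :
    (FS a)^[n] x = (fun i => x.1 (i + n), XT (fun _ => a) x.1 n x.2) := by
  induction n with
  | zero => rfl
  | succ n ih =>
    rw [Function.iterate_succ_apply', ih]
    unfold FS
    refine Prod.ext ?_ ?_
    · funext i
      show x.1 (i + 1 + n) = x.1 (i + (n + 1))
      rw [show i + 1 + n = i + (n + 1) by omega]
    · show kf a (x.1 (0 + n)) _ = kf a (x.1 n) _
      rw [Nat.zero_add]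
      rfl

variable {A s q : ℝ} {a : ℝ} {ν : Measure ℝ} [IsProbabilityMeasure ν]

lemma mp_FS (a : ℝ) : MeasurePreserving (FS a) ((PP (fun _ => ν)).prod (volume : Measure T2))
    ((PP (fun _ => ν)).prod (volume : Measure T2)) := by
  have h1 : MeasurePreserving (fun (ω : ℕ → ℝ) i => ω (i + 1)) (PP (fun _ => ν))
      (PP (fun _ => ν)) := mp_shift (fun _ => ν) 1
  have h0 : Measurable (fun x : (ℕ → ℝ) × T2 => ((x.1 0, x.2) : ℝ × T2)) :=
    ((measurable_pi_apply 0).comp measurable_fst).prodMk measurable_snd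
  have h2 : Measurable (Function.uncurry fun (ω : ℕ → ℝ) (p : T2) => kf a (ω 0) p) := by
    have := (continuous_kf a).measurable.comp h0
    exact this
  exact h1.skew_product h2 (Filter.Eventually.of_forall fun ω => (mp_kf a (ω 0)).map_eq)

/-- one-point bound (`decay` with the second factor unused, `Qn_eq`, `cmp_pair`); also
nonstationary -/
theorem one_point {a : ℕ → ℝ} {ν : ℕ → Measure ℝ} [∀ i, IsProbabilityMeasure (ν i)]
    (hA0 : 0 < A) (hA1 : A ≤ 1) (hs0 : 0 < s) (hs1 : s ≤ 1)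
    (hq0 : 0 < q) (hq1 : q ≤ 1) (ha : ∀ i, A ≤ |a i|) (hsp : ∀ i, Spread s q (ν i))
    {f : T2 → ℝ} (hf : Measurable f) (hfb : ∃ C, ∀ p, |f p| ≤ C) (hmean : ∫ p, f p = 0) (n : ℕ) :
    ∫ p : T2, (∫ ω, f (XT a ω n p) ∂(PP ν)) ^ 2 ≤ (1 - eta A s q) ^ (n / 4) * ∫ p, f p ^ 2 := by
  have hG : Measurable fun w : T2 × T2 => f w.1 := hf.comp measurable_fst
  have hGb : ∃ C, ∀ w : T2 × T2, |f w.1| ≤ C := by
    obtain ⟨C, hC⟩ := hfb
    exact ⟨C, fun w => hC w.1⟩
  have hg : BM (fun w : T2 × T2 => (f w.1 : ℂ)) := BM_ofReal hG hGb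
  have hm : ∀ z : T2, ∫ p : T2, (((f ((p, z) : T2 × T2).1) : ℝ) : ℂ) = 0 := by
    intro z
    show ∫ p : T2, ((f p : ℝ) : ℂ) = 0
    rw [integral_complex_ofReal, hmean]; rfl
  have hd := decay (μ := (volume : Measure T2)) hA0 hA1 hs0 hs1 hq0 hq1 ha (Htwo a)
    (fun i => inferInstance) hsp hg hm n
  have hQ : ∀ w : T2 × T2, Qn n (pm a (Htwo a)) ν (fun w => (f w.1 : ℂ)) w =
      ((∫ ω, f (XT a ω n w.1) ∂(PP ν) : ℝ) : ℂ) := by
    intro w
    rw [Qn_eq (fun i => meas_pm a (Htwo a) i) ν hg n w, ← integral_complex_ofReal]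
    apply integral_congr_ae
    filter_upwards with ω
    rw [cmp_pair]
  rw [N2_sq, N2_sq] at hd
  have e1 : ∀ w : T2 × T2, ‖Qn n (pm a (Htwo a)) ν (fun w => (f w.1 : ℂ)) w‖ ^ 2 =
      (∫ ω, f (XT a ω n w.1) ∂(PP ν)) ^ 2 := by
    intro w
    rw [hQ w, Complex.norm_real, Real.norm_eq_abs, sq_abs]
  have e2 : ∀ w : T2 × T2, ‖((f w.1 : ℝ) : ℂ)‖ ^ 2 = f w.1 ^ 2 := by
    intro w
    rw [Complex.norm_real, Real.norm_eq_abs, sq_abs]
  simp_rw [e1, e2] at hd
  have h3 : ∀ u : T2 → ℝ, ∫ w : T2 × T2, u w.1 ∂((volume : Measure T2).prod volume) = ∫ p, u p := by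
    intro u
    have := integral_fun_fst (μ := (volume : Measure T2)) (ν := (volume : Measure T2)) u
    simpa using this
  rw [h3 fun p => (∫ ω, f (XT a ω n p) ∂(PP ν)) ^ 2, h3 fun p => f p ^ 2] at hd
  exact hd

end Pool.Agent.Helper95.RX
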