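import Mathlib
import Pool.Agent.Helper95.RX.One
import Pool.Agent.Helper95.RX.Lift

/-! RX-DT: the derivative as a function on the torus. -/

set_option autoImplicit false
open MeasureTheory Real Set Filter Topology
open scoped ComplexConjugate ENNReal

namespace Pool.Agent.Helper95.RX

export Pool.Agent.Helper78.SM (Phi Phi_coe)

attribute [local instance] Pool.Agent.Helper53.SM.instProbU Pool.Agent.Helper53.SM.instProbT2

/-- the derivative as a function on the torus -/
noncomputable def DT (a : ℝ) (ω : ℕ → ℝ) : ℕ → T2 → (ℝ × ℝ →L[ℝ] ℝ × ℝ)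
  | 0, _ => ContinuousLinearMap.id ℝ (ℝ × ℝ)
  | n + 1, p => (L (Phi a ((XT (fun _ => a) ω n p).1 + ((ω n : ℝ) : UnitAddCircle)))).comp
      (DT a ω n p)

lemma DT_mk2 (a : ℝ) (ω : ℕ → ℝ) (n : ℕ) (q : ℝ × ℝ) :
    DT a ω n (mk2 q) = DY (fun _ => a) ω n q := by
  induction n with
  | zero => rfl
  | succ n ih =>
    have h1 : (XT (fun _ => a) ω n (mk2 q)).1 = (((YL (fun _ => a) ω n q).1 : ℝ) : UnitAddCircle) := by
      rw [← mk2_YL]
      rfl
    rw [DT, DY, ih, h1, ← AddCircle.coe_add, Phi_coe]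

private lemma dt_continuous_XT (a : ℝ) (n : ℕ) :
    Continuous (fun x : (ℕ → ℝ) × T2 => XT (fun _ => a) x.1 n x.2) := by
  induction n with
  | zero => exact continuous_snd
  | succ n ih =>
    have h1 : Continuous (fun x : (ℕ → ℝ) × T2 => ((x.1 n, XT (fun _ => a) x.1 n x.2) : ℝ × T2)) :=
      ((continuous_apply n).comp continuous_fst).prodMk ih
    exact (continuous_kf a).comp h1

private lemma dt_continuous_L : Continuous (fun t : ℝ => L t) := by
  have h1 : (fun t : ℝ => L t) = fun t : ℝ =>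
      t • ((ContinuousLinearMap.fst ℝ ℝ ℝ).prod (0 : ℝ × ℝ →L[ℝ] ℝ)) + L 0 := by
    funext t
    refine ContinuousLinearMap.ext fun h => ?_
    rw [ContinuousLinearMap.add_apply, ContinuousLinearMap.smul_apply,
      Pool.Agent.Helper78.SM.L_apply, Pool.Agent.Helper78.SM.L_apply]
    ext
    · simp
      ring
    · simp
  rw [h1]
  exact (continuous_id.smul continuous_const).add continuous_const

private lemma dt_continuous (a : ℝ) (n : ℕ) :
    Continuous (fun x : (ℕ → ℝ) × T2 => DT a x.1 n x.2) := by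
  induction n with
  | zero => exact continuous_const
  | succ n ih =>
    have h1 : Continuous (fun x : (ℕ → ℝ) × T2 =>
        Phi a ((XT (fun _ => a) x.1 n x.2).1 + ((x.1 n : ℝ) : UnitAddCircle))) := by
      have h2 : Continuous (Phi a) :=
        (Pool.Agent.Helper78.SM.continuous_csn.const_mul _).const_add _
      have h3 : Continuous (fun x : (ℕ → ℝ) × T2 => ((x.1 n : ℝ) : UnitAddCircle)) :=
        (AddCircle.continuous_mk' 1).comp ((continuous_apply n).comp continuous_fst)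
      exact h2.comp ((continuous_fst.comp (dt_continuous_XT a n)).add h3)
    exact (dt_continuous_L.comp h1).clm_comp ih

lemma measurable_DT (a : ℝ) (n : ℕ) : Measurable (fun x : (ℕ → ℝ) × T2 => ‖DT a x.1 n x.2‖) :=
  (dt_continuous a n).norm.measurable

private lemma dt_mk2_surj (p : T2) : ∃ q : ℝ × ℝ, mk2 q = p := by
  obtain ⟨x, hx⟩ := QuotientAddGroup.mk_surjective p.1
  obtain ⟨y, hy⟩ := QuotientAddGroup.mk_surjective p.2
  exact ⟨(x, y), Prod.ext hx hy⟩

/-- determinant one and the sup norm -/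
lemma one_le_norm_DT (a : ℝ) (ω : ℕ → ℝ) (n : ℕ) (p : T2) : 1 ≤ ‖DT a ω n p‖ := by
  obtain ⟨q, rfl⟩ := dt_mk2_surj p
  rw [DT_mk2]
  have hdet := det_DY (fun _ => a) ω n q
  set M := DY (fun _ => a) ω n q with hM
  have key : ∀ s t : ℝ, |s| ≤ 1 → |t| ≤ 1 →
      |s * (M (1, 0)).1 + t * (M (0, 1)).1| ≤ ‖M‖ ∧ |s * (M (1, 0)).2 + t * (M (0, 1)).2| ≤ ‖M‖ := by
    intro s t hs ht
    have h1 : M (s, t) = s • M (1, 0) + t • M (0, 1) := by
      rw [← map_smul, ← map_smul, ← map_add]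
      congr 1
      ext <;> simp
    have h2 := M.le_opNorm (s, t)
    have h3 : ‖((s, t) : ℝ × ℝ)‖ ≤ 1 := by
      rw [Prod.norm_def]
      exact max_le hs ht
    have h4 : ‖M (s, t)‖ ≤ ‖M‖ := by
      refine h2.trans ?_
      calc ‖M‖ * ‖((s, t) : ℝ × ℝ)‖ ≤ ‖M‖ * 1 := by gcongr
        _ = ‖M‖ := mul_one _
    rw [h1, Prod.norm_def] at h4
    exact ⟨(le_max_left _ _).trans h4, (le_max_right _ _).trans h4⟩
  have e1 : |(M (1, 0)).1| + |(M (0, 1)).1| ≤ ‖M‖ := by
    have h1 := (key 1 1 (by simp) (by simp)).1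
    have h2 := (key 1 (-1) (by simp) (by simp)).1
    rw [one_mul, one_mul, abs_le] at h1
    rw [one_mul, neg_one_mul, abs_le] at h2
    rcases abs_cases (M (1, 0)).1 with h3 | h3 <;> rcases abs_cases (M (0, 1)).1 with h4 | h4 <;>
      linarith
  have e2 : |(M (1, 0)).2| + |(M (0, 1)).2| ≤ ‖M‖ := by
    have h1 := (key 1 1 (by simp) (by simp)).2
    have h2 := (key 1 (-1) (by simp) (by simp)).2
    rw [one_mul, one_mul, abs_le] at h1
    rw [one_mul, neg_one_mul, abs_le] at h2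
    rcases abs_cases (M (1, 0)).2 with h3 | h3 <;> rcases abs_cases (M (0, 1)).2 with h4 | h4 <;>
      linarith
  have h5 : (1 : ℝ) ≤ |(M (1, 0)).1| * |(M (0, 1)).2| + |(M (0, 1)).1| * |(M (1, 0)).2| := by
    calc (1 : ℝ) = |(M (1, 0)).1 * (M (0, 1)).2 - (M (0, 1)).1 * (M (1, 0)).2| := by
          rw [hdet, abs_one]
      _ ≤ |(M (1, 0)).1 * (M (0, 1)).2| + |(M (0, 1)).1 * (M (1, 0)).2| := abs_sub _ _
      _ = _ := by rw [abs_mul, abs_mul]
  have h6 : (1 : ℝ) ≤ ‖M‖ * ‖M‖ := by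
    have h7 : |(M (1, 0)).1| * |(M (0, 1)).2| + |(M (0, 1)).1| * |(M (1, 0)).2| ≤
        (|(M (1, 0)).1| + |(M (0, 1)).1|) * (|(M (1, 0)).2| + |(M (0, 1)).2|) := by
      have a1 := abs_nonneg (M (1, 0)).1
      have a2 := abs_nonneg (M (0, 1)).1
      have a3 := abs_nonneg (M (1, 0)).2
      have a4 := abs_nonneg (M (0, 1)).2
      nlinarith [mul_nonneg a1 a3, mul_nonneg a2 a4]
    refine h5.trans (h7.trans ?_)
    exact mul_le_mul e1 e2 (by positivity) (norm_nonneg _)
  by_contra hc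
  push Not at hc
  have h0 := norm_nonneg M
  nlinarith

lemma norm_DT_le (a : ℝ) (ω : ℕ → ℝ) (n : ℕ) (p : T2) :
    ‖DT a ω n p‖ ≤ (3 + 2 * π * |a|) ^ n := by
  induction n with
  | zero =>
    rw [DT, pow_zero]
    exact ContinuousLinearMap.norm_id_le
  | succ n ih =>
    rw [DT, pow_succ, mul_comm]
    refine (ContinuousLinearMap.opNorm_comp_le _ _).trans ?_
    have h1 : ∀ θ : UnitAddCircle, ‖L (Phi a θ)‖ ≤ 3 + 2 * π * |a| := by
      intro θ
      refine (Pool.Agent.Helper78.SM.norm_L_le _).trans ?_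
      have h2 : |Phi a θ| ≤ 2 + 2 * π * |a| := by
        unfold Pool.Agent.Helper78.SM.Phi
        have h3 := Pool.Agent.Helper78.SM.abs_csn_le θ
        have h4 : |2 * π * a * csn θ| ≤ 2 * π * |a| := by
          rw [abs_mul, abs_mul, abs_of_pos (by positivity : (0 : ℝ) < 2 * π)]
          calc 2 * π * |a| * |csn θ| ≤ 2 * π * |a| * 1 := by gcongr
            _ = _ := mul_one _
        calc |2 + 2 * π * a * csn θ| ≤ |(2 : ℝ)| + |2 * π * a * csn θ| := abs_add_le _ _
          _ ≤ 2 + 2 * π * |a| := by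
            rw [abs_of_pos (by norm_num : (0 : ℝ) < 2)]
            linarith
      linarith
    exact mul_le_mul (h1 _) ih (norm_nonneg _) (by positivity)

lemma DT_add (a : ℝ) (n m : ℕ) (x : (ℕ → ℝ) × T2) :
    DT a x.1 (n + m) x.2 = (DT a ((FS a)^[n] x).1 m ((FS a)^[n] x).2).comp (DT a x.1 n x.2) := by
  rw [FS_iter]
  induction m with
  | zero => rfl
  | succ m ih =>
    have h1 : XT (fun _ => a) (fun i => x.1 (i + n)) m (XT (fun _ => a) x.1 n x.2) =
        XT (fun _ => a) x.1 (n + m) x.2 :=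
      (cmp_add (fun _ c => kf a c) x.1 n m x.2).symm
    have h2 : n + (m + 1) = (n + m) + 1 := rfl
    rw [h2, DT, ih]
    change _ = ((L _).comp _).comp _
    rw [h1, ContinuousLinearMap.comp_assoc, add_comm n m]

end Pool.Agent.Helper95.RX
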