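import Mathlib
import Pool.Agent.Helper95.RX.Diag
import Pool.Agent.Helper95.RX.Lift

/-! RX-FAT: the limit of small neighbourhoods. -/

set_option autoImplicit false
open MeasureTheory Real Set Filter Topology
open scoped ComplexConjugate ENNReal

namespace Pool.Agent.Helper95.RX

attribute [local instance] Pool.Agent.Helper53.SM.instProbU Pool.Agent.Helper53.SM.instProbT2

private lemma nrm_le (u : ℝ) : ‖(u : UnitAddCircle)‖ ≤ |u| := by
  rw [UnitAddCircle.norm_eq]
  simpa using round_le u 0

/-- pointwise limit: if `‖D v‖ < 1` then `mk2 (x + ε v)` is carried into the neighbourhood for all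
small `ε`, so by Fatou -/
lemma fatou_plane (a : ℕ → ℝ) (ω : ℕ → ℝ) (n : ℕ) (x : ℝ × ℝ) {ε : ℕ → ℝ} (hε : ∀ k, 0 < ε k)
    (hε0 : Tendsto ε atTop (𝓝 0)) :
    volume {v : ℝ × ℝ | ‖v‖ < 1 ∧ ‖DY a ω n x v‖ < 1} ≤
      liminf (fun k => volume {v : ℝ × ℝ | ‖v‖ < 1 ∧
        (XT a ω n (mk2 x), XT a ω n (mk2 (x + ε k • v))) ∈ AA (ε k)}) atTop := by
  have hXm : Measurable (XT a ω n) := (mp_XT a ω n).measurable
  have hmk : Measurable mk2 := mp_mk2.measurable
  set S : ℕ → Set (ℝ × ℝ) := fun k => {v : ℝ × ℝ | ‖v‖ < 1 ∧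
        (XT a ω n (mk2 x), XT a ω n (mk2 (x + ε k • v))) ∈ AA (ε k)} with hS
  have hSm : ∀ k, MeasurableSet (S k) := by
    intro k
    refine (measurableSet_lt measurable_norm measurable_const).inter ?_
    refine (measurableSet_AA (ε k)).preimage ?_
    refine measurable_const.prodMk (hXm.comp (hmk.comp ?_))
    have hc : Continuous (fun v : ℝ × ℝ => x + ε k • v) := by fun_prop
    exact hc.measurable
  set Ds : Set (ℝ × ℝ) := {v : ℝ × ℝ | ‖v‖ < 1 ∧ ‖DY a ω n x v‖ < 1} with hDs
  have hDm : MeasurableSet Ds := by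
    have h1 : Continuous (fun v : ℝ × ℝ => ‖DY a ω n x v‖) := (DY a ω n x).continuous.norm
    exact (measurableSet_lt measurable_norm measurable_const).inter (measurableSet_lt h1.measurable measurable_const)
  -- pointwise
  have hpt : ∀ v ∈ Ds, ∀ᶠ k in atTop, v ∈ S k := by
    rintro v ⟨hv1, hv2⟩
    have h1 := (hasFDerivAt_iff_isLittleO_nhds_zero.1 (hasFDerivAt_YL a ω n x))
    have h2 : Tendsto (fun k => ε k • v) atTop (𝓝 0) := by
      have := hε0.smul_const v
      rwa [zero_smul] at this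
    have h3 := h1.comp_tendsto h2
    set δ : ℝ := 1 - ‖DY a ω n x v‖ with hδ
    have hδ0 : 0 < δ := by rw [hδ]; linarith
    have h4 := h3.bound (c := δ / 2) (by positivity)
    filter_upwards [h4] with k hk
    refine ⟨hv1, ?_⟩
    simp only [Function.comp] at hk
    have hεk := hε k
    have h5 : ‖YL a ω n (x + ε k • v) - YL a ω n x‖ < ε k := by
      have h6 : YL a ω n (x + ε k • v) - YL a ω n x =
          (YL a ω n (x + ε k • v) - YL a ω n x - DY a ω n x (ε k • v)) + DY a ω n x (ε k • v) := by abel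
      rw [h6]
      refine lt_of_le_of_lt (norm_add_le _ _) ?_
      rw [map_smul, norm_smul, Real.norm_of_nonneg hεk.le]
      rw [norm_smul, Real.norm_of_nonneg hεk.le, map_smul] at hk
      have h7 : δ / 2 * (ε k * ‖v‖) ≤ δ / 2 * (ε k * 1) := by gcongr
      have h8 : ‖DY a ω n x v‖ = 1 - δ := by rw [hδ]; ring
      rw [h8]
      nlinarith
    show (XT a ω n (mk2 x), XT a ω n (mk2 (x + ε k • v))) ∈ AA (ε k)
    rw [← mk2_YL, ← mk2_YL]
    have h6 := h5
    rw [Prod.norm_def, max_lt_iff] at h6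
    refine ⟨?_, ?_⟩
    · show ‖((YL a ω n (x + ε k • v)).1 : UnitAddCircle) - ((YL a ω n x).1 : UnitAddCircle)‖ < ε k
      rw [← AddCircle.coe_sub]
      exact lt_of_le_of_lt (nrm_le _) h6.1
    · show ‖((YL a ω n (x + ε k • v)).2 : UnitAddCircle) - ((YL a ω n x).2 : UnitAddCircle)‖ < ε k
      rw [← AddCircle.coe_sub]
      exact lt_of_le_of_lt (nrm_le _) h6.2
  calc volume Ds = ∫⁻ v, Ds.indicator 1 v := by rw [lintegral_indicator_one hDm]
    _ ≤ ∫⁻ v, liminf (fun k => (S k).indicator 1 v) atTop := by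
        apply lintegral_mono
        intro v
        by_cases hv : v ∈ Ds
        · rw [indicator_of_mem hv, Pi.one_apply]
          refine le_liminf_of_le (by isBoundedDefault) ?_
          filter_upwards [hpt v hv] with k hk
          rw [indicator_of_mem hk, Pi.one_apply]
        · rw [indicator_of_notMem hv]; exact zero_le
    _ ≤ liminf (fun k => ∫⁻ v, (S k).indicator 1 v) atTop :=
        lintegral_liminf_le fun k => measurable_one.indicator (hSm k)
    _ = liminf (fun k => volume (S k)) atTop := by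
        congr 1
        funext k
        rw [lintegral_indicator_one (hSm k)]

end Pool.Agent.Helper95.RX
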