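import Mathlib
import Pool.Agent.Helper95.RX.MixT
import Pool.Agent.Helper95.RX.Grow
import Pool.Agent.Helper95.RX.DTl
import Pool.Agent.Helper18.SD.King

/-! RX-LAM: identically distributed kicks, the exponent exists. -/

set_option autoImplicit false
open MeasureTheory Real Set Filter Topology
open scoped ComplexConjugate ENNReal

namespace Pool.Agent.Helper95.RX

attribute [local instance] Pool.Agent.Helper53.SM.instProbU Pool.Agent.Helper53.SM.instProbT2

variable {A s q : ℝ} {a : ℝ} {ν : Measure ℝ} [IsProbabilityMeasure ν]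

/-- almost everywhere statements on the torus lift to the plane -/
private lemma lam_ae_mk2 {p : T2 → Prop} (h : ∀ᵐ x : T2, p x) : ∀ᵐ x : ℝ × ℝ, p (mk2 x) := by
  have hU : (⋃ i : ℤ × ℤ, Ioc (i.1 : ℝ) (i.1 + 1) ×ˢ Ioc (i.2 : ℝ) (i.2 + 1)) = univ := by
    refine eq_univ_of_forall fun x => mem_iUnion.2 ⟨(⌈x.1⌉ - 1, ⌈x.2⌉ - 1), ?_⟩
    have h1 := Int.ceil_lt_add_one x.1
    have h2 := Int.le_ceil x.1
    have h3 := Int.ceil_lt_add_one x.2
    have h4 := Int.le_ceil x.2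
    refine ⟨⟨?_, ?_⟩, ⟨?_, ?_⟩⟩ <;> push_cast <;> linarith
  rw [← Measure.restrict_univ (μ := (volume : Measure (ℝ × ℝ))), ← hU, ae_restrict_iUnion_iff]
  intro i
  have h1 := (UnitAddCircle.measurePreserving_mk (i.1 : ℝ)).prod
    (UnitAddCircle.measurePreserving_mk (i.2 : ℝ))
  rw [Measure.prod_restrict] at h1
  exact h1.quasiMeasurePreserving.ae h

/-- `kingman_bdd` for `log ‖DT‖`, ergodicity, `growth`; then from the torus to the plane (`mp_mk2`,
`DT_mk2`, `DY_add_int`) -/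
theorem exists_lambda (hA0 : 0 < A) (hA1 : A ≤ 1) (hs0 : 0 < s) (hs1 : s ≤ 1)
    (hq0 : 0 < q) (hq1 : q ≤ 1) (ha : A ≤ |a|) (hsp : Spread s q ν) :
    ∃ l : ℝ, eta A s q / 64 ≤ l ∧ ∀ᵐ ω ∂(PP (fun _ => ν)), ∀ᵐ x : ℝ × ℝ,
      Tendsto (fun n : ℕ => Real.log ‖DY (fun _ => a) ω n x‖ / n) atTop (𝓝 l) := by
  have herg := ergodic_FS (a := a) hA0 hA1 hs0 hs1 hq0 hq1 ha hsp
  have hB1 : 1 ≤ 3 + 2 * π * |a| := by
    have : 0 ≤ 2 * π * |a| := by positivity
    linarith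
  have hg0 : ∀ (n : ℕ) (x : (ℕ → ℝ) × T2), 0 ≤ Real.log ‖DT a x.1 n x.2‖ := fun n x =>
    Real.log_nonneg (one_le_norm_DT a x.1 n x.2)
  obtain ⟨G, hGm, -, hGinv, hGlim, -⟩ := Pool.Agent.Helper18.SD.kingman_bdd
    (μ := (PP (fun _ => ν)).prod (volume : Measure T2)) (T := FS a) herg.toMeasurePreserving
    (g := fun n x => Real.log ‖DT a x.1 n x.2‖)
    (fun n => Real.measurable_log.comp (measurable_DT a n)) (C := Real.log (3 + 2 * π * |a|))
    (by
      intro n x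
      rw [abs_of_nonneg (hg0 n x), mul_comm, ← Real.log_pow]
      exact Real.log_le_log (by linarith [one_le_norm_DT a x.1 n x.2]) (norm_DT_le a x.1 n x.2))
    (by
      intro n m x
      have h1 := one_le_norm_DT a x.1 n x.2
      have h2 := one_le_norm_DT a ((FS a)^[n] x).1 m ((FS a)^[n] x).2
      have h3 := one_le_norm_DT a x.1 (n + m) x.2
      change Real.log ‖DT a x.1 (n + m) x.2‖ ≤ Real.log ‖DT a x.1 n x.2‖ +
        Real.log ‖DT a ((FS a)^[n] x).1 m ((FS a)^[n] x).2‖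
      rw [← Real.log_mul (by linarith) (by linarith)]
      refine Real.log_le_log (by linarith) ?_
      rw [DT_add a n m x, mul_comm]
      exact ContinuousLinearMap.opNorm_comp_le _ _)
  obtain ⟨l, hl⟩ := herg.ae_eq_const_of_ae_eq_comp_ae hGm.aestronglyMeasurable hGinv
  have hlim : ∀ᵐ x ∂((PP (fun _ => ν)).prod (volume : Measure T2)),
      Tendsto (fun n : ℕ => Real.log ‖DT a x.1 n x.2‖ / n) atTop (𝓝 l) := by
    filter_upwards [hGlim, hl] with x h1 h2
    rw [h2] at h1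
    exact h1
  have hpl : ∀ᵐ ω ∂(PP (fun _ => ν)), ∀ᵐ x : ℝ × ℝ,
      Tendsto (fun n : ℕ => Real.log ‖DY (fun _ => a) ω n x‖ / n) atTop (𝓝 l) := by
    filter_upwards [Measure.ae_ae_of_ae_prod hlim] with ω hω
    filter_upwards [lam_ae_mk2 hω] with x hx
    refine hx.congr fun n => ?_
    rw [DT_mk2]
  refine ⟨l, ?_, hpl⟩
  have hgr := growth (a := fun _ => a) (ν := fun _ => ν) hA0 hA1 hs0 hs1 hq0 hq1 (fun _ => ha)
    (fun _ => hsp)
  obtain ⟨ω, h1, h2⟩ := (hpl.and hgr).exists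
  obtain ⟨x, h3, h4⟩ := (h1.and h2).exists
  refine ge_of_tendsto h3 ?_
  filter_upwards [h4, eventually_gt_atTop 0] with n hn hn0
  have hn0' : (0 : ℝ) < n := by exact_mod_cast hn0
  rw [le_div_iff₀ hn0']
  exact (Real.le_log_iff_exp_le ((Real.exp_pos _).trans_le hn)).2 hn

end Pool.Agent.Helper95.RX
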