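import Mathlib
import Pool.Agent.Helper95.RX.Que

/-! RX-QL2: the variance bound for square integrable functions. -/

set_option autoImplicit false
open MeasureTheory Real Set Filter Topology
open scoped ComplexConjugate ENNReal

namespace Pool.Agent.Helper95.RX

attribute [local instance] Pool.Agent.Helper53.SM.instProbU Pool.Agent.Helper53.SM.instProbT2

variable {A s q : ℝ} {a : ℕ → ℝ} {ν : ℕ → Measure ℝ} [∀ i, IsProbabilityMeasure (ν i)]

/-- truncation -/
private noncomputable def tr (k : ℕ) (x : ℝ) : ℝ := max (-(k : ℝ)) (min x k)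

private lemma tr_le (k : ℕ) (x : ℝ) : |tr k x| ≤ k := by
  have hk : (0:ℝ) ≤ k := Nat.cast_nonneg k
  unfold tr
  exact abs_le.2 ⟨le_max_left _ _, max_le (by linarith) (min_le_right _ _)⟩

private lemma tr_le_abs (k : ℕ) (x : ℝ) : |tr k x| ≤ |x| := by
  have hk : (0:ℝ) ≤ k := Nat.cast_nonneg k
  have hx := abs_nonneg x
  unfold tr
  refine abs_le.2 ⟨?_, max_le (by linarith) ((min_le_left _ _).trans (le_abs_self x))⟩
  exact le_max_of_le_right (le_min (neg_abs_le x) (by linarith))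

private lemma tr_tendsto (x : ℝ) : Tendsto (fun k => tr k x) atTop (𝓝 x) := by
  refine tendsto_const_nhds.congr' ?_
  filter_upwards [eventually_ge_atTop ⌈|x|⌉₊] with k hk
  have h1 : |x| ≤ k := (Nat.le_ceil _).trans (by exact_mod_cast hk)
  have h2 := abs_le.1 h1
  unfold tr
  rw [min_eq_left h2.2, max_eq_right h2.1]

private lemma tr_meas (k : ℕ) : Measurable (tr k) := by
  unfold tr
  exact measurable_const.max (measurable_id.min measurable_const)

private lemma quench_m (hA0 : 0 < A) (hA1 : A ≤ 1) (hs0 : 0 < s) (hs1 : s ≤ 1)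
    (hq0 : 0 < q) (hq1 : q ≤ 1) (ha : ∀ i, A ≤ |a i|) (hsp : ∀ i, Spread s q (ν i))
    {φ ψ : T2 → ℝ} (hφm : Measurable φ) (hψm : Measurable ψ) (hφ : MemLp φ 2 volume) (hψ : MemLp ψ 2 volume) (n : ℕ) :
    ∫ ω, ((∫ p : T2, φ (XT a ω n p) * ψ p) - (∫ p, φ p) * ∫ p, ψ p) ^ 2 ∂(PP ν) ≤
      rho A s q n * (∫ p, φ p ^ 2) * (∫ p, ψ p ^ 2) := by
  have hrho := rho_nonneg A s q n
  have hφi : Integrable φ (volume : Measure T2) := hφ.integrable (by norm_num)
  have hψi : Integrable ψ (volume : Measure T2) := hψ.integrable (by norm_num)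
  have hφ2 : Integrable (fun p => φ p ^ 2) (volume : Measure T2) := hφ.integrable_sq
  have hψ2 : Integrable (fun p => ψ p ^ 2) (volume : Measure T2) := hψ.integrable_sq
  set M : ℝ := rho A s q n * (∫ p, φ p ^ 2) * (∫ p, ψ p ^ 2) with hM
  have hI1 : 0 ≤ ∫ p, φ p ^ 2 := integral_nonneg fun p => sq_nonneg _
  have hI2 : 0 ≤ ∫ p, ψ p ^ 2 := integral_nonneg fun p => sq_nonneg _
  have hM0 : 0 ≤ M := by positivity
  set G : (ℕ → ℝ) → ℝ := fun ω => (∫ p : T2, φ (XT a ω n p) * ψ p) - (∫ p, φ p) * ∫ p, ψ p with hG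
  set Gk : ℕ → (ℕ → ℝ) → ℝ := fun k ω => (∫ p : T2, tr k (φ (XT a ω n p)) * tr k (ψ p)) - (∫ p, tr k (φ p)) * ∫ p, tr k (ψ p) with hGk
  -- each truncation
  have hsq : ∀ (f : T2 → ℝ), Measurable f → Integrable (fun p => f p ^ 2) (volume : Measure T2) → ∀ k : ℕ,
      ∫ p, tr k (f p) ^ 2 ≤ ∫ p, f p ^ 2 := by
    intro f hfm hf2 k
    apply integral_mono_of_nonneg (ae_of_all _ fun p => sq_nonneg _) hf2 (ae_of_all _ fun p => ?_)
    exact sq_le_sq.2 (tr_le_abs k (f p))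
  have hk : ∀ k, ∫ ω, (Gk k ω) ^ 2 ∂(PP ν) ≤ M := by
    intro k
    have h1 := quench hA0 hA1 hs0 hs1 hq0 hq1 ha hsp (φ := fun p => tr k (φ p)) (ψ := fun p => tr k (ψ p))
      ((tr_meas k).comp hφm) ⟨k, fun p => tr_le k _⟩ ((tr_meas k).comp hψm) ⟨k, fun p => tr_le k _⟩ n
    refine h1.trans ?_
    have h2 := hsq φ hφm hφ2 k
    have h3 := hsq ψ hψm hψ2 k
    have h4 : 0 ≤ ∫ p, tr k (φ p) ^ 2 := integral_nonneg fun p => sq_nonneg _
    have h5 : 0 ≤ ∫ p, tr k (ψ p) ^ 2 := integral_nonneg fun p => sq_nonneg _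
    rw [hM]
    gcongr
  -- measurability
  have hGkm : ∀ k, Measurable (Gk k) := by
    intro k
    have h1 : Measurable (fun q : (ℕ → ℝ) × T2 => tr k (φ (XT a q.1 n q.2)) * tr k (ψ q.2)) :=
      ((tr_meas k).comp (hφm.comp (measurable_XT a n))).mul ((tr_meas k).comp (hψm.comp measurable_snd))
    exact (h1.stronglyMeasurable.integral_prod_right').measurable.sub_const _
  have hbound : ∀ (f : T2 → ℝ) (C : ℝ), (∀ p, |f p| ≤ C) → |∫ p, f p| ≤ C := by
    intro f C hf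
    have h1 := norm_integral_le_of_norm_le_const (μ := (volume : Measure T2)) (f := f) (C := C)
      (ae_of_all _ fun p => by rw [Real.norm_eq_abs]; exact hf p)
    rw [Real.norm_eq_abs, probReal_univ, mul_one] at h1
    exact h1
  have hGkb : ∀ k ω, |Gk k ω| ≤ k * k + k * k := by
    intro k ω
    refine (abs_sub _ _).trans (add_le_add ?_ ?_)
    · refine hbound _ _ fun p => ?_
      rw [abs_mul]
      exact mul_le_mul (tr_le k _) (tr_le k _) (abs_nonneg _) (Nat.cast_nonneg k)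
    · rw [abs_mul]
      exact mul_le_mul (hbound _ _ fun p => tr_le k _) (hbound _ _ fun p => tr_le k _) (abs_nonneg _) (Nat.cast_nonneg k)
  have hGki : ∀ k, Integrable (fun ω => (Gk k ω) ^ 2) (PP ν) := by
    intro k
    refine Integrable.of_bound ((hGkm k).pow_const 2).aestronglyMeasurable ((k * k + k * k) ^ 2) (ae_of_all _ fun ω => ?_)
    rw [Real.norm_eq_abs, abs_pow]
    exact pow_le_pow_left₀ (abs_nonneg _) (hGkb k ω) 2
  -- pointwise convergence
  have hlim1 : ∀ (f : T2 → ℝ), Measurable f → Integrable f (volume : Measure T2) →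
      Tendsto (fun k : ℕ => ∫ p, tr k (f p)) atTop (𝓝 (∫ p, f p)) := by
    intro f hfm hfi
    refine tendsto_integral_of_dominated_convergence (fun p => |f p|) (fun k => ((tr_meas k).comp hfm).aestronglyMeasurable)
      hfi.abs (fun k => ae_of_all _ fun p => ?_) (ae_of_all _ fun p => tr_tendsto _)
    rw [Real.norm_eq_abs]; exact tr_le_abs k _
  have hlim : ∀ ω, Tendsto (fun k => Gk k ω) atTop (𝓝 (G ω)) := by
    intro ω
    have hXm := mp_XT a ω n
    have hφX : MemLp (fun p => φ (XT a ω n p)) 2 (volume : Measure T2) := hφ.comp_measurePreserving hXm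
    refine Tendsto.sub ?_ ((hlim1 φ hφm hφi).mul (hlim1 ψ hψm hψi))
    refine tendsto_integral_of_dominated_convergence (fun p => |φ (XT a ω n p) * ψ p|) (fun k => ?_) ?_ (fun k => ?_) ?_
    · exact (((tr_meas k).comp (hφm.comp hXm.measurable)).mul ((tr_meas k).comp hψm)).aestronglyMeasurable
    · exact (hφX.integrable_mul hψ).abs
    · refine ae_of_all _ fun p => ?_
      rw [Real.norm_eq_abs, abs_mul, abs_mul]
      exact mul_le_mul (tr_le_abs k _) (tr_le_abs k _) (abs_nonneg _) (abs_nonneg _)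
    · exact ae_of_all _ fun p => (tr_tendsto _).mul (tr_tendsto _)
  -- Fatou
  by_cases hGi : Integrable (fun ω => G ω ^ 2) (PP ν)
  · have h1 : ENNReal.ofReal (∫ ω, G ω ^ 2 ∂(PP ν)) ≤ ENNReal.ofReal M := by
      rw [ofReal_integral_eq_lintegral_ofReal hGi (ae_of_all _ fun ω => sq_nonneg _)]
      calc ∫⁻ ω, ENNReal.ofReal (G ω ^ 2) ∂(PP ν)
          = ∫⁻ ω, liminf (fun k => ENNReal.ofReal (Gk k ω ^ 2)) atTop ∂(PP ν) := by
            apply lintegral_congr
            intro ω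
            exact (ENNReal.tendsto_ofReal ((hlim ω).pow 2)).liminf_eq.symm
        _ ≤ liminf (fun k => ∫⁻ ω, ENNReal.ofReal (Gk k ω ^ 2) ∂(PP ν)) atTop :=
            lintegral_liminf_le fun k => ENNReal.measurable_ofReal.comp ((hGkm k).pow_const 2)
        _ ≤ liminf (fun _ : ℕ => ENNReal.ofReal M) atTop := by
            refine liminf_le_liminf (Eventually.of_forall fun k => ?_) (by isBoundedDefault) (by isBoundedDefault)
            rw [← ofReal_integral_eq_lintegral_ofReal (hGki k) (ae_of_all _ fun ω => sq_nonneg _)]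
            exact ENNReal.ofReal_le_ofReal (hk k)
        _ = ENNReal.ofReal M := liminf_const _
    exact (ENNReal.ofReal_le_ofReal_iff hM0).1 h1
  · rw [integral_undef hGi]
    exact hM0

/-- the same for square integrable functions, by truncation: `φ_k = max (-k) (min φ k)`, and
`|⟨φ∘X,ψ⟩ - ⟨φ_k∘X,ψ_k⟩|` is small uniformly in `ω` -/
theorem quench_L2 (hA0 : 0 < A) (hA1 : A ≤ 1) (hs0 : 0 < s) (hs1 : s ≤ 1)
    (hq0 : 0 < q) (hq1 : q ≤ 1) (ha : ∀ i, A ≤ |a i|) (hsp : ∀ i, Spread s q (ν i))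
    {φ ψ : T2 → ℝ} (hφ : MemLp φ 2 volume) (hψ : MemLp ψ 2 volume) (n : ℕ) :
    ∫ ω, ((∫ p : T2, φ (XT a ω n p) * ψ p) - (∫ p, φ p) * ∫ p, ψ p) ^ 2 ∂(PP ν) ≤
      rho A s q n * (∫ p, φ p ^ 2) * (∫ p, ψ p ^ 2) := by
  obtain ⟨φ', hφ'm, hφ'⟩ : ∃ φ' : T2 → ℝ, Measurable φ' ∧ φ =ᵐ[volume] φ' :=
    ⟨hφ.aestronglyMeasurable.mk φ, hφ.aestronglyMeasurable.stronglyMeasurable_mk.measurable, hφ.aestronglyMeasurable.ae_eq_mk⟩
  obtain ⟨ψ', hψ'm, hψ'⟩ : ∃ ψ' : T2 → ℝ, Measurable ψ' ∧ ψ =ᵐ[volume] ψ' :=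
    ⟨hψ.aestronglyMeasurable.mk ψ, hψ.aestronglyMeasurable.stronglyMeasurable_mk.measurable, hψ.aestronglyMeasurable.ae_eq_mk⟩
  have h1 := quench_m hA0 hA1 hs0 hs1 hq0 hq1 ha hsp hφ'm hψ'm ((memLp_congr_ae hφ').1 hφ) ((memLp_congr_ae hψ').1 hψ) n
  have e1 : ∫ p, φ p = ∫ p, φ' p := integral_congr_ae hφ'
  have e2 : ∫ p, ψ p = ∫ p, ψ' p := integral_congr_ae hψ'
  have e3 : ∫ p, φ p ^ 2 = ∫ p, φ' p ^ 2 := integral_congr_ae (by filter_upwards [hφ'] with p hp; rw [hp])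
  have e4 : ∫ p, ψ p ^ 2 = ∫ p, ψ' p ^ 2 := integral_congr_ae (by filter_upwards [hψ'] with p hp; rw [hp])
  have e5 : ∀ ω : ℕ → ℝ, ∫ p : T2, φ (XT a ω n p) * ψ p = ∫ p : T2, φ' (XT a ω n p) * ψ' p := by
    intro ω
    have h2 := (mp_XT a ω n).quasiMeasurePreserving.ae_eq_comp hφ'
    apply integral_congr_ae
    filter_upwards [h2, hψ'] with p hp1 hp2
    have hp1' : φ (XT a ω n p) = φ' (XT a ω n p) := hp1
    rw [hp1', hp2]
  simp_rw [e5]
  rw [e1, e2, e3, e4]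
  exact h1

end Pool.Agent.Helper95.RX
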