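import Mathlib
import Pool.Agent.Helper95.RX.Lam
import Pool.Agent.Helper95.RX.LipB
import Pool.Agent.Helper95.RX.QL2

/-! RX-FINAL: the theorem (helper95). -/

set_option autoImplicit false
open MeasureTheory Real Set Filter Topology
open scoped ComplexConjugate ENNReal

namespace Pool.Agent.Helper95.RX

/-- the standard map with parameter `a` after a kick of size `t`, in the plane -/
noncomputable def step (a t : ℝ) (z : ℝ × ℝ) : ℝ × ℝ :=
  (2 * (z.1 + t) - z.2 + a * Real.sin (2 * π * (z.1 + t)), z.1 + t)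

/-- composition of the first `n` kicked maps -/
noncomputable def orbit (a t : ℕ → ℝ) : ℕ → ℝ × ℝ → ℝ × ℝ
  | 0, z => z
  | n + 1, z => step (a n) (t n) (orbit a t n z)

attribute [local instance] Pool.Agent.Helper53.SM.instProbU Pool.Agent.Helper53.SM.instProbT2

lemma orbit_eq (a t : ℕ → ℝ) (n : ℕ) : orbit a t n = YL a t n := by
  induction n with
  | zero => rfl
  | succ n ih =>
    funext z
    show step (a n) (t n) (orbit a t n z) = Sw (a n) (t n) (YL a t n z)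
    rw [ih]
    rfl

lemma X_eq {a : ℕ → ℝ} {X : ℕ → (ℕ → ℝ) → UnitAddCircle × UnitAddCircle → UnitAddCircle × UnitAddCircle}
    (hX : ∀ n t (x y : ℝ), X n t ((x : UnitAddCircle), (y : UnitAddCircle)) =
      (((orbit a t n (x, y)).1 : UnitAddCircle), ((orbit a t n (x, y)).2 : UnitAddCircle)))
    (n : ℕ) (t : ℕ → ℝ) (p : UnitAddCircle × UnitAddCircle) : X n t p = XT a t n p := by
  obtain ⟨x, y⟩ := p
  induction x using QuotientAddGroup.induction_on with
  | H x =>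
    induction y using QuotientAddGroup.induction_on with
    | H y =>
      have h1 := hX n t x y
      have h2 := mk2_YL a t n (x, y)
      rw [orbit_eq] at h1
      exact h1.trans h2

lemma fderiv_orbit (a t : ℕ → ℝ) (n : ℕ) (z : ℝ × ℝ) : fderiv ℝ (orbit a t n) z = DY a t n z := by
  rw [orbit_eq]
  exact (hasFDerivAt_YL a t n z).fderiv

lemma eta_ge {A s q : ℝ} (hA : 0 < A) (hs : 0 < s) (hq : 0 < q) :
    q * s ^ 22 * A ^ 3 / 10 ^ 17 ≤ eta A s q / 64 := by
  unfold eta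
  have : 0 ≤ q * s ^ 22 * A ^ 3 := by positivity
  rw [div_div, div_le_div_iff₀ (by positivity) (by positivity)]
  nlinarith

theorem main (A s q : ℝ) (hA : 0 < A) (hA1 : A ≤ 1) (hs : 0 < s) (hs1 : s ≤ 1) (hq : 0 < q)
    (hq1 : q ≤ 1) (a : ℕ → ℝ) (ha : ∀ n, A ≤ |a n|) (ν : ℕ → Measure ℝ)
    [∀ n, IsProbabilityMeasure (ν n)]
    (hν : ∀ n, q ≤ ((ν n).prod (ν n)).real {t : ℝ × ℝ | s ≤ |Real.sin (2 * π * (t.1 - t.2))|})
    (X : ℕ → (ℕ → ℝ) → UnitAddCircle × UnitAddCircle → UnitAddCircle × UnitAddCircle)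
    (hX : ∀ n t (x y : ℝ), X n t ((x : UnitAddCircle), (y : UnitAddCircle)) =
      (((orbit a t n (x, y)).1 : UnitAddCircle), ((orbit a t n (x, y)).2 : UnitAddCircle))) :
    (∀ φ ψ : UnitAddCircle × UnitAddCircle → ℝ, MemLp φ 2 volume → MemLp ψ 2 volume → ∀ n : ℕ,
      ∫ t, ((∫ p, φ (X n t p) * ψ p) - (∫ p, φ p) * ∫ p, ψ p) ^ 2 ∂(Measure.infinitePi ν) ≤
        2 * Real.exp (-(q * s ^ 22 * A ^ 3 / 10 ^ 17 * n)) * (∫ p, φ p ^ 2) * ∫ p, ψ p ^ 2) ∧
    (∀ᵐ t ∂(Measure.infinitePi ν), ∃ C : ℝ, ∀ (n : ℕ) (φ ψ : UnitAddCircle × UnitAddCircle → ℝ),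
      LipschitzWith 1 φ → LipschitzWith 1 ψ → (∀ p, |φ p| ≤ 1) → (∀ p, |ψ p| ≤ 1) →
      |(∫ p, φ (X n t p) * ψ p) - (∫ p, φ p) * ∫ p, ψ p| ≤
        C * Real.exp (-(q * s ^ 22 * A ^ 3 / 10 ^ 17 * n))) ∧
    (∀ᵐ t ∂(Measure.infinitePi ν), ∀ᵐ z : ℝ × ℝ, ∀ᶠ n : ℕ in atTop,
      Real.exp (q * s ^ 22 * A ^ 3 / 10 ^ 17 * n) ≤ ‖fderiv ℝ (orbit a t n) z‖) ∧
    ((∀ n, a n = a 0) → (∀ n, ν n = ν 0) →
      (∀ U B : Set ((ℕ → ℝ) × (UnitAddCircle × UnitAddCircle)), MeasurableSet U →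
        MeasurableSet B → Tendsto (fun n : ℕ => ((Measure.infinitePi ν).prod volume)
          (U ∩ {x | ((fun i => x.1 (i + n)), X n x.1 x.2) ∈ B})) atTop
          (𝓝 (((Measure.infinitePi ν).prod volume) U * ((Measure.infinitePi ν).prod volume) B))) ∧
      ∃ l : ℝ, q * s ^ 22 * A ^ 3 / 10 ^ 17 ≤ l ∧
        ∀ᵐ t ∂(Measure.infinitePi ν), ∀ᵐ z : ℝ × ℝ,
          Tendsto (fun n : ℕ => Real.log ‖fderiv ℝ (orbit a t n) z‖ / n) atTop (𝓝 l)) := by
  have hXe : X = fun n t => XT a t n := by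
    funext n t p
    exact X_eq hX n t p
  subst hXe
  set g := q * s ^ 22 * A ^ 3 / 10 ^ 17 with hg
  have hg0 : 0 ≤ g := by rw [hg]; positivity
  have hge : g ≤ eta A s q / 64 := eta_ge hA hs hq
  have hsp : ∀ i, Spread s q (ν i) := hν
  have hPP : Measure.infinitePi ν = PP ν := rfl
  rw [hPP]
  refine ⟨?_, ?_, ?_, ?_⟩
  · intro φ ψ hφ hψ n
    refine (quench_L2 hA hA1 hs hs1 hq hq1 ha hsp hφ hψ n).trans ?_
    have h1 : rho A s q n ≤ 2 * Real.exp (-(g * n)) := by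
      refine (rho_le hA hA1 hs hs1 hq hq1 n).trans ?_
      have h2 : Real.sqrt 2 ≤ 2 := by
        rw [Real.sqrt_le_left (by norm_num)]; norm_num
      have h3 : Real.exp (-(eta A s q * n / 8)) ≤ Real.exp (-(g * n)) := by
        apply Real.exp_le_exp.2
        have hn : (0:ℝ) ≤ n := Nat.cast_nonneg n
        have : g * n ≤ eta A s q / 8 * n := by
          apply mul_le_mul_of_nonneg_right _ hn
          linarith
        linarith
      gcongr
    have h4 : 0 ≤ ∫ p, φ p ^ 2 := integral_nonneg (fun p => sq_nonneg _)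
    have h5 : 0 ≤ ∫ p, ψ p ^ 2 := integral_nonneg (fun p => sq_nonneg _)
    gcongr
  · filter_upwards [quenched_lip hA hA1 hs hs1 hq hq1 ha hsp] with t ht
    obtain ⟨C, hC⟩ := ht
    refine ⟨max C 0, fun n φ ψ h1 h2 h3 h4 => (hC n φ ψ h1 h2 h3 h4).trans ?_⟩
    have hn : (0:ℝ) ≤ n := Nat.cast_nonneg n
    have h5 : Real.exp (-(eta A s q / 64 * n)) ≤ Real.exp (-(g * n)) := by
      apply Real.exp_le_exp.2
      have : g * n ≤ eta A s q / 64 * n := mul_le_mul_of_nonneg_right hge hn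
      linarith
    calc C * Real.exp (-(eta A s q / 64 * n)) ≤ max C 0 * Real.exp (-(eta A s q / 64 * n)) := by
          gcongr; exact le_max_left _ _
      _ ≤ _ := by gcongr
  · filter_upwards [growth hA hA1 hs hs1 hq hq1 ha hsp] with t ht
    filter_upwards [ht] with z hz
    filter_upwards [hz] with n hn
    rw [fderiv_orbit]
    refine le_trans ?_ hn
    apply Real.exp_le_exp.2
    exact mul_le_mul_of_nonneg_right hge (Nat.cast_nonneg n)
  · intro ha0 hν0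
    obtain ⟨b, rfl⟩ : ∃ b, a = fun _ => b := ⟨a 0, funext ha0⟩
    obtain ⟨ρ, rfl⟩ : ∃ ρ, ν = fun _ => ρ := ⟨ν 0, funext hν0⟩
    have : IsProbabilityMeasure ρ := ‹∀ n, IsProbabilityMeasure ((fun _ => ρ) n)› 0
    refine ⟨?_, ?_⟩
    · intro U B hU hB
      have h1 := mixing_FS hA hA1 hs hs1 hq hq1 (ha 0) (hsp 0) hU hB
      have h2 := (ENNReal.continuous_ofReal.tendsto _).comp h1
      rw [ENNReal.ofReal_mul measureReal_nonneg, ofReal_measureReal, ofReal_measureReal] at h2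
      refine h2.congr (fun n => ?_)
      simp only [Function.comp]
      rw [ofReal_measureReal]
      congr 2
      ext x
      simp only [mem_preimage, mem_setOf_eq]
      rw [FS_iter]
    · obtain ⟨l, hl, h⟩ := exists_lambda hA hA1 hs hs1 hq hq1 (ha 0) (hsp 0)
      refine ⟨l, hge.trans hl, ?_⟩
      filter_upwards [h] with t ht
      filter_upwards [ht] with z hz
      refine hz.congr (fun n => ?_)
      rw [fderiv_orbit]

end Pool.Agent.Helper95.RX
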